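import Pool.Agent.Lib.MP_b2e238_gt.P.Defs
import Pool.Agent.Lib.MP_b2e238_gt.K.Hl
import Pool.Agent.Lib.MP_b2e238_gt.K.Dif

/-! Classes of paths in the fundamental group. -/

open scoped Topology ContDiff unitInterval
open Set Complex CategoryTheory

noncomputable section

namespace Pool.Agent.Lib.MP_b2e238_gt

section Grp
variable {C : Type} [Groupoid.{0} C] (O : C)

open Classical in
/-- Morphisms closed up by fixed morphisms from the base object. -/
def clsK {x y : C} (p : x ⟶ y) : O ⟶ O :=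
  if h : Nonempty (O ⟶ x) then h.some ≫ p ≫ inv (Nonempty.some ⟨h.some ≫ p⟩) else 𝟙 O

theorem clsK_comp {x y z : C} (p : x ⟶ y) (q : y ⟶ z) : clsK O (p ≫ q) = clsK O p * clsK O q := by
  change _ = _ ≫ _
  unfold clsK
  by_cases h : Nonempty (O ⟶ x)
  · have k : Nonempty (O ⟶ y) := ⟨h.some ≫ p⟩
    simp [dif_pos h, dif_pos k]
  · have k : ¬Nonempty (O ⟶ y) := fun ⟨a⟩ => h ⟨a ≫ inv p⟩
    simp [dif_neg h, dif_neg k]

theorem clsK_conj {x y : C} (p : x ⟶ x) (q : y ⟶ y) (h : Nonempty (O ⟶ x)) (k : Nonempty (O ⟶ y))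
    (c : IsConj (clsK O p) (clsK O q)) : ∃ δ : x ⟶ y, p = (δ ≫ q) ≫ Groupoid.inv δ := by
  obtain ⟨c, e⟩ := isConj_iff.1 c
  rw [mul_inv_eq_iff_eq_mul] at e
  change _ ≫ _ = _ ≫ _ at e
  simp only [clsK, dif_pos h, dif_pos k, Category.assoc] at e
  refine ⟨inv h.some ≫ inv c ≫ k.some, ?_⟩
  have := congrArg (· ≫ h.some) e
  simpa using this

end Grp

section Top
variable {X : Type} [TopologicalSpace X] (o : X)

/-- The class of a map of the interval. -/
def clsI (g : C(I, X)) : FundamentalGroupoid.mk o ⟶ FundamentalGroupoid.mk o :=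
  clsK _ (FundamentalGroupoid.fromPath ⟦(⟨g, rfl, rfl⟩ : Path (g 0) (g 1))⟧)

theorem clsI_path {x y : X} (p : Path x y) :
    clsI o p.toContinuousMap = clsK _ (FundamentalGroupoid.fromPath ⟦p⟧) := by
  obtain ⟨g, rfl, rfl⟩ := p
  rfl

theorem clsI_pot {S : Type} [TopologicalSpace S] [SimplyConnectedSpace S] (f : C(S, X)) (x : S) :
    ∃ ρ : S → (FundamentalGroupoid.mk o ⟶ FundamentalGroupoid.mk o),
      ∀ g : C(I, S), clsI o (f.comp g) = (ρ (g 0))⁻¹ * ρ (g 1) := by
  let P (w : S) : FundamentalGroupoid.mk x ⟶ FundamentalGroupoid.mk w :=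
    FundamentalGroupoid.fromPath ⟦PathConnectedSpace.somePath x w⟧
  refine ⟨fun w => clsK _ ((FundamentalGroupoid.map f).map (P w)), fun g => ?_⟩
  have e : P (g 1) = P (g 0) ≫
      FundamentalGroupoid.fromPath ⟦(⟨g, rfl, rfl⟩ : Path (g 0) (g 1))⟧ :=
    Subsingleton.elim (α := Path.Homotopic.Quotient x (g 1)) _ _
  beta_reduce
  rw [e, Functor.map_comp, clsK_comp, inv_mul_cancel_left]
  rfl

end Top

variable {V : Type} [NormedAddCommGroup V] [NormedSpace ℝ V] {A : Set V}

omit [NormedSpace ℝ V] in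
theorem cls_sq (f : ℝ → ℝ → A) (c : Continuous f.uncurry) (e : ∀ l, f l 0 = f l 1) :
    Hl A (fun t => f 0 (Int.fract t)) fun t => f 1 (Int.fract t) :=
  ⟨fun l t => f l (Int.fract t),
    (continuous_subtype_val.comp (c.continuousOn.comp_fract' e)).continuousOn,
    fun l _ t => ⟨(f l _).2, by simp only [Int.fract_add_one]⟩, rfl, rfl⟩

omit [NormedSpace ℝ V] in
theorem cls_rel {x : A} {p q : Path x x} (h : p.Homotopic q) :
    Hl A (fun t => p.extend (Int.fract t)) fun t => q.extend (Int.fract t) := by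
  obtain ⟨G⟩ := h
  have := cls_sq (fun l t => G (projIcc 0 1 zero_le_one l, projIcc 0 1 zero_le_one t))
    (G.continuous.comp ((continuous_projIcc.comp continuous_fst).prodMk
      (continuous_projIcc.comp continuous_snd))) fun l => by simp
  simp only [ContinuousMap.HomotopyWith.apply_zero, ContinuousMap.HomotopyWith.apply_one,
    projIcc_left, projIcc_right, Set.Icc.mk_zero, Set.Icc.mk_one] at this
  exact this

omit [NormedSpace ℝ V] in
theorem cls_tail {x y : A} (W δ : Path x y) (q : Path y y)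
    (h0 : ∀ t ≤ (1 / 2 : ℝ), W.extend t = δ.extend (2 * t))
    (h1 : ∀ t, (1 / 2 : ℝ) ≤ t → W.extend t = q.extend (2 * t - 1)) :
    Hl A (fun t => (W.trans δ.symm).extend (Int.fract t))
      fun t => (q.trans (Path.refl y)).extend (Int.fract t) := by
  have := cls_sq (fun l t => if t ≤ 1 / 2 then W.extend (min l 1 / 2 + (1 - min l 1 / 2) * (2 * t))
      else δ.extend (1 - (1 - min l 1) * (2 * t - 1))) ?_ fun l => ?_
  · convert this using 3 with t t
    · split_ifs with c
      · rw [Path.extend_trans_of_le_half _ _ c]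
        simp
      · rw [Path.extend_trans_of_half_le _ _ (not_le.1 c).le, Path.extend_symm_apply]
        simp
    · split_ifs with c
      · rw [Path.extend_trans_of_le_half _ _ c, h1 _ (by
          have := Int.fract_nonneg t
          rw [min_self]
          linarith)]
        congr 1
        rw [min_self]
        ring
      · rw [Path.extend_trans_of_half_le _ _ (not_le.1 c).le]
        simp
  · refine Continuous.if_le (f := fun u : ℝ × ℝ => u.2) (g := fun _ => 1 / 2) (by fun_prop)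
      (by fun_prop) continuous_snd continuous_const fun u e => ?_
    rw [e, W.extend_of_one_le (by linarith), δ.extend_of_one_le (by linarith)]
  · have := min_le_right l 1
    rw [if_pos (by norm_num), if_neg (by norm_num), h0 _ (by linarith)]
    congr 1
    ring

/-- The segment from `a` to `b`. -/
theorem cls_seg (a b : ℝ) (τ : I) : a + τ * (b - a) ∈ uIcc a b := by
  rw [← segment_eq_uIcc, segment_eq_image']
  exact ⟨τ, τ.2, rfl⟩

/-- The restriction of a path to a segment. -/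
def clsR {W : Type} [TopologicalSpace W] {B : Set W} (γ : ℝ → W) (a b : ℝ)
    (h : ContinuousOn γ (uIcc a b) ∧ MapsTo γ (uIcc a b) B) : C(I, B) :=
  ⟨fun τ => ⟨γ (a + τ * (b - a)), h.2 (cls_seg a b τ)⟩,
    (h.1.comp_continuous (by fun_prop) (cls_seg a b)).subtype_mk _⟩

theorem exists_cls (A : Set V) (o : V) (ho : o ∈ A) :
    ∃ (Γ : Type) (_ : Group Γ) (c : (ℝ → V) → ℝ → ℝ → Γ), Cls A o c := by
  classical
  refine ⟨FundamentalGroupoid.mk (⟨o, ho⟩ : A) ⟶ FundamentalGroupoid.mk ⟨o, ho⟩, inferInstance,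
    fun γ a b => if h : ContinuousOn γ (uIcc a b) ∧ MapsTo γ (uIcc a b) A then
      clsI ⟨o, ho⟩ (clsR γ a b h) else 1, fun S x f hx s c m => ?_, fun γ γ' l l' j j' c => ?_⟩
  · have := s.contractibleSpace ⟨x, hx⟩
    obtain ⟨ρ, h⟩ := clsI_pot (⟨o, ho⟩ : A)
      (⟨m.restrict, c.mapsToRestrict m⟩ : C(S, A)) ⟨x, hx⟩
    refine ⟨fun w => if k : w ∈ S then ρ ⟨w, k⟩ else 1, fun γ u a b cu mu e => ?_⟩
    have k : ContinuousOn γ (uIcc a b) ∧ MapsTo γ (uIcc a b) A :=
      ⟨(c.comp cu mu).congr e, fun t ht => e t ht ▸ m (mu ht)⟩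
    beta_reduce
    rw [dif_pos k, dif_pos (mu left_mem_uIcc), dif_pos (mu right_mem_uIcc)]
    have := h (clsR u a b ⟨cu, mu⟩)
    convert this using 2
    · exact ContinuousMap.ext fun τ => Subtype.ext (e _ (cls_seg a b τ))
    · simp [clsR]
    · simp [clsR]
  · have P {γ : ℝ → V} (l : Lp A γ) : ∃ p : Path (⟨γ 0, l.2.1 0⟩ : A) ⟨γ 0, l.2.1 0⟩,
        p.toContinuousMap = clsR γ 0 1 ⟨l.1.continuousOn, fun t _ => l.2.1 t⟩ ∧
          γ = fun t => (p.extend (Int.fract t) : V) := by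
      refine ⟨⟨clsR γ 0 1 ⟨l.1.continuousOn, fun t _ => l.2.1 t⟩, by simp [clsR], ?_⟩, rfl,
        funext fun t => ?_⟩
      · simpa [clsR] using l.2.2 0
      · rw [Path.extend_apply _ ⟨Int.fract_nonneg t, (Int.fract_lt_one t).le⟩]
        simpa [clsR] using per_int l.2.2 (Int.fract t) ⌊t⌋
    obtain ⟨p, e, f⟩ := P l
    obtain ⟨q, e', f'⟩ := P l'
    beta_reduce at c
    rw [dif_pos ⟨l.1.continuousOn, fun t _ => l.2.1 t⟩,
      dif_pos ⟨l'.1.continuousOn, fun t _ => l'.2.1 t⟩, ← e, ← e', clsI_path, clsI_path] at c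
    obtain ⟨δ, d⟩ := clsK_conj _ _ _ ⟨FundamentalGroupoid.fromPath ⟦j.joined_subtype.somePath⟧⟩
      ⟨FundamentalGroupoid.fromPath ⟦j'.joined_subtype.somePath⟧⟩ c
    obtain ⟨δ, rfl⟩ := Quotient.exists_rep δ
    have d' : p.Homotopic ((δ.trans q).trans δ.symm) := Quotient.exact d
    have := ((cls_rel d').trans (cls_tail _ δ q (fun t => Path.extend_trans_of_le_half _ _)
      fun t => Path.extend_trans_of_half_le _ _)).trans (cls_rel (Path.Homotopic.trans_refl q))
    rwa [← f, ← f'] at this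

end Pool.Agent.Lib.MP_b2e238_gt
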