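import Pool.Agent.Lib.MP_b2e238_gt.P.Sys

/-! The orbit `x = 0`. -/

open scoped Topology ContDiff ComplexConjugate
open Set Complex

noncomputable section

namespace Pool.Agent.Lib.MP_b2e238_gt

variable {Γ : Type} [Group Γ]

variable {n σ : ℕ} {ε : ℤ} {o : ℂ × ℂ × ℂ} {c : (ℝ → ℂ × ℂ × ℂ) → ℝ → ℝ → Γ} {ρ ρ' : ℂ × ℂ → Γ}
  {l μ h : Γ}

/-- A real path without zeros that starts positive stays positive. -/
theorem f2_pos {G : ℝ → ℂ} {a b : ℝ} (k : ContinuousOn G (uIcc a b))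
    (r : ∀ t ∈ uIcc a b, conj (G t) = G t ∧ G t ≠ 0) (p : 0 < (G a).re) :
    ∀ t ∈ uIcc a b, 0 < (G t).re ∧ (G t).im = 0 := by
  intro t ht
  refine ⟨not_le.1 fun q => ?_, conj_eq_iff_im.1 (r t ht).1⟩
  obtain ⟨s, hs, e⟩ := isPreconnected_uIcc.intermediate_value ht left_mem_uIcc
    (continuous_re.comp_continuousOn k) ⟨q, p.le⟩
  exact (r s hs).2 (Complex.ext e (conj_eq_iff_im.1 (r s hs).1))

theorem f2_pI (σ : ℕ) (ε : ℤ) {X Y : ℂ} (k : X ^ 2 + Y ^ 3 ≠ 0) :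
    (pI σ ε X Y).1 / (pI σ ε X Y).2.2 ^ (3 * σ) = X ∧
      (pI σ ε X Y).2.1 / (pI σ ε X Y).2.2 ^ (2 * σ) = Y :=
  ⟨mul_div_cancel_right₀ _ (pow_ne_zero _ (zpow_ne_zero _ (neg_ne_zero.2 k))),
    mul_div_cancel_right₀ _ (pow_ne_zero _ (zpow_ne_zero _ (neg_ne_zero.2 k)))⟩

/-- The chart round the orbit. -/
def f2C (σ : ℕ) (ε : ℤ) (u : ℂ × ℂ) : ℂ × ℂ × ℂ := pI σ ε (u.1 * exp (3 * u.2 / 2)) (exp u.2)

/-- Its domain. -/
def f2T : Set (ℂ × ℂ) := {u | 1 + u.1 ^ 2 ∈ slitPlane}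

/-- From the regular part to the chart. -/
def f2M (L : ℂ → ℂ) (u : ℂ × ℂ) : ℂ × ℂ := (exp (-L u.1 / 2), 2 * u.2 + L u.1)

theorem f2_sum (u : ℂ × ℂ) :
    (u.1 * exp (3 * u.2 / 2)) ^ 2 + exp u.2 ^ 3 = exp u.2 ^ 3 * (1 + u.1 ^ 2) := by
  rw [mul_pow, ← exp_nat_mul, ← exp_nat_mul, show ((2 : ℕ) : ℂ) * (3 * u.2 / 2) = (3 : ℕ) * u.2 by
    push_cast; ring]
  ring

theorem f2_ne {u : ℂ × ℂ} (k : u ∈ f2T) : (u.1 * exp (3 * u.2 / 2)) ^ 2 + exp u.2 ^ 3 ≠ 0 := by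
  rw [f2_sum]
  exact mul_ne_zero (pow_ne_zero _ (exp_ne_zero _)) (slitPlane_ne_zero k)

theorem f2_star : StarConvex ℝ (0 : ℂ × ℂ) f2T := by
  intro y hy a b ha hb e
  have := starConvex_one_slitPlane hy (a := 1 - b ^ 2) (b := b ^ 2) (by nlinarith) (by positivity)
    (by ring)
  convert this using 1
  simp only [f2T, mem_ofPred_eq, smul_zero, zero_add, Prod.smul_fst, real_smul]
  congr! 1
  push_cast
  ring

theorem f2_tpi : exp (3 * tpi / 2) = -1 ∧ exp tpi = 1 ∧ exp (-tpi / 2) = -1 := by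
  have a : exp tpi = 1 := exp_two_pi_mul_I
  have b : exp (3 * tpi / 2) = -1 := by
    rw [show 3 * tpi / 2 = tpi + Real.pi * I by rw [tpi]; ring, exp_add, a, exp_pi_mul_I, one_mul]
  refine ⟨b, a, ?_⟩
  rw [show -tpi / 2 = -(Real.pi * I) by rw [tpi]; ring, exp_neg, exp_pi_mul_I]
  simp

theorem f2_deck (σ : ℕ) (ε : ℤ) (u : ℂ × ℂ) : f2C σ ε (-u.1, u.2 + tpi) = f2C σ ε u := by
  simp only [f2C]
  rw [mul_add, add_div, exp_add, exp_add, f2_tpi.1, f2_tpi.2.1]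
  congr 1 <;> ring

theorem f2_eq (σ : ℕ) (ε : ℤ) {L : ℂ → ℂ} {u : ℂ × ℂ} (e : exp (L u.1) = -exp u.1 / (1 + exp u.1)) :
    pG σ ε u = f2C σ ε (f2M L u) := by
  simp only [f2C, f2M, pG]
  rw [← e, ← exp_add, ← exp_add, ← exp_add]
  congr 2
  ring

theorem f2_one {L : ℂ → ℂ} {u : ℂ × ℂ} (k : 1 + exp u.1 ≠ 0)
    (e : exp (L u.1) = -exp u.1 / (1 + exp u.1)) : 1 + (f2M L u).1 ^ 2 = -exp (-u.1) := by
  simp only [f2M]
  rw [← exp_nat_mul, show ((2 : ℕ) : ℂ) * (-L u.1 / 2) = -L u.1 by push_cast; ring, exp_neg,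
    exp_neg, e]
  have := exp_ne_zero u.1
  field_simp
  ring

theorem f2_slit {w : ℂ} (a : 0 < w.im) (b : w.im < 2 * Real.pi) : -exp (-w) ∈ slitPlane := by
  rw [mem_slitPlane_iff, or_iff_not_imp_right, not_not]
  intro k
  have e : -exp (-w) = exp (Real.pi * I - w) := by
    rw [sub_eq_add_neg, exp_add, exp_pi_mul_I, neg_one_mul]
  have i : ((Real.pi : ℂ) * I - w).im = Real.pi - w.im := by simp
  rw [e] at k ⊢
  rw [exp_im, mul_eq_zero, i, Real.sin_eq_zero_iff_of_lt_of_lt (by linarith) (by linarith)] at k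
  rw [exp_re, i, k.resolve_left (Real.exp_ne_zero _), Real.cos_zero, mul_one]
  exact Real.exp_pos _

/-- The logarithm on the left. -/
def f2L (w : ℂ) : ℂ := w + Real.pi * I - log (1 + exp w)

/-- The logarithm on the right. -/
def f2R (w : ℂ) : ℂ := Real.pi * I - log (1 + exp (-w))

theorem f2L_exp {w : ℂ} (k : 1 + exp w ≠ 0) : exp (f2L w) = -exp w / (1 + exp w) := by
  rw [f2L, exp_sub, exp_add, exp_log k, exp_pi_mul_I, mul_neg_one]

theorem f2R_ne {w : ℂ} (k : 1 + exp (-w) ≠ 0) : 1 + exp w ≠ 0 := fun e => k (by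
  rw [exp_neg, eq_neg_of_add_eq_zero_right e]; simp)

theorem f2R_exp {w : ℂ} (k : 1 + exp (-w) ≠ 0) : exp (f2R w) = -exp w / (1 + exp w) := by
  rw [f2R, exp_sub, exp_log k, exp_pi_mul_I, div_eq_div_iff k (f2R_ne k), exp_neg]
  have := exp_ne_zero w
  field_simp
  ring

theorem f2_potL {τ : ℂ × ℂ → Γ} (p : Pot c (f2C σ ε) f2T τ) {A : Set (ℂ × ℂ)}
    (s : ∀ u ∈ A, 1 + exp u.1 ∈ slitPlane ∧ 0 < u.1.im ∧ u.1.im < 2 * Real.pi) :
    Pot c (pG σ ε) A fun u => τ (f2M f2L u) := by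
  have k : ContinuousOn (fun u : ℂ × ℂ => log (1 + exp u.1)) A :=
    ContinuousOn.clog (by fun_prop) fun u hu => (s u hu).1
  refine p.comp ?_ (fun u hu => ?_) fun u hu => f2_eq _ _ (f2L_exp (slitPlane_ne_zero (s u hu).1))
  · unfold f2M f2L
    fun_prop
  · have n := slitPlane_ne_zero (s u hu).1
    rw [f2T, mem_ofPred_eq, f2_one n (f2L_exp n)]
    exact f2_slit (s u hu).2.1 (s u hu).2.2

theorem f2_potR {τ : ℂ × ℂ → Γ} (p : Pot c (f2C σ ε) f2T τ) {A : Set (ℂ × ℂ)}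
    (s : ∀ u ∈ A, 1 + exp (-u.1) ∈ slitPlane ∧ 0 < u.1.im ∧ u.1.im < 2 * Real.pi) :
    Pot c (pG σ ε) A fun u => τ (f2M f2R u) := by
  have k : ContinuousOn (fun u : ℂ × ℂ => log (1 + exp (-u.1))) A :=
    ContinuousOn.clog (by fun_prop) fun u hu => (s u hu).1
  refine p.comp ?_ (fun u hu => ?_) fun u hu => f2_eq _ _ (f2R_exp (slitPlane_ne_zero (s u hu).1))
  · unfold f2M f2R
    fun_prop
  · have n := slitPlane_ne_zero (s u hu).1
    rw [f2T, mem_ofPred_eq, f2_one (f2R_ne n) (f2R_exp n)]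
    exact f2_slit (s u hu).2.1 (s u hu).2.2

theorem f2_cvx (a b : ℝ) : Convex ℝ {u : ℂ × ℂ | a < u.1.im ∧ u.1.im < b} :=
  ((convex_halfSpace_im_gt a).inter (convex_halfSpace_im_lt b)).linear_preimage
    (LinearMap.fst ℝ ℂ ℂ)

theorem f2_cvxL : Convex ℝ {u : ℂ × ℂ | u.1.re < 0} :=
  (convex_halfSpace_re_lt 0).linear_preimage (LinearMap.fst ℝ ℂ ℂ)

theorem f2_cvxR : Convex ℝ {u : ℂ × ℂ | 0 < u.1.re} :=
  (convex_halfSpace_re_gt 0).linear_preimage (LinearMap.fst ℝ ℂ ℂ)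

/-- The potential of the chart, normalised. -/
theorem f2_pot (hn : (n : ℤ) = 6 * σ + ε) (hε : ε = 1 ∨ ε = -1) (C : Cls (Cn n) o c)
    (S : Sys c σ ε ρ ρ' l μ h) : ∃ τ, Pot c (f2C σ ε) f2T τ ∧
      (∀ u ∈ f2T, τ (-u.1, u.2 + tpi) = l * μ * τ u) ∧
      (∀ u : ℂ × ℂ, 0 < u.1.im → u.1.im < 2 * Real.pi → u.1.re < 0 → ρ u = τ (f2M f2L u)) ∧
      ∀ u : ℂ × ℂ, 0 < u.1.im → u.1.im < 2 * Real.pi → 0 < u.1.re → ρ' u = τ (f2M f2R u) := by
  have π0 := Real.pi_pos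
  obtain ⟨τ₀, p₀⟩ := C.pot f2T 0 (f2C σ ε) (by simp [f2T]) f2_star
    ((pI_cont σ ε).comp (f := fun u : ℂ × ℂ => (u.1 * exp (3 * u.2 / 2), exp u.2)) (by fun_prop)
      fun u hu => f2_ne hu) fun u hu => pI_mem hn hε (f2_ne hu)
  let B : ℝ → ℝ → Set (ℂ × ℂ) := fun a b => {u | a < u.1.im ∧ u.1.im < b}
  have mid (u) (hu : u ∈ B 0 Real.pi) : |u.1.im| < Real.pi := abs_lt.2 ⟨by linarith [hu.1], hu.2⟩
  have big (u) (hu : u ∈ B 0 Real.pi) : u ∈ B 0 (2 * Real.pi) := ⟨hu.1, by linarith [hu.2]⟩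
  let x : ℂ × ℂ := (⟨-1, Real.pi / 2⟩, 0)
  let y : ℂ × ℂ := (⟨1, Real.pi / 2⟩, 0)
  have x1 : x ∈ B 0 Real.pi := ⟨by simp only [x]; linarith, by simp only [x]; linarith⟩
  have y1 : y ∈ B 0 Real.pi := x1
  have x2 : x ∈ {u : ℂ × ℂ | u.1.re < 0} ∩ B 0 (2 * Real.pi) := ⟨by simp [x], big x x1⟩
  have y2 : y ∈ {u : ℂ × ℂ | 0 < u.1.re} ∩ B 0 (2 * Real.pi) := ⟨by simp [y], big y y1⟩
  have sL : {u : ℂ × ℂ | u.1.re < 0} ∩ B 0 (2 * Real.pi) ∪ B 0 Real.pi ⊆ pL :=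
    fun u hu => hu.imp (fun k => k.1) (mid u)
  have sR : {u : ℂ × ℂ | 0 < u.1.re} ∩ B 0 (2 * Real.pi) ∪ B 0 Real.pi ⊆ pR :=
    fun u hu => hu.imp (fun k => k.1) (mid u)
  have eL := (S.potL.mono sL).uniq (f2_potL p₀ fun u hu =>
    ⟨pL_slit (sL hu), hu.elim (fun k => k.2) (big u)⟩)
    (((f2_cvxL.inter (f2_cvx _ _)).starConvex x2).union ((f2_cvx _ _).starConvex x1)) (Or.inr x1)
  have eR := (S.potR.mono sR).uniq (f2_potR p₀ fun u hu =>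
    ⟨pR_slit (sR hu), hu.elim (fun k => k.2) (big u)⟩)
    (((f2_cvxR.inter (f2_cvx _ _)).starConvex y2).union ((f2_cvx _ _).starConvex y1)) (Or.inr y1)
  generalize ρ x * (τ₀ (f2M f2L x))⁻¹ = g at eL
  generalize ρ' y * (τ₀ (f2M f2R y))⁻¹ = g' at eR
  obtain rfl : g = g' := by
    have e : f2M f2L x = f2M f2R x := by
      simp only [f2M, f2L, f2R, p_log_mid (mid x x1), add_sub_add_left_eq_sub]
    have := (eL x (Or.inr x1)).symm.trans ((S.mid x.1 x.2 (mid x x1)).trans (eR x (Or.inr x1)))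
    rw [e] at this
    exact mul_right_cancel this
  have p := p₀.mul g
  have q := (p.comp (φ := fun u => (-u.1, u.2 + tpi)) (T := f2T) (by fun_prop)
    (fun u hu => by simpa [f2T] using hu) fun u _ => (f2_deck σ ε u).symm).uniq p f2_star
      (by simp [f2T])
  generalize g * τ₀ (-(0 : ℂ × ℂ).1, (0 : ℂ × ℂ).2 + tpi) * (g * τ₀ 0)⁻¹ = d at q
  refine ⟨_, p, ?_, fun u a b k => eL u (Or.inl ⟨k, a, b⟩), fun u a b k => eR u (Or.inl ⟨k, a, b⟩)⟩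
  suffices e : d = l * μ from e ▸ q
  have ti : tpi.im = 2 * Real.pi := by simp [tpi]
  have tr : tpi.re = 0 := by simp [tpi]
  have up (u) (hu : u ∈ B Real.pi (2 * Real.pi)) : |(u.1 - tpi).im| < Real.pi := by
    rw [sub_im, ti]
    exact abs_lt.2 ⟨by linarith [hu.1], by linarith [hu.2]⟩
  have ex (w : ℂ) : exp (w - tpi) = exp w := by rw [exp_sub, f2_tpi.2.1, div_one]
  have big' (u) (hu : u ∈ B Real.pi (2 * Real.pi)) : u ∈ B 0 (2 * Real.pi) :=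
    ⟨by linarith [hu.1], hu.2⟩
  let x' : ℂ × ℂ := (⟨-1, 3 * Real.pi / 2⟩, 0)
  let y' : ℂ × ℂ := (⟨1, 3 * Real.pi / 2⟩, 0)
  have x3 : x' ∈ B Real.pi (2 * Real.pi) :=
    ⟨by simp only [x']; linarith, by simp only [x']; linarith⟩
  have y3 : y' ∈ B Real.pi (2 * Real.pi) := x3
  have eB := (f2_potL p (A := B Real.pi (2 * Real.pi)) fun u hu =>
    ⟨ex u.1 ▸ pot_slit (Or.inr (up u hu)), big' u hu⟩).uniq
    (S.potL.comp (φ := fun u => (u.1 - tpi, u.2)) (by fun_prop) (fun u hu => Or.inr (up u hu))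
      fun u _ => by simp only [pG, ex]) ((f2_cvx _ _).starConvex x3) x3 y' y3
  have a := S.dL (x'.1 - tpi) x'.2 (by simp [x', tr])
  have b := S.dR (y'.1 - tpi) y'.2 (by simp [y', tr])
  rw [sub_add_cancel] at a b
  have yR : 1 + exp (-y'.1) ∈ slitPlane := pR_slit (u := y') (Or.inl (by simp [y']))
  have e : f2M f2L y' = (-(f2M f2R y').1, (f2M f2R y').2 + tpi) := by
    have : f2L y'.1 = f2R y'.1 + tpi := by
      rw [f2L, f2R, ← ex, p_log_mid (up y' y3), neg_sub, sub_eq_add_neg tpi, exp_add, f2_tpi.2.1,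
        one_mul]
      ring
    simp only [f2M, this]
    rw [neg_add, add_div, exp_add, f2_tpi.2.2, mul_neg_one, add_assoc]
  rw [← eL x' (Or.inl ⟨by simp [x'], big' x' x3⟩), a, mul_inv_cancel_right, e, q, S.mid _ _ (up y' y3),
    ← eR y' (Or.inl ⟨by simp [y'], big' y' y3⟩), b, ← mul_assoc] at eB
  · rw [← mul_right_cancel eB, inv_mul_cancel_right]
  · have n := slitPlane_ne_zero yR
    rw [f2T, mem_ofPred_eq, f2_one (f2R_ne n) (f2R_exp n)]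
    exact f2_slit (big' y' y3).1 (big' y' y3).2

/-- A real path in the chart. -/
theorem f2_path (hn : (n : ℤ) = 6 * σ + ε) (hε : ε = 1 ∨ ε = -1) {τ : ℂ × ℂ → Γ} {d : Γ}
    (p : Pot c (f2C σ ε) f2T τ) (q : ∀ u ∈ f2T, τ (-u.1, u.2 + tpi) = d * τ u)
    {γ : ℝ → ℂ × ℂ × ℂ} {a b : ℝ} (R : RP n γ a b)
    (z : ∀ t ∈ uIcc a b, (γ t).2.1 ≠ 0 ∧ (γ t).2.2 ≠ 0) {x y : ℂ × ℂ} (hx : 0 < (1 + x.1 ^ 2).re)
    (hy : y ∈ f2T) (ea : γ a = f2C σ ε x) (eb : γ b = f2C σ ε y)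
    (i : y.2.im = x.2.im + 2 * Real.pi) : c γ a b = (τ x)⁻¹ * d⁻¹ * τ y := by
  let X : ℝ → ℂ := fun t => (γ t).1 / (γ t).2.2 ^ (3 * σ)
  let Y : ℝ → ℂ := fun t => (γ t).2.1 / (γ t).2.2 ^ (2 * σ)
  have k := R.1
  have cX : ContinuousOn X (uIcc a b) :=
    k.fst.div (k.snd.snd.pow _) fun t ht => pow_ne_zero _ (z t ht).2
  have cY : ContinuousOn Y (uIcc a b) :=
    k.snd.fst.div (k.snd.snd.pow _) fun t ht => pow_ne_zero _ (z t ht).2
  have r (t) (ht : t ∈ uIcc a b) : conj (X t) = X t ∧ conj (Y t) = Y t := by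
    obtain ⟨r1, r2, r3⟩ : conj (γ t).1 = (γ t).1 ∧ conj (γ t).2.1 = (γ t).2.1 ∧
      conj (γ t).2.2 = (γ t).2.2 := by simpa [Prod.ext_iff] using (R.2 t ht).2
    simp only [X, Y, map_div₀, map_pow, r1, r2, r3, and_self]
  have nY (t) (ht : t ∈ uIcc a b) : Y t ≠ 0 := div_ne_zero (z t ht).1 (pow_ne_zero _ (z t ht).2)
  have v (t) (ht : t ∈ uIcc a b) : X t ^ 2 + Y t ^ 3 ≠ 0 ∧ pI σ ε (X t) (Y t) = γ t :=
    pI_inv hn hε (R.2 t ht).1 (z t ht).2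
  have xa : X a = x.1 * exp (3 * x.2 / 2) ∧ Y a = exp x.2 := by
    simp only [X, Y, ea]
    exact f2_pI σ ε (f2_ne (Or.inl hx))
  have yb : X b = y.1 * exp (3 * y.2 / 2) ∧ Y b = exp y.2 := by
    simp only [X, Y, eb]
    exact f2_pI σ ε (f2_ne hy)
  have na := nY a left_mem_uIcc
  have p1 := f2_pos (G := fun t => Y t / Y a) (cY.div_const _) (fun t ht =>
    ⟨by rw [map_div₀, (r t ht).2, (r a left_mem_uIcc).2], div_ne_zero (nY t ht) na⟩)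
    (by simp [div_self na])
  have p2 := f2_pos (G := fun t => (X t ^ 2 + Y t ^ 3) / Y t ^ 3)
    (((cX.pow _).add (cY.pow _)).div (cY.pow _) fun t ht => pow_ne_zero _ (nY t ht)) (fun t ht =>
      ⟨by simp only [map_div₀, map_add, map_pow, (r t ht).1, (r t ht).2],
        div_ne_zero (v t ht).1 (pow_ne_zero _ (nY t ht))⟩)
    (by rwa [xa.1, xa.2, f2_sum, mul_div_cancel_left₀ _ (pow_ne_zero _ (exp_ne_zero _))])
  let β : ℝ → ℂ := fun t => x.2 + log (Y t / Y a)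
  have cβ : ContinuousOn β (uIcc a b) :=
    continuousOn_const.add ((cY.div_const _).clog fun t ht => Or.inl (p1 t ht).1)
  have eβ (t) (ht : t ∈ uIcc a b) : exp (β t) = Y t := by
    simp only [β]
    rw [exp_add, exp_log (div_ne_zero (nY t ht) na), ← xa.2, mul_div_cancel₀ _ na]
  let u : ℝ → ℂ × ℂ := fun t => (X t / exp (3 * β t / 2), β t)
  have eu (t) : (u t).1 * exp (3 * (u t).2 / 2) = X t := div_mul_cancel₀ _ (exp_ne_zero _)
  have m (t) (ht : t ∈ uIcc a b) : u t ∈ f2T := by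
    have := f2_sum (u t)
    rw [eu, show exp (u t).2 = Y t from eβ t ht] at this
    have w := (p2 t ht).1
    rw [this, mul_div_cancel_left₀ _ (pow_ne_zero _ (nY t ht))] at w
    exact Or.inl w
  have cu : ContinuousOn u (uIcc a b) :=
    (cX.div ((continuousOn_const.mul cβ).div_const _).cexp fun t _ => exp_ne_zero _).prodMk cβ
  rw [p γ u a b cu m fun t ht => by
    rw [f2C, eu, show exp (u t).2 = Y t from eβ t ht, (v t ht).2]]
  have ua : u a = x := by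
    have : β a = x.2 := by simp [β, div_self na]
    simp only [u, this, xa.1, mul_div_cancel_right₀ _ (exp_ne_zero _)]
  have ub : y = (-(u b).1, (u b).2 + tpi) := by
    have : y.2 = β b + tpi := by
      have e := congrArg norm ((eβ b right_mem_uIcc).trans yb.2)
      rw [norm_exp, norm_exp, Real.exp_eq_exp] at e
      refine Complex.ext (by simp [tpi, e]) ?_
      have := arg_eq_zero_iff.2 ⟨(p1 b right_mem_uIcc).1.le, (p1 b right_mem_uIcc).2⟩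
      simp only [β, add_im, log_im, this, i]
      simp [tpi]
    refine Prod.ext ?_ this
    simp only [u, yb.1, this]
    rw [mul_add, add_div, exp_add, f2_tpi.1]
    have := exp_ne_zero (3 * β b / 2)
    field_simp
  rw [ua, ub, q _ (m b right_mem_uIcc)]
  group

theorem f2_st (r q : ℝ) (m : ℤ) : exp (st r 1 q m).1 = -(Real.exp r : ℝ) ∧
    exp (-(st r 1 q m).1) = -(Real.exp (-r) : ℝ) ∧ (st r 1 q m).1.im = Real.pi ∧
      (st r 1 q m).1.re = r ∧ (st r 1 q m).2.im = m * Real.pi := by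
  have a : exp (st r 1 q m).1 = -(Real.exp r : ℝ) := by
    simp [st, exp_add, exp_pi_mul_I]
  refine ⟨a, ?_, by simp [st], by simp [st], by simp [st]⟩
  rw [exp_neg, a, Real.exp_neg]
  simp

theorem f2_log {s : ℝ} (k : s < 0) : 1 + -((Real.exp s : ℝ) : ℂ) ≠ 0 ∧
    (log (1 + -((Real.exp s : ℝ) : ℂ))).im = 0 := by
  have p : 0 < 1 + -Real.exp s := by linarith [Real.exp_lt_one_iff.2 k]
  rw [show 1 + -((Real.exp s : ℝ) : ℂ) = ((1 + -Real.exp s : ℝ) : ℂ) by push_cast; rfl]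
  exact ⟨ofReal_ne_zero.2 p.ne', by rw [log_im, arg_ofReal_of_nonneg p.le]⟩

theorem pass2 (hn : (n : ℤ) = 6 * σ + ε) (hε : ε = 1 ∨ ε = -1) (C : Cls (Cn n) o c)
    (S : Sys c σ ε ρ ρ' l μ h) : (l * μ) ^ 2 = h ∧
    ∀ (γ : ℝ → ℂ × ℂ × ℂ) (a b r q r' q' : ℝ) (m : ℤ), RP n γ a b →
      (∀ t ∈ uIcc a b, (γ t).2.1 ≠ 0 ∧ (γ t).2.2 ≠ 0) → γ a = pG σ ε (st r 1 q m) →
      γ b = pG σ ε (st r' 1 q' (m + 1)) →
      (r < 0 → r' < 0 →
        c γ a b = (ρ (st r 1 q m))⁻¹ * (l * μ)⁻¹ * ρ (st r' 1 q' (m + 1))) ∧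
      (0 < r → 0 < r' →
        c γ a b = (ρ' (st r 1 q m))⁻¹ * (l * μ)⁻¹ * ρ' (st r' 1 q' (m + 1))) := by
  have π0 := Real.pi_pos
  obtain ⟨τ, p, d, eL, eR⟩ := f2_pot hn hε C S
  have L (r q : ℝ) (m : ℤ) (k : r < 0) : ρ (st r 1 q m) = τ (f2M f2L (st r 1 q m)) ∧
      0 < (1 + (f2M f2L (st r 1 q m)).1 ^ 2).re ∧
      pG σ ε (st r 1 q m) = f2C σ ε (f2M f2L (st r 1 q m)) ∧
      (f2M f2L (st r 1 q m)).2.im = 2 * (m * Real.pi) + 2 * Real.pi := by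
    obtain ⟨s1, s2, s3, s4, s5⟩ := f2_st r q m
    have n : 1 + exp (st r 1 q m).1 ≠ 0 := s1 ▸ (f2_log k).1
    refine ⟨eL _ (by linarith) (by linarith) (by linarith), ?_, f2_eq _ _ (f2L_exp n), ?_⟩
    · rw [f2_one n (f2L_exp n), s2, neg_neg, ofReal_re]
      exact Real.exp_pos _
    · simp only [f2M, f2L, add_im, sub_im, s1, (f2_log k).2, s3]
      simp [s5]
      ring
  have R (r q : ℝ) (m : ℤ) (k : 0 < r) : ρ' (st r 1 q m) = τ (f2M f2R (st r 1 q m)) ∧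
      0 < (1 + (f2M f2R (st r 1 q m)).1 ^ 2).re ∧
      pG σ ε (st r 1 q m) = f2C σ ε (f2M f2R (st r 1 q m)) ∧
      (f2M f2R (st r 1 q m)).2.im = 2 * (m * Real.pi) + Real.pi := by
    obtain ⟨s1, s2, s3, s4, s5⟩ := f2_st r q m
    have n : 1 + exp (-(st r 1 q m).1) ≠ 0 := s2 ▸ (f2_log (neg_lt_zero.2 k)).1
    refine ⟨eR _ (by linarith) (by linarith) (by linarith), ?_, f2_eq _ _ (f2R_exp n), ?_⟩
    · rw [f2_one (f2R_ne n) (f2R_exp n), s2, neg_neg, ofReal_re]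
      exact Real.exp_pos _
    · simp only [f2M, f2R, add_im, sub_im, s2, (f2_log (neg_lt_zero.2 k)).2]
      simp [s5]
  refine ⟨?_, fun γ a b r q r' q' m P z ea eb => ⟨fun k k' => ?_, fun k k' => ?_⟩⟩
  · obtain ⟨a1, a2, -, -⟩ := L (-1) 0 0 (by simp)
    obtain ⟨-, -, s3, s4, -⟩ := f2_st (-1) 0 0
    have a := S.hL (st (-1) 1 0 0).1 (st (-1) 1 0 0).2 (Or.inl (by rw [s4]; simp))
    have b := d _ (Or.inl a2)
    have e := d (-(f2M f2L (st (-1) 1 0 0)).1, (f2M f2L (st (-1) 1 0 0)).2 + tpi)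
      (Or.inl (by simpa using a2))
    rw [Prod.mk.eta, a1, eL _ (by simp only; linarith) (by simp only; linarith)
      (by simp only; linarith)] at a
    rw [b, neg_neg, ← mul_assoc, ← pow_two] at e
    refine mul_right_cancel (e.symm.trans (Eq.trans ?_ a))
    simp only [f2M]
    congr 2
    ring
  · obtain ⟨a1, a2, a3, a4⟩ := L r q m k
    obtain ⟨b1, b2, b3, b4⟩ := L r' q' (m + 1) k'
    rw [a1, b1]
    exact f2_path hn hε p d P z a2 (Or.inl b2) (ea.trans a3) (eb.trans b3)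
      (by rw [a4, b4]; push_cast; ring)
  · obtain ⟨a1, a2, a3, a4⟩ := R r q m k
    obtain ⟨b1, b2, b3, b4⟩ := R r' q' (m + 1) k'
    rw [a1, b1]
    exact f2_path hn hε p d P z a2 (Or.inl b2) (ea.trans a3) (eb.trans b3)
      (by rw [a4, b4]; push_cast; ring)

end Pool.Agent.Lib.MP_b2e238_gt
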