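import Pool.Agent.Lib.MP_b2e238_gt.P.Sys

/-! The pass through the orbit `z = 0`. -/

open scoped Topology ContDiff
open Set Complex

noncomputable section

namespace Pool.Agent.Lib.MP_b2e238_gt

variable {V : Type} [NormedAddCommGroup V] [NormedSpace ℝ V] {Γ : Type} [Group Γ]

/-- An action of the integers by deck maps multiplies the potential by the powers of a constant. -/
theorem fn_deck {c : (ℝ → V) → ℝ → ℝ → Γ} {f : ℂ × ℂ → V} {S : Set (ℂ × ℂ)} {η : ℂ × ℂ → Γ}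
    (h : Pot c f S η) {x : ℂ × ℂ} (s : StarConvex ℝ x S) (hx : x ∈ S) {D : ℤ → ℂ × ℂ → ℂ × ℂ}
    (k : Continuous (D 1)) (m : ∀ j, MapsTo (D j) S S) (e : ∀ u, f (D 1 u) = f u)
    (a : ∀ j u, D (j + 1) u = D 1 (D j u)) (z : ∀ u, D 0 u = u) :
    ∃ d : Γ, ∀ j, ∀ u ∈ S, η (D j u) = d ^ j * η u := by
  have h1 := (h.comp (f' := f) k.continuousOn (m 1) fun u _ => (e u).symm).uniq h s hx
  refine ⟨η (D 1 x) * (η x)⁻¹, fun j u hu => ?_⟩
  induction j using Int.induction_on with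
  | zero => simp [z]
  | succ j ih => rw [a, h1 _ (m _ hu), ih, add_comm, zpow_one_add]; group
  | pred j ih =>
    have := h1 _ (m (-j - 1) hu)
    rw [← a, sub_add_cancel, ih] at this
    rw [show (-j - 1 : ℤ) = -1 + -j by ring, zpow_add, zpow_neg_one, mul_assoc, this,
      show (-1 + -j : ℤ) = -j - 1 by ring]
    group

/-- The chart round `z = 0`. -/
def fnF (n : ℕ) (u : ℂ × ℂ) : ℂ × ℂ × ℂ :=
  (exp (3 * u.2 + log (1 - u.1 ^ n) / 2), -exp (2 * u.2), u.1 * exp (6 * u.2 / n))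

/-- Its domain. -/
def fnS (n : ℕ) : Set (ℂ × ℂ) := {u | 1 - u.1 ^ n ∈ slitPlane}

/-- Its deck maps. -/
def fnD (n : ℕ) (j : ℤ) (u : ℂ × ℂ) : ℂ × ℂ := (exp (-(6 * (j * tpi) / n)) * u.1, u.2 + j * tpi)

/-- The logarithm of `z`. -/
def fnZ (ε : ℤ) (u : ℂ × ℂ) : ℂ := ε * (6 * u.2 - u.1 - 3 * log (1 + exp (-u.1)) + Real.pi * I)

/-- The second coordinate of the change of chart. -/
def fnW (σ : ℕ) (ε : ℤ) (u : ℂ × ℂ) : ℂ :=
  u.2 - log (1 + exp (-u.1)) / 2 + Real.pi * I + σ * fnZ ε u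

/-- The change of chart. -/
def fnP (n σ : ℕ) (ε : ℤ) (u : ℂ × ℂ) : ℂ × ℂ := (exp (fnZ ε u - 6 * fnW σ ε u / n), fnW σ ε u)

variable {n σ : ℕ} {ε : ℤ} {o : ℂ × ℂ × ℂ} {c : (ℝ → ℂ × ℂ × ℂ) → ℝ → ℝ → Γ} {ρ ρ' : ℂ × ℂ → Γ}
  {l μ h : Γ}

theorem fn_tpi (j : ℤ) : exp (j * tpi) = 1 := exp_int_mul_two_pi_mul_I j

theorem fn_add (a : ℂ) (j : ℤ) : exp (a + j * tpi) = exp a := by rw [exp_add, fn_tpi, mul_one]

theorem fn_zero (k : n ≠ 0) : (0 : ℂ × ℂ) ∈ fnS n := by simp [fnS, k]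

theorem fn_star : StarConvex ℝ (0 : ℂ × ℂ) (fnS n) := by
  intro u hu a b ha hb e
  have := StarConvex.add_smul_mem starConvex_one_slitPlane (y := -u.1 ^ n)
    (by simpa [fnS, sub_eq_add_neg] using hu) (pow_nonneg hb n) (pow_le_one₀ hb (by linarith))
  simpa [fnS, sub_eq_add_neg, mul_pow] using this

theorem fn_cont : ContinuousOn (fnF n) (fnS n) := by
  have : ContinuousOn (fun u : ℂ × ℂ => log (1 - u.1 ^ n)) (fnS n) :=
    ContinuousOn.clog (by fun_prop) fun _ hu => hu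
  unfold fnF
  fun_prop

theorem fn_sq {u : ℂ × ℂ} (hu : u ∈ fnS n) : (fnF n u).1 ^ 2 = exp (6 * u.2) * (1 - u.1 ^ n) := by
  rw [← exp_log (slitPlane_ne_zero hu), ← exp_add, fnF, ← exp_nat_mul]
  congr 1; push_cast; ring

theorem fn_six (k : n ≠ 0) (a : ℂ) : exp (a / n) ^ n = exp a := by
  rw [← exp_nat_mul, mul_div_cancel₀ _ (Nat.cast_ne_zero.2 k)]

theorem fn_maps (k : n ≠ 0) : MapsTo (fnF n) (fnS n) (Cn n) := by
  intro u hu
  refine ⟨?_, fun e => exp_ne_zero _ (congrArg Prod.fst e)⟩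
  have e : exp (2 * u.2) ^ 3 = exp (6 * u.2) := by rw [← exp_nat_mul]; congr 1; push_cast; ring
  rw [fn_sq hu]
  simp only [fnF, mul_pow, fn_six k, Odd.neg_pow (by decide : Odd 3), e]
  ring

theorem fnD_pow (k : n ≠ 0) (j : ℤ) (u : ℂ × ℂ) : (fnD n j u).1 ^ n = u.1 ^ n := by
  rw [fnD, mul_pow, ← neg_div, fn_six k, show -(6 * (j * tpi)) = ((-(6 * j) : ℤ) : ℂ) * tpi by
    push_cast; ring, fn_tpi, one_mul]

theorem fnD_eq (k : n ≠ 0) (j : ℤ) (u : ℂ × ℂ) : fnF n (fnD n j u) = fnF n u := by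
  unfold fnF
  rw [fnD_pow k]
  refine Prod.ext ?_ (Prod.ext ?_ ?_)
  · rw [← fn_add (3 * u.2 + _) (3 * j)]; simp only [fnD]; congr 1; push_cast; ring
  · rw [← fn_add (2 * u.2) (2 * j)]; simp only [fnD]; congr 2; push_cast; ring
  · simp only [fnD]
    rw [mul_comm _ u.1, mul_assoc, ← exp_add]; congr 2; ring

theorem fnP_pow (hn : (n : ℤ) = 6 * σ + ε) (hε : ε = 1 ∨ ε = -1) (k : n ≠ 0) {u : ℂ × ℂ} :
    (fnP n σ ε u).1 ^ n = -exp (-u.1) := by
  have e : (n : ℂ) = 6 * σ + ε := by exact_mod_cast hn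
  have e2 : (ε : ℂ) ^ 2 = 1 := by rcases hε with rfl | rfl <;> simp
  rw [fnP, ← exp_nat_mul, mul_sub, mul_div_cancel₀ _ (Nat.cast_ne_zero.2 k), ← exp_add_pi_mul_I,
    ← fn_add (-u.1 + _) (-3), e]
  congr 1
  simp only [fnW, fnZ, tpi]
  push_cast
  linear_combination (6 * u.2 - u.1 - 3 * log (1 + exp (-u.1)) + Real.pi * I) * e2

theorem fnP_cont : ContinuousOn (fnP n σ ε) pR := by
  have : ContinuousOn (fun u : ℂ × ℂ => log (1 + exp (-u.1))) pR :=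
    ContinuousOn.clog (by fun_prop) fun _ hu => pR_slit hu
  unfold fnP fnW fnZ
  fun_prop

theorem fnP_eq (hn : (n : ℤ) = 6 * σ + ε) (hε : ε = 1 ∨ ε = -1) (k : n ≠ 0) {u : ℂ × ℂ}
    (hu : u ∈ pR) : pG σ ε u = fnF n (fnP n σ ε u) := by
  have l := exp_log (slitPlane_ne_zero (pR_slit hu))
  unfold fnF
  rw [fnP_pow hn hε k, sub_neg_eq_add]
  simp only [fnP, fnW]
  set Λ := log (1 + exp (-u.1)) with hΛ
  have a : 1 + exp u.1 = exp u.1 * exp Λ := by rw [l, mul_add, ← exp_add]; simp [add_comm]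
  have t : -exp u.1 / (1 + exp u.1) = -exp (-Λ) := by
    rw [a, exp_neg]; field_simp
  have z : (-((exp (3 * u.2) * -exp (-Λ)) ^ 2 + (exp (2 * u.2) * -exp (-Λ)) ^ 3)) ^ ε =
      exp (fnZ ε u) := by
    rw [fnZ, exp_int_mul, ← hΛ, exp_add_pi_mul_I]
    congr 2
    have b : exp (6 * u.2 - u.1 - 3 * Λ) = exp u.2 ^ 6 * exp (-u.1) * exp (-Λ) ^ 3 := by
      rw [← exp_nat_mul, ← exp_nat_mul, ← exp_add, ← exp_add]; congr 1; push_cast; ring
    have b3 : exp (3 * u.2) = exp u.2 ^ 3 := exp_nat_mul _ 3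
    have b2 : exp (2 * u.2) = exp u.2 ^ 2 := exp_nat_mul _ 2
    have b1 : exp Λ * exp (-Λ) = 1 := by rw [← exp_add]; simp
    rw [b, b3, b2]
    linear_combination (exp u.2 ^ 6 * exp (-Λ) ^ 3) * l - exp u.2 ^ 6 * exp (-Λ) ^ 2 * b1
  rw [pG, t, pI, z]
  refine Prod.ext ?_ (Prod.ext ?_ ?_)
  · simp only
    rw [← exp_add_pi_mul_I, ← exp_nat_mul, ← exp_add, ← exp_add, ← fn_add _ 1]
    congr 1; simp only [tpi]; push_cast; ring
  · simp only
    rw [mul_neg, neg_mul, ← exp_nat_mul, ← exp_add, ← exp_add, ← fn_add _ 1]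
    congr 2; simp only [tpi]; push_cast; ring
  · simp only
    rw [← exp_add]; congr 1; ring

theorem fnP_v (w v : ℂ) : fnP n σ ε (w, v + tpi) = fnD n (6 * (ε * σ) + 1) (fnP n σ ε (w, v)) := by
  have e : fnW σ ε (w, v + tpi) = fnW σ ε (w, v) + ((6 * (ε * σ) + 1 : ℤ) : ℂ) * tpi := by
    simp only [fnW, fnZ]; push_cast; ring
  refine Prod.ext ?_ e
  simp only [fnP, fnD]
  rw [e, ← exp_add, ← fn_add (_ + (fnZ ε (w, v) - _)) (6 * ε)]
  congr 1; simp only [fnZ]; push_cast; ring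

theorem fnP_w (w v : ℂ) : fnP n σ ε (w + tpi, v) = fnD n (-(ε * σ)) (fnP n σ ε (w, v)) := by
  have x : exp (-(w + tpi)) = exp (-w) := by
    rw [← fn_add (-w) (-1)]; congr 1; push_cast; ring
  have e : fnW σ ε (w + tpi, v) = fnW σ ε (w, v) + ((-(ε * σ) : ℤ) : ℂ) * tpi := by
    simp only [fnW, fnZ, x]; push_cast; ring
  refine Prod.ext ?_ e
  simp only [fnP, fnD]
  rw [e, ← exp_add, ← fn_add (_ + (fnZ ε (w, v) - _)) (-ε)]
  congr 1; simp only [fnZ, x]; push_cast; ring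

/-- The lift of a real point with `y < 0`. -/
def fnL (n : ℕ) (j : ℤ) (a : ℂ × ℂ × ℂ) : ℂ × ℂ :=
  (a.2.2 * exp (-(6 * ((Real.log (-a.2.1.re) / 2 : ℝ) + j * Real.pi * I) / n)),
    (Real.log (-a.2.1.re) / 2 : ℝ) + j * Real.pi * I)

theorem fnL_eq {u : ℂ × ℂ} {j : ℤ} (e : u.2.im = j * Real.pi) :
    (fnF n u).2.1.re < 0 ∧ fnL n j (fnF n u) = u := by
  have a : u.2 = u.2.re + j * Real.pi * I := Complex.ext (by simp) (by simp [e])
  have b : (fnF n u).2.1.re = -Real.exp (2 * u.2.re) := by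
    have : exp (2 * u.2) = (Real.exp (2 * u.2.re) : ℝ) := by
      rw [ofReal_exp, ← fn_add (_ : ℝ) j]; congr 1
      simp only [tpi]; push_cast; linear_combination 2 * a
    rw [fnF, neg_re, this, ofReal_re]
  refine ⟨b ▸ neg_neg_of_pos (Real.exp_pos _), ?_⟩
  have d : ((Real.log (-(fnF n u).2.1.re) / 2 : ℝ) : ℂ) + j * Real.pi * I = u.2 := by
    rw [b, neg_neg, Real.log_exp, mul_div_cancel_left₀ _ two_ne_zero, ← a]
  rw [fnL, d]
  refine Prod.ext ?_ rfl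
  simp only [fnF]
  rw [mul_assoc, ← exp_add]; simp

theorem fnL_real (k : n ≠ 0) (j : ℤ) {a : ℂ × ℂ × ℂ} (m : a ∈ Cn n) (r : star a = a)
    (x : a.1 ≠ 0) (y : a.2.1.re < 0) : fnL n j a ∈ fnS n ∧ a.1 ^ 2 = (fnF n (fnL n j a)).1 ^ 2 ∧
      a.2 = (fnF n (fnL n j a)).2 := by
  have rx : (a.1.re : ℂ) = a.1 := conj_eq_iff_re.1 (congrArg Prod.fst r)
  have ry : (a.2.1.re : ℂ) = a.2.1 := conj_eq_iff_re.1 (congrArg (fun a => a.2.1) r)
  have e2 : exp (2 * (fnL n j a).2) = -a.2.1 := by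
    rw [← ry, ← ofReal_neg, ← Real.exp_log (neg_pos.2 y), ofReal_exp, ← fn_add (_ : ℝ) j]
    congr 1; simp only [fnL, tpi]; push_cast; ring
  have e6 : exp (6 * (fnL n j a).2) = -a.2.1 ^ 3 := by
    rw [← Odd.neg_pow (by decide), ← e2, ← exp_nat_mul]; congr 1; push_cast; ring
  have z : (fnL n j a).1 * exp (6 * (fnL n j a).2 / n) = a.2.2 := by
    simp only [fnL]; rw [mul_assoc, ← exp_add]; simp
  have p : exp (6 * (fnL n j a).2) * (1 - (fnL n j a).1 ^ n) = a.1 ^ 2 := by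
    have := congrArg (· ^ n) z
    simp only [mul_pow, fn_six k] at this
    linear_combination e6 - this - m.1
  have s : fnL n j a ∈ fnS n := by
    have y0 : a.2.1 ≠ 0 := fun e => by simp [e] at y
    have : 1 - (fnL n j a).1 ^ n = ((a.1.re ^ 2 / (-a.2.1.re) ^ 3 : ℝ) : ℂ) := by
      push_cast
      rw [rx, ry, ← p, e6]; field_simp
    rw [fnS, mem_setOf_eq, this, ofReal_mem_slitPlane]
    have : a.1.re ≠ 0 := fun e => x (by rw [← rx, e]; simp)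
    have := neg_pos.2 y
    positivity
  refine ⟨s, by rw [fn_sq s, p], Prod.ext ?_ z.symm⟩
  simp only [fnF]; rw [e2, neg_neg]

theorem fn_im {r q : ℝ} {j m : ℤ} (k : (log (1 + exp (-(st r j q m).1))).im = 0) :
    (fnP n σ ε (st r j q m)).2.im = ((m + 1 + ε * σ * (6 * m - j + 1) : ℤ) : ℝ) * Real.pi := by
  simp only [fnP, fnW, fnZ, add_im, sub_im, mul_im, div_ofNat_im, k]
  simp [st]; ring

theorem passn (hn : (n : ℤ) = 6 * σ + ε) (hε : ε = 1 ∨ ε = -1) (C : Cls (Cn n) o c)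
    (S : Sys c σ ε ρ ρ' l μ h) : μ ^ (6 * (ε * σ) + 1) = h ^ (ε * σ) ∧
    ∀ (γ : ℝ → ℂ × ℂ × ℂ) (a b r q r' q' : ℝ) (m : ℤ), RP n γ a b →
      (∀ t ∈ uIcc a b, (γ t).1 ≠ 0 ∧ (γ t).2.1 ≠ 0) → 0 < r' → γ a = pG σ ε (st r 0 q m) →
      γ b = pG σ ε (st r' 1 q' (m + ε * σ)) →
      c γ a b = (ρ' (st r 0 q m))⁻¹ * μ ^ (-(3 * (ε * σ))) * ρ' (st r' 1 q' (m + ε * σ)) := by
  have k : n ≠ 0 := by omega
  obtain ⟨η₀, P₀⟩ := C.pot _ 0 _ (fn_zero k) fn_star fn_cont (fn_maps k)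
  have mp : MapsTo (fnP n σ ε) pR (fnS n) := fun u hu => by
    rw [fnS, mem_setOf_eq, fnP_pow hn hε k, sub_neg_eq_add]; exact pR_slit hu
  have one : ((1 : ℂ), (0 : ℂ)) ∈ pR := Or.inl (by simp)
  have U := S.potR.uniq (P₀.comp fnP_cont mp fun u hu => fnP_eq hn hε k hu) star_pR one
  obtain ⟨η, P, U⟩ : ∃ η, Pot c (fnF n) (fnS n) η ∧ ∀ u ∈ pR, ρ' u = η (fnP n σ ε u) :=
    ⟨_, P₀.mul _, U⟩
  obtain ⟨d, D⟩ := fn_deck P fn_star (fn_zero k) (D := fnD n) (by unfold fnD; fun_prop)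
    (fun j u hu => by rw [fnS, mem_setOf_eq, fnD_pow k]; exact hu) (fnD_eq k 1)
    (fun j u => Prod.ext (by
      simp only [fnD]; rw [← mul_assoc (exp _), ← exp_add]; congr 2; push_cast; ring) (by
      simp only [fnD]; push_cast; ring)) (fun u => by simp [fnD])
  have eh : h = d ^ (6 * (ε * σ) + 1) := by
    have := S.hR 1 0 one
    rw [U _ (Or.inl (by simp)), U _ one, fnP_v, D _ _ (mp one)] at this
    exact (mul_right_cancel this).symm
  have eμ : μ = d ^ (ε * σ) := by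
    have := S.dR 1 0 (by simp)
    rw [U _ (Or.inl (by simp [tpi])), U _ one, fnP_w, D _ _ (mp one), zpow_neg] at this
    exact inv_injective (mul_right_cancel this).symm
  refine ⟨by rw [eh, eμ, ← zpow_mul, ← zpow_mul, mul_comm], ?_⟩
  intro γ a b r q r' q' m R ne hr ea eb
  have ma : st r 0 q m ∈ pR := Or.inr (by simp [st, Real.pi_pos])
  have mb : st r' 1 q' (m + ε * σ) ∈ pR := Or.inl (by simpa [st] using hr)
  have ia := fn_im (n := n) (σ := σ) (ε := ε) (r := r) (q := q) (j := 0) (m := m) (by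
    have : 1 + exp (-(st r 0 q m).1) = ((1 + Real.exp (-r) : ℝ) : ℂ) := by simp [st]
    rw [this, log_im, arg_ofReal_of_nonneg (by positivity)])
  have ib := fn_im (n := n) (σ := σ) (ε := ε) (r := r') (q := q') (j := 1) (m := m + ε * σ) (by
    have : 1 + exp (-(st r' 1 q' (m + ε * σ)).1) = ((1 - Real.exp (-r') : ℝ) : ℂ) := by
      simp [st, exp_add, exp_neg, sub_eq_add_neg]
    rw [this, log_im, arg_ofReal_of_nonneg (sub_nonneg.2 (Real.exp_le_one_iff.2 (by linarith)))])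
  rw [fnP_eq hn hε k ma] at ea
  rw [fnP_eq hn hε k mb] at eb
  obtain ⟨ya, la⟩ := fnL_eq (n := n) ia
  obtain ⟨-, lb⟩ := fnL_eq (n := n) ib
  rw [← ea] at ya la
  rw [← eb] at lb
  set j := m + 1 + ε * σ * (6 * m - 0 + 1) with hj
  have cy : ContinuousOn (fun t => (γ t).2.1.re) (uIcc a b) := by have := R.1; fun_prop
  have y0 : ∀ t ∈ uIcc a b, (γ t).2.1.re ≠ 0 := fun t ht e => (ne t ht).2 (by
    rw [← conj_eq_iff_re.1 (congrArg (fun a => a.2.1) (R.2 t ht).2), e]; simp)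
  have y : ∀ t ∈ uIcc a b, (γ t).2.1.re < 0 := fun t ht => by
    by_contra g
    obtain ⟨s, hs, e⟩ := isPreconnected_uIcc.intermediate_value left_mem_uIcc ht cy
      ⟨ya.le, not_lt.1 g⟩
    exact y0 s hs e
  have L := fun t ht => fnL_real k j (R.2 t ht).1 (R.2 t ht).2 (ne t ht).1 (y t ht)
  have cu : ContinuousOn (fun t => fnL n j (γ t)) (uIcc a b) := by
    have : ContinuousOn (fun t => Real.log (-(γ t).2.1.re)) (uIcc a b) :=
      cy.neg.log fun t ht => neg_ne_zero.2 (y0 t ht)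
    have := R.1
    unfold fnL
    fun_prop
  have x := isPreconnected_uIcc.eq_of_sq_eq R.1.fst (fn_cont.comp cu fun t ht => (L t ht).1).fst
    (fun t ht => (L t ht).2.1) (fun _ => exp_ne_zero _) left_mem_uIcc (by
      simp only [Function.comp]; rw [la, ← ea])
  have E := P γ _ a b cu (fun t ht => (L t ht).1) fun t ht => Prod.ext (x ht) (L t ht).2.2
  have f : fnP n σ ε (st r' 1 q' (m + ε * σ)) = fnD n (3 * (ε * σ) ^ 2) (fnL n j (γ b)) := by
    rw [← lb]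
    refine Prod.ext ?_ ?_
    · simp only [fnL, fnD]
      rw [mul_comm (exp _), mul_assoc _ (exp _), ← exp_add]; congr 2
      simp only [hj, tpi]; push_cast; ring
    · simp only [fnL, fnD, hj, tpi]; push_cast; ring
  rw [E, U _ ma, U _ mb, f, D _ _ (L b right_mem_uIcc).1, la, eμ]
  group

end Pool.Agent.Lib.MP_b2e238_gt
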