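import Pool.Agent.Lib.MP_b2e238_gt.P.Defs
import Pool.Agent.Lib.MP_b2e238_gt.K.Mat

/-! The angle parameter on the real circle. -/

open scoped Topology ContDiff
open Set Complex

noncomputable section

namespace Pool.Agent.Lib.MP_b2e238_gt

variable {n : ℕ}

theorem kp_real {a : ℂ × ℂ × ℂ} (r : star a = a) : ∃ x y z : ℝ, a = ((x : ℂ), (y : ℂ), (z : ℂ)) := by
  obtain ⟨x, hx⟩ := conj_eq_iff_real.1 (congrArg Prod.fst r)
  obtain ⟨y, hy⟩ := conj_eq_iff_real.1 (congrArg (fun u => u.2.1) r)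
  obtain ⟨z, hz⟩ := conj_eq_iff_real.1 (congrArg (fun u => u.2.2) r)
  exact ⟨x, y, z, Prod.ext hx (Prod.ext hy hz)⟩

theorem kp_pA (n : ℕ) (x y z : ℝ) : pA n ((x : ℂ), (y : ℂ), (z : ℂ)) =
    (((y ^ 3 - z ^ n) / 2 : ℝ) : ℂ) + ((x * |x| : ℝ) : ℂ) * I := by
  simp only [pA, norm_real, Real.norm_eq_abs]
  push_cast
  ring

theorem kp_eq {x y z : ℝ} (m : ((x : ℂ), (y : ℂ), (z : ℂ)) ∈ Cn n) : x ^ 2 + y ^ 3 + z ^ n = 0 := by
  have k : (x : ℂ) ^ 2 + (y : ℂ) ^ 3 + (z : ℂ) ^ n = 0 := m.1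
  exact_mod_cast k

theorem kp_abs {u v : ℝ} (h : u * |u| = v * |v|) : u = v := by
  have k : |u| * |u| = |v| * |v| := by
    have := congrArg abs h
    simpa only [abs_mul, abs_abs] using this
  have e : |u| = |v| := (mul_self_inj_of_nonneg (abs_nonneg u) (abs_nonneg v)).1 k
  by_cases z : |v| = 0
  · rw [abs_eq_zero.1 z, abs_eq_zero.1 (e.trans z)]
  · exact mul_right_cancel₀ z (e ▸ h)

theorem kp_ne {a : ℂ × ℂ × ℂ} (m : a ∈ Cn n) (r : star a = a) : pA n a ≠ 0 := fun e => by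
  obtain ⟨x, y, z, rfl⟩ := kp_real r
  have k := kp_eq m
  rw [kp_pA] at e
  have e1 := congrArg re e
  have e2 := congrArg im e
  simp only [add_re, ofReal_re, mul_re, I_re, mul_zero, ofReal_im, I_im, mul_one, sub_self,
    add_zero, zero_re, add_im, mul_im, zero_add, zero_im] at e1 e2
  have hx : x = 0 := kp_abs (by simpa using e2)
  have hy : y ^ 3 = 0 := by rw [hx] at k; linarith
  have hz : z ^ n = 0 := by rw [hx] at k; linarith
  exact m.2 (by rw [hx, pow_eq_zero_iff (by norm_num) |>.1 hy, eq_zero_of_pow_eq_zero hz]; simp)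

theorem kp_cont (n : ℕ) : Continuous (pA n) := by
  unfold pA
  fun_prop

theorem pA_ray (hn : Odd n) {a a' : ℂ × ℂ × ℂ} (m : a ∈ Cn n) (m' : a' ∈ Cn n) (r : star a = a)
    (r' : star a' = a') {R : ℝ} (hR : 0 < R) (e : pA n a' = R * pA n a) :
    ∃ s : ℝ, a' = scl n s a := by
  obtain ⟨x, y, z, rfl⟩ := kp_real r
  obtain ⟨x', y', z', rfl⟩ := kp_real r'
  have k := kp_eq m
  have k' := kp_eq m'
  rw [kp_pA, kp_pA] at e
  have e1 := congrArg re e
  have e2 := congrArg im e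
  simp only [add_re, ofReal_re, mul_re, I_re, mul_zero, ofReal_im, I_im, mul_one, sub_self,
    add_zero, add_im, mul_im, zero_add, zero_mul, sub_zero] at e1 e2
  have n0 : (n : ℝ) ≠ 0 := Nat.cast_ne_zero.2 hn.pos.ne'
  have p : ∀ (j : ℕ) (c : ℝ), j * c = 6 → Real.exp (c * (Real.log R / 6)) ^ j = R := fun j c h => by
    rw [← Real.exp_nat_mul, ← mul_assoc, h, mul_div_cancel₀ _ (by norm_num), Real.exp_log hR]
  have p1 := p 2 3 (by norm_num)
  have p2 := p 3 2 (by norm_num)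
  have p3 := p n (6 / n) (by field_simp)
  have hx : x' = Real.exp (3 * (Real.log R / 6)) * x := kp_abs (by
    rw [e2, abs_mul, Real.abs_exp]
    linear_combination (-(x * |x|)) * p1)
  have hx2 : x' ^ 2 = R * x ^ 2 := by rw [hx, mul_pow, p1]
  have hy : y' = Real.exp (2 * (Real.log R / 6)) * y :=
    (Odd.strictMono_pow (n := 3) (by decide)).injective (by
      simp only [mul_pow, p2]
      linear_combination e1 + (1 / 2) * k' - (R / 2) * k - (1 / 2) * hx2)
  have hz : z' = Real.exp (6 / n * (Real.log R / 6)) * z :=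
    hn.strictMono_pow.injective (by
      simp only [mul_pow, p3]
      linear_combination -e1 + (1 / 2) * k' - (R / 2) * k - (1 / 2) * hx2)
  refine ⟨Real.log R / 6, ?_⟩
  simp only [scl, real_smul, ← ofReal_mul, ← hx, ← hy, ← hz]

/-- A continuous bijection of the line has a continuous inverse. -/
theorem kp_inv {φ : ℝ → ℝ} (c : Continuous φ) (b : Function.Bijective φ) :
    ∃ θ : ℝ → ℝ, Continuous θ ∧ (∀ t, θ (φ t) = t) ∧ ∀ s, φ (θ s) = s := by
  rcases c.strictMono_of_inj b.1 with h | h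
  · exact ⟨(h.orderIsoOfSurjective φ b.2).symm, OrderIso.continuous _,
      (h.orderIsoOfSurjective φ b.2).symm_apply_apply, (h.orderIsoOfSurjective φ b.2).apply_symm_apply⟩
  · have s : Function.Surjective fun t => -φ t := neg_surjective.comp b.2
    let E := h.neg.orderIsoOfSurjective _ s
    exact ⟨fun s => E.symm (-s), E.symm.continuous.comp continuous_neg,
      fun t => E.symm_apply_apply t, fun s => neg_injective (E.apply_symm_apply (-s))⟩

/-- The lift of an injective map of the circle is a bijection of degree `± 1`. -/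
theorem kp_deg {φ : ℝ → ℝ} {m : ℤ} (c : Continuous φ) (p : ∀ t, φ (t + 1) = φ t + m)
    (i : ∀ (t t' : ℝ) (j : ℤ), φ t' = φ t + j → ∃ j' : ℤ, t' = t + j') :
    (m = 1 ∨ m = -1) ∧ Function.Bijective φ ∧ ∀ (t : ℝ) (j : ℤ), φ (t + j) = φ t + m * j := by
  have q : ∀ (t : ℝ) (j : ℤ), φ (t + j) = φ t + m * j := fun t j => by
    have g : Function.Periodic (fun t => φ t - m * t) 1 := fun t => by simp only [p]; ring
    have := g.int_mul j t
    simp only [mul_one] at this
    linear_combination this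
  have m0 : m ≠ 0 := fun m0 => by
    have h2 : φ (1 / 2) ≠ φ 0 := fun e => by
      obtain ⟨j, hj⟩ := i 0 (1 / 2) 0 (by simpa using e)
      have : (2 * j : ℤ) = 1 := by
        have : (2 * j : ℝ) = 1 := by linarith
        exact_mod_cast this
      omega
    have e1 : φ 1 = φ 0 := by simpa [m0] using p 0
    have mem : (φ 0 + φ (1 / 2)) / 2 ∈ uIcc (φ 0) (φ (1 / 2)) := by
      rw [mem_uIcc]
      rcases le_total (φ 0) (φ (1 / 2)) with h | h
      · exact Or.inl ⟨by linarith, by linarith⟩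
      · exact Or.inr ⟨by linarith, by linarith⟩
    obtain ⟨t, ht, et⟩ := intermediate_value_uIcc (a := 0) (b := 1 / 2) c.continuousOn mem
    obtain ⟨t', ht', et'⟩ := intermediate_value_uIcc (a := 1) (b := 1 / 2) c.continuousOn
      (show (φ 0 + φ (1 / 2)) / 2 ∈ uIcc (φ 1) (φ (1 / 2)) by rwa [e1])
    rw [uIcc_of_le (by norm_num)] at ht
    rw [uIcc_of_ge (by norm_num)] at ht'
    obtain ⟨j, hj⟩ := i t t' 0 (by simpa using et'.trans et.symm)
    have j0 : 0 ≤ j := by
      have : (0 : ℝ) ≤ j := by linarith [ht.2, ht'.1]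
      exact_mod_cast this
    have j1 : j ≤ 1 := by
      have : (j : ℝ) ≤ 1 := by linarith [ht.1, ht'.2]
      exact_mod_cast this
    obtain rfl | rfl : j = 0 ∨ j = 1 := by omega
    · obtain rfl : t = 1 / 2 := by push_cast at hj; linarith [ht.2, ht'.1]
      exact h2 (by linarith)
    · obtain rfl : t = 0 := by push_cast at hj; linarith [ht.1, ht'.2]
      exact h2 (by linarith)
  have s : Function.Surjective φ := fun y => by
    obtain ⟨j, hj⟩ := exists_nat_ge |y - φ 0|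
    have mm : (1 : ℝ) ≤ m * m := by
      have : 1 ≤ m * m := mul_self_pos.2 m0
      exact_mod_cast this
    have k1 := q 0 (m * j)
    have k2 := q 0 (-(m * j))
    have k3 : (j : ℝ) ≤ m * m * j := le_mul_of_one_le_left j.cast_nonneg mm
    refine intermediate_value_univ _ _ c (?_ : y ∈ Icc (φ (0 + (-(m * j) : ℤ))) (φ (0 + (m * j : ℤ))))
    rw [k1, k2]
    push_cast
    constructor <;> linarith [(abs_le.1 hj).1, (abs_le.1 hj).2]
  obtain ⟨t, ht⟩ := s (φ 0 + 1)
  obtain ⟨j, rfl⟩ := i 0 t 1 (by simpa using ht)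
  have mj : m * j = 1 := by
    have : (m * j : ℝ) = 1 := by linarith [q 0 j]
    exact_mod_cast this
  refine ⟨Int.eq_one_or_neg_one_of_mul_eq_one mj, ⟨fun t t' e => ?_, s⟩, q⟩
  obtain ⟨j', rfl⟩ := i t t' 0 (by simpa using e.symm)
  have : (m * j' : ℝ) = 0 := by linarith [q t j']
  rw [(mul_eq_zero.1 this).resolve_left (Int.cast_ne_zero.2 m0), add_zero]

theorem kpar (hn : Odd n) {k : ℝ → ℂ × ℂ × ℂ} (K : KP n k) :
    ∃ (θ : ℝ → ℝ) (e : ℤ), (e = 1 ∨ e = -1) ∧ Continuous θ ∧ Function.Bijective θ ∧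
      (∀ s, θ (s + 1) = θ s + e) ∧ ∀ s, ∃ R : ℝ, 0 < R ∧ pA n (k (θ s)) = R * ex s := by
  obtain ⟨m, L, c, e, p⟩ := exists_wn (a := fun t => pA n (k t)) ((kp_cont n).comp K.lp.1)
    (fun t => kp_ne (K.lp.2.1 t) (K.real t)) fun t => by rw [K.lp.2.2]
  have π0 : (2 * Real.pi) ≠ 0 := by positivity
  have pol : ∀ t, pA n (k t) = Real.exp (L t).re * ex ((L t).im / (2 * Real.pi)) := fun t => by
    rw [← show _ = pA n (k t) from e t, ex, ofReal_exp, ← exp_add]
    congr 1
    have : (2 * Real.pi : ℂ) * ((L t).im / (2 * Real.pi) : ℝ) = (L t).im := by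
      exact_mod_cast mul_div_cancel₀ _ π0
    rw [this, re_add_im]
  obtain ⟨hm, b, q⟩ := kp_deg (φ := fun t => (L t).im / (2 * Real.pi)) (m := m) (by fun_prop)
    (fun t => by simp only [p]; simp; field_simp) fun t t' j h => by
      have x : ex ((L t').im / (2 * Real.pi)) = ex ((L t).im / (2 * Real.pi)) := by
        rw [h, ex, ex, exp_eq_exp_iff_exists_int]
        exact ⟨j, by push_cast; ring⟩
      obtain ⟨s, hs⟩ := pA_ray hn (K.lp.2.1 t) (K.lp.2.1 t') (K.real t) (K.real t')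
        (Real.exp_pos ((L t').re - (L t).re)) (by
          rw [pol, pol, x, ← mul_assoc, ← ofReal_mul, ← Real.exp_add, sub_add_cancel])
      exact K.inj t t' s hs
  obtain ⟨θ, cθ, l, r⟩ := kp_inv (φ := fun t => (L t).im / (2 * Real.pi)) (by fun_prop) b
  refine ⟨θ, m, hm, cθ, ⟨fun s s' h => by rw [← r s, h, r], fun t => ⟨_, l t⟩⟩, fun s => b.1 ?_,
    fun s => ⟨_, Real.exp_pos _, by rw [pol, r]⟩⟩
  have mm : (m : ℝ) * m = 1 := by rcases hm with h | h <;> simp [h]
  exact (r (s + 1)).trans ((q (θ s) m).trans (by rw [r, mm])).symm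

end Pool.Agent.Lib.MP_b2e238_gt
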