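import Pool.Agent.Lib.MP_b2e238_gt.P.F3
import Pool.Agent.Lib.MP_b2e238_gt.P.F2
import Pool.Agent.Lib.MP_b2e238_gt.P.Fn
import Pool.Agent.Lib.MP_b2e238_gt.P.Kp

/-! The word of the real circle. -/

open scoped Topology ContDiff
open Set Complex

noncomputable section

namespace Pool.Agent.Lib.MP_b2e238_gt

variable {Γ : Type} [Group Γ]

variable {n σ : ℕ} {ε : ℤ} {o : ℂ × ℂ × ℂ} {c : (ℝ → ℂ × ℂ × ℂ) → ℝ → ℝ → Γ} {ρ ρ' : ℂ × ℂ → Γ}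
  {l μ h : Γ}

theorem pKt_c0 {t : ℝ} (k : |t| ≤ 1 / 4) : 0 ≤ Real.cos (2 * Real.pi * t) := by
  have := Real.pi_pos
  obtain ⟨a, b⟩ := abs_le.1 k
  exact Real.cos_nonneg_of_neg_pi_div_two_le_of_le (by nlinarith) (by nlinarith)

theorem pKt_c1 {t : ℝ} (k : |t| ≤ 1 / 6) : 1 / 2 ≤ Real.cos (2 * Real.pi * t) := by
  have := Real.pi_pos
  rw [← Real.cos_abs, ← Real.cos_pi_div_three, abs_mul, abs_of_pos (by positivity)]
  exact Real.cos_le_cos_of_nonneg_of_le_pi (by positivity) (by linarith) (by nlinarith)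

theorem pKt_s0 {t : ℝ} (a : 0 < t) (b : t < 1 / 2) : 0 < Real.sin (2 * Real.pi * t) := by
  have := Real.pi_pos
  exact Real.sin_pos_of_pos_of_lt_pi (by positivity) (by nlinarith)

theorem pKt_half (t : ℝ) : Real.cos (2 * Real.pi * (t - 1 / 2)) = -Real.cos (2 * Real.pi * t) ∧
    Real.sin (2 * Real.pi * (t - 1 / 2)) = -Real.sin (2 * Real.pi * t) := by
  rw [show 2 * Real.pi * (t - 1 / 2) = 2 * Real.pi * t - Real.pi by ring, Real.cos_sub_pi,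
    Real.sin_sub_pi]
  exact ⟨rfl, rfl⟩

theorem pKt_one (t : ℝ) : Real.cos (2 * Real.pi * (t - 1)) = Real.cos (2 * Real.pi * t) := by
  rw [show 2 * Real.pi * (t - 1) = 2 * Real.pi * t - 2 * Real.pi by ring, Real.cos_sub_two_pi]

theorem pKt_p0 {C S : ℝ} (e : S ^ 2 + C ^ 2 = 1) (p : 0 ≤ S) (k : 0 ≤ C) : 0 < C + S / 2 := by
  by_contra q
  obtain rfl : C = 0 := by linarith
  obtain rfl : S = 0 := by linarith
  norm_num at e

theorem pKt_p1 {C S : ℝ} (e : S ^ 2 + C ^ 2 = 1) (k : 1 / 2 ≤ C) : 0 < C - S / 2 := by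
  by_contra q
  nlinarith

/-- The signs of the coordinates of a real point with a given angle. -/
theorem pKt_sign (hn : Odd n) {a : ℂ × ℂ × ℂ} (m : a ∈ Cn n) (r : star a = a) {R s : ℝ}
    (hR : 0 < R) (e : pA n a = R * ex s) :
    ∃ x y z : ℝ, a = ((x : ℂ), (y : ℂ), (z : ℂ)) ∧ x ^ 2 + y ^ 3 + z ^ n = 0 ∧
      (0 < s → s < 1 / 2 → 0 < x) ∧ (1 / 2 < s → s < 1 → x < 0) ∧
      (|s| ≤ 1 / 6 ∨ |s - 1| ≤ 1 / 6 → 0 < y) ∧ (|s - 1 / 2| ≤ 1 / 4 → y < 0) ∧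
      (|s - 1 / 2| ≤ 1 / 6 → 0 < z) ∧ (|s| ≤ 1 / 4 ∨ |s - 1| ≤ 1 / 4 → z < 0) := by
  obtain ⟨a1, a2, a3⟩ := a
  have r1 : (starRingEnd ℂ) a1 = a1 := congrArg (fun u => u.1) r
  have r2 : (starRingEnd ℂ) a2 = a2 := congrArg (fun u => u.2.1) r
  have r3 : (starRingEnd ℂ) a3 = a3 := congrArg (fun u => u.2.2) r
  obtain ⟨x, rfl⟩ := conj_eq_iff_real.1 r1
  obtain ⟨y, rfl⟩ := conj_eq_iff_real.1 r2
  obtain ⟨z, rfl⟩ := conj_eq_iff_real.1 r3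
  have q : x ^ 2 + y ^ 3 + z ^ n = 0 := by
    have : (x : ℂ) ^ 2 + (y : ℂ) ^ 3 + (z : ℂ) ^ n = 0 := m.1
    exact_mod_cast this
  have e' : (((y ^ 3 - z ^ n) / 2 : ℝ) : ℂ) + ((x * |x| : ℝ) : ℂ) * I =
      ((R * Real.cos (2 * Real.pi * s) : ℝ) : ℂ) +
        ((R * Real.sin (2 * Real.pi * s) : ℝ) : ℂ) * I := by
    simp only [pA, ex, exp_mul_I, norm_real, Real.norm_eq_abs] at e
    push_cast
    linear_combination e
  have ec : (y ^ 3 - z ^ n) / 2 = R * Real.cos (2 * Real.pi * s) := by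
    simpa only [add_re, mul_re, ofReal_re, ofReal_im, I_re, I_im, mul_zero, zero_mul, sub_zero,
      add_zero] using congrArg re e'
  have es : x * |x| = R * Real.sin (2 * Real.pi * s) := by
    simpa only [add_im, mul_im, ofReal_re, ofReal_im, I_re, I_im, mul_zero, zero_mul, mul_one,
      add_zero, zero_add] using congrArg im e'
  have e2 : x ^ 2 = R * |Real.sin (2 * Real.pi * s)| := by
    have := congrArg abs es
    rwa [abs_mul, abs_abs, abs_mul_abs_self, abs_mul, abs_of_pos hR, ← sq] at this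
  obtain ⟨h1, h2⟩ := pKt_half s
  have h3 := pKt_one s
  have sc := Real.sin_sq_add_cos_sq (2 * Real.pi * s)
  rw [← sq_abs (Real.sin _)] at sc
  have p0 := abs_nonneg (Real.sin (2 * Real.pi * s))
  have ey : y ^ 3 = R * (Real.cos (2 * Real.pi * s) - |Real.sin (2 * Real.pi * s)| / 2) := by
    linarith
  have ez : z ^ n = -(R * (Real.cos (2 * Real.pi * s) + |Real.sin (2 * Real.pi * s)| / 2)) := by
    linarith
  have o3 : Odd 3 := by decide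
  refine ⟨x, y, z, rfl, q, fun a b => ?_, fun a b => ?_, fun a => ?_, fun a => ?_, fun a => ?_,
    fun a => ?_⟩
  · have := mul_pos hR (pKt_s0 a b)
    by_contra k
    have := mul_nonpos_of_nonpos_of_nonneg (not_lt.1 k) (abs_nonneg x)
    linarith
  · have := mul_pos hR (h2 ▸ pKt_s0 (t := s - 1 / 2) (by linarith) (by linarith))
    by_contra k
    have := mul_nonneg (not_lt.1 k) (abs_nonneg x)
    linarith
  · rw [← o3.pow_pos_iff, ey]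
    exact mul_pos hR (pKt_p1 sc (a.elim pKt_c1 fun a => h3 ▸ pKt_c1 a))
  · have := pKt_p0 (C := -Real.cos (2 * Real.pi * s)) (by rwa [neg_sq]) p0 (h1 ▸ pKt_c0 a)
    rw [← o3.pow_neg_iff, ey]
    exact mul_neg_of_pos_of_neg hR (by linarith)
  · have := pKt_p1 (C := -Real.cos (2 * Real.pi * s)) (by rwa [neg_sq] : |Real.sin _| ^ 2 + _ = 1)
      (h1 ▸ pKt_c1 a)
    rw [← hn.pow_pos_iff, ez, neg_pos]
    exact mul_neg_of_pos_of_neg hR (by linarith)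
  · rw [← hn.pow_neg_iff, ez, neg_lt_zero]
    exact mul_pos hR (pKt_p0 sc p0 (a.elim pKt_c0 fun a => h3 ▸ pKt_c0 a))

theorem pKt_exp {t : ℝ} {j : ℤ} (k : (Even j ∧ 0 < t) ∨ (Odd j ∧ t < 0)) :
    exp (Real.log |t| + j * Real.pi * I) = t := by
  have t0 : 0 < |t| := abs_pos.2 (k.elim (fun k => k.2.ne') fun k => k.2.ne)
  rw [exp_add, ← ofReal_exp, Real.exp_log t0, mul_assoc, exp_int_mul, exp_pi_mul_I]
  rcases k with ⟨a, b⟩ | ⟨a, b⟩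
  · rw [a.neg_one_zpow, abs_of_pos b, mul_one]
  · rw [a.neg_one_zpow, abs_of_neg b]
    simp

/-- How to recognise a real point of the regular part. -/
theorem pKt_pt (hn : (n : ℤ) = 6 * σ + ε) (hε : ε = 1 ∨ ε = -1) {a : ℂ × ℂ × ℂ} (m : a ∈ Cn n)
    {x y z : ℝ} (e : a = ((x : ℂ), (y : ℂ), (z : ℂ))) (hz : z ≠ 0) {j i : ℤ}
    (hj : (Even j ∧ 0 < y ^ 3 / z ^ n) ∨ (Odd j ∧ y ^ 3 / z ^ n < 0))
    (hi : (Even i ∧ 0 < x / (y * z ^ σ)) ∨ (Odd i ∧ x / (y * z ^ σ) < 0)) :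
    1 + exp (st (Real.log |y ^ 3 / z ^ n|) j (Real.log |x / (y * z ^ σ)|) i).1 ≠ 0 ∧
      a = pG σ ε (st (Real.log |y ^ 3 / z ^ n|) j (Real.log |x / (y * z ^ σ)|) i) := by
  subst e
  refine pG_eq hn hε m (ofReal_ne_zero.2 hz) ((pKt_exp hj).trans ?_) ((pKt_exp hi).trans ?_)
  · push_cast
    rfl
  · push_cast
    rfl

theorem pKt_sg {x y z : ℝ} {i : ℤ} (hz : z < 0)
    (k : (Even (i + σ) ∧ 0 < x / y) ∨ (Odd (i + σ) ∧ x / y < 0)) :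
    (Even i ∧ 0 < x / (y * z ^ σ)) ∨ (Odd i ∧ x / (y * z ^ σ) < 0) := by
  rw [← div_div]
  rcases Nat.even_or_odd σ with p | p
  · have z0 := p.pow_pos hz.ne
    rw [← Int.even_coe_nat, Int.even_iff] at p
    rcases k with ⟨a, b⟩ | ⟨a, b⟩
    · exact .inl ⟨by rw [Int.even_iff] at *; omega, div_pos b z0⟩
    · exact .inr ⟨by rw [Int.odd_iff] at *; omega, div_neg_of_neg_of_pos b z0⟩
  · have z0 := p.pow_neg hz
    rw [← Int.odd_coe_nat, Int.odd_iff] at p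
    rcases k with ⟨a, b⟩ | ⟨a, b⟩
    · exact .inr ⟨by rw [Int.even_iff] at a; rw [Int.odd_iff]; omega, div_neg_of_pos_of_neg b z0⟩
    · exact .inl ⟨by rw [Int.odd_iff] at a; rw [Int.even_iff]; omega, div_pos_of_neg_of_neg b z0⟩

section Pt
variable (hn : (n : ℤ) = 6 * σ + ε) (hε : ε = 1 ∨ ε = -1) (ho : Odd n) {a : ℂ × ℂ × ℂ}
  (m : a ∈ Cn n) {x y z : ℝ} (e : a = ((x : ℂ), (y : ℂ), (z : ℂ)))
  (q : x ^ 2 + y ^ 3 + z ^ n = 0) {i : ℤ}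
include hn hε ho m e

include q in
theorem pKt_L (hy : 0 < y) (hz : z < 0)
    (k : (Even (i + σ) ∧ 0 < x) ∨ (Odd (i + σ) ∧ x < 0)) :
    ∃ r t : ℝ, r < 0 ∧ 1 + exp (st r 1 t i).1 ≠ 0 ∧ a = pG σ ε (st r 1 t i) := by
  have z0 := ho.pow_neg hz
  have y0 := pow_pos hy 3
  have x0 : 0 < x ^ 2 := sq_pos_of_ne_zero (k.elim (fun k => k.2.ne') fun k => k.2.ne)
  have w := div_neg_of_pos_of_neg y0 z0
  refine ⟨_, _, Real.log_neg (abs_pos.2 w.ne) ?_, pKt_pt hn hε m e hz.ne (.inr ⟨odd_one, w⟩)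
    (pKt_sg hz (k.imp (fun k => ⟨k.1, div_pos k.2 hy⟩)
      fun k => ⟨k.1, div_neg_of_neg_of_pos k.2 hy⟩))⟩
  rw [abs_of_neg w, neg_lt, lt_div_iff_of_neg z0]
  linarith

theorem pKt_M (hy : y < 0) (hz : z < 0)
    (k : (Even (i + σ) ∧ x < 0) ∨ (Odd (i + σ) ∧ 0 < x)) :
    ∃ r t : ℝ, a = pG σ ε (st r 0 t i) :=
  ⟨_, _, (pKt_pt hn hε m e hz.ne
    (.inl ⟨Even.zero, div_pos_of_neg_of_neg (Odd.pow_neg (by decide) hy) (ho.pow_neg hz)⟩)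
    (pKt_sg hz (k.imp (fun k => ⟨k.1, div_pos_of_neg_of_neg k.2 hy⟩)
      fun k => ⟨k.1, div_neg_of_pos_of_neg k.2 hy⟩))).2⟩

omit ho in
include q in
theorem pKt_R (hy : y < 0) (hz : 0 < z) (k : (Even i ∧ x < 0) ∨ (Odd i ∧ 0 < x)) :
    ∃ r t : ℝ, 0 < r ∧ a = pG σ ε (st r 1 t i) := by
  have z0 := pow_pos hz n
  have y0 : y ^ 3 < 0 := Odd.pow_neg (by decide) hy
  have x0 : 0 < x ^ 2 := sq_pos_of_ne_zero (k.elim (fun k => k.2.ne) fun k => k.2.ne')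
  have w := div_neg_of_neg_of_pos y0 z0
  have v := mul_neg_of_neg_of_pos hy (pow_pos hz σ)
  refine ⟨_, _, Real.log_pos ?_, (pKt_pt hn hε m e hz.ne' (.inr ⟨odd_one, w⟩)
    (k.imp (fun k => ⟨k.1, div_pos_of_neg_of_neg k.2 v⟩)
      fun k => ⟨k.1, div_neg_of_pos_of_neg k.2 v⟩)).2⟩
  rw [abs_of_neg w, lt_neg, div_lt_iff₀ z0]
  linarith
end Pt

theorem pKt_two (r t : ℝ) (i : ℤ) :
    st r 1 t (i + 1 + 1) = ((st r 1 t i).1, (st r 1 t i).2 + tpi) := by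
  simp only [st, tpi]
  push_cast
  congr 1
  ring

theorem pKt_inv {A B : Γ} (k : Commute (B ^ 2) A) :
    IsConj (A⁻¹ * B⁻¹ * A * B) (A⁻¹ * B⁻¹ * A * B)⁻¹ := by
  refine isConj_iff.2 ⟨B, ?_⟩
  have : B * A⁻¹ * B⁻¹ = B⁻¹ * (B ^ 2 * A⁻¹) * B⁻¹ := by group
  rw [k.inv_right.eq] at this
  calc B * (A⁻¹ * B⁻¹ * A * B) * B⁻¹ = B * A⁻¹ * B⁻¹ * A := by group
    _ = _ := by rw [this]; group

/-- The word of the real circle in the angle parameter. -/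
theorem pKt_word (hn : (n : ℤ) = 6 * σ + ε) (hε : ε = 1 ∨ ε = -1) (ho : Odd n)
    (C : Cls (Cn n) o c) (S : Sys c σ ε ρ ρ' l μ h) {κ : ℝ → ℂ × ℂ × ℂ} (L : Lp (Cn n) κ)
    (re : ∀ s, star (κ s) = κ s) (A : ∀ s, ∃ R : ℝ, 0 < R ∧ pA n (κ s) = R * ex s) :
    JoinedIn (Cn n) (pG σ ε 0) (κ (1 / 6)) ∧ IsConj (c κ (1 / 6) (1 / 6 + 1))
      ((μ ^ (3 * (ε * σ)) * l)⁻¹ * (l * μ)⁻¹ * (μ ^ (3 * (ε * σ)) * l) * (l * μ)) := by
  have G := fun s => (A s).elim fun R k => pKt_sign ho (L.2.1 s) (re s) k.1 k.2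
  choose x y z e q xP xN yP yN zP zN using G
  have rp : ∀ a b, RP n κ a b := fun a b => ⟨L.1.continuousOn, fun t _ => ⟨L.2.1 t, re t⟩⟩
  have ex : ∀ t, x t ≠ 0 → (κ t).1 ≠ 0 := fun t k => by rw [e t]; exact ofReal_ne_zero.2 k
  have ey : ∀ t, y t ≠ 0 → (κ t).2.1 ≠ 0 := fun t k => by rw [e t]; exact ofReal_ne_zero.2 k
  have ez : ∀ t, z t ≠ 0 → (κ t).2.2 ≠ 0 := fun t k => by rw [e t]; exact ofReal_ne_zero.2 k
  have ab : ∀ u v : ℝ, -v ≤ u → u ≤ v → |u| ≤ v := fun u v a b => abs_le.2 ⟨a, b⟩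
  have ps : (ε * σ + σ) % 2 = 0 := by rcases hε with rfl | rfl <;> omega
  obtain ⟨l3, P3⟩ := pass3 hn hε C S
  obtain ⟨l2, P2⟩ := pass2 hn hε C S
  obtain ⟨ln, Pn⟩ := passn hn hε C S
  generalize ε * σ = s at *
  obtain ⟨r1, t1, n1, j1, e1⟩ := pKt_L hn hε ho (L.2.1 (1 / 6)) (e _) (q _) (i := s)
    (yP _ (.inl (ab _ _ (by norm_num) le_rfl))) (zN _ (.inl (ab _ _ (by norm_num) (by norm_num))))
    (.inl ⟨Int.even_iff.2 ps, xP _ (by norm_num) (by norm_num)⟩)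
  obtain ⟨r2, t2, e2⟩ := pKt_M hn hε ho (L.2.1 (1 / 4)) (e _) (i := s + 1)
    (yN _ (ab _ _ (by norm_num) (by norm_num))) (zN _ (.inl (ab _ _ (by norm_num) le_rfl)))
    (.inr ⟨Int.odd_iff.2 (by omega), xP _ (by norm_num) (by norm_num)⟩)
  obtain ⟨r3, t3, n3, e3⟩ := pKt_R hn hε (L.2.1 (1 / 3)) (e _) (q _) (i := s + 1 + s)
    (yN _ (ab _ _ (by norm_num) (by norm_num))) (zP _ (ab _ _ (by norm_num) (by norm_num)))
    (.inr ⟨Int.odd_iff.2 (by omega), xP _ (by norm_num) (by norm_num)⟩)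
  obtain ⟨r4, t4, n4, e4⟩ := pKt_R hn hε (L.2.1 (2 / 3)) (e _) (q _) (i := s + 1 + s + 1)
    (yN _ (ab _ _ (by norm_num) (by norm_num))) (zP _ (ab _ _ (by norm_num) (by norm_num)))
    (.inl ⟨Int.even_iff.2 (by omega), xN _ (by norm_num) (by norm_num)⟩)
  obtain ⟨r5, t5, e5⟩ := pKt_M hn hε ho (L.2.1 (3 / 4)) (e _) (i := s + 1 + 1)
    (yN _ (ab _ _ (by norm_num) (by norm_num))) (zN _ (.inr (ab _ _ (by norm_num) (by norm_num))))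
    (.inl ⟨Int.even_iff.2 (by omega), xN _ (by norm_num) (by norm_num)⟩)
  obtain ⟨r6, t6, n6, -, e6⟩ := pKt_L hn hε ho (L.2.1 (5 / 6)) (e _) (q _) (i := s + 1)
    (yP _ (.inr (ab _ _ (by norm_num) (by norm_num))))
    (zN _ (.inr (ab _ _ (by norm_num) (by norm_num))))
    (.inr ⟨Int.odd_iff.2 (by omega), xN _ (by norm_num) (by norm_num)⟩)
  have e7 : κ (1 / 6 + 1) = pG σ ε (st r1 1 t1 (s + 1 + 1)) := by
    have := pG_per σ ε (st r1 1 t1 s).1 (st r1 1 t1 s).2 0 1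
    rw [Int.cast_zero, zero_mul, add_zero, Int.cast_one, one_mul] at this
    rw [L.2.2, pKt_two, this, e1]
  have d7 : ρ (st r1 1 t1 (s + 1 + 1)) = h * ρ (st r1 1 t1 s) := by
    rw [pKt_two]
    exact S.hL _ _ (.inl (by simpa [st] using n1))
  have md : ∀ (r t : ℝ) (i : ℤ), ρ (st r 0 t i) = ρ' (st r 0 t i) := fun r t i =>
    S.mid _ _ (by simpa using Real.pi_pos)
  have c1 := P3 κ (1 / 6) (1 / 4) _ _ _ _ _ (rp _ _) (fun t k => by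
    rw [uIcc_of_le (by norm_num)] at k
    exact ⟨ex _ (xP _ (by linarith [k.1]) (by linarith [k.2])).ne',
      ez _ (zN _ (.inl (ab _ _ (by linarith [k.1]) k.2))).ne⟩) n1 e1 e2
  have c2 := Pn κ (1 / 4) (1 / 3) _ _ _ _ _ (rp _ _) (fun t k => by
    rw [uIcc_of_le (by norm_num)] at k
    exact ⟨ex _ (xP _ (by linarith [k.1]) (by linarith [k.2])).ne',
      ey _ (yN _ (ab _ _ (by linarith [k.1]) (by linarith [k.2]))).ne⟩) n3 e2 e3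
  have c3 := (P2 κ (1 / 3) (2 / 3) _ _ _ _ _ (rp _ _) (fun t k => by
    rw [uIcc_of_le (by norm_num)] at k
    exact ⟨ey _ (yN _ (ab _ _ (by linarith [k.1]) (by linarith [k.2]))).ne,
      ez _ (zP _ (ab _ _ (by linarith [k.1]) (by linarith [k.2]))).ne'⟩) e3 e4).2 n3 n4
  have a4 : s + 1 + s + 1 = s + 1 + 1 + s := by ring
  rw [a4] at e4 c3
  have c4 := Pn κ (3 / 4) (2 / 3) _ _ _ _ _ (rp _ _) (fun t k => by
    rw [uIcc_of_ge (by norm_num)] at k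
    exact ⟨ex _ (xN _ (by linarith [k.1]) (by linarith [k.2])).ne,
      ey _ (yN _ (ab _ _ (by linarith [k.1]) (by linarith [k.2]))).ne⟩) n4 e5 e4
  have c5 := P3 κ (5 / 6) (3 / 4) _ _ _ _ _ (rp _ _) (fun t k => by
    rw [uIcc_of_ge (by norm_num)] at k
    exact ⟨ex _ (xN _ (by linarith [k.1]) (by linarith [k.2])).ne,
      ez _ (zN _ (.inr (ab _ _ (by linarith [k.1]) (by linarith [k.2])))).ne⟩) n6 e6 e5
  have c6 := (P2 κ (5 / 6) (1 / 6 + 1) _ _ _ _ _ (rp _ _) (fun t k => by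
    rw [uIcc_of_le (by norm_num)] at k
    exact ⟨ey _ (yP _ (.inr (ab _ _ (by linarith [k.1]) (by linarith [k.2])))).ne',
      ez _ (zN _ (.inr (ab _ _ (by linarith [k.1]) (by linarith [k.2])))).ne⟩) e6 e7).1 n6 n1
  refine ⟨e1 ▸ pG_joined hn hε j1, isConj_iff.2 ⟨ρ (st r1 1 t1 s), ?_⟩⟩
  have T := C.trans L.1 L.2.1
  rw [← T _ (1 / 4), ← T (1 / 4) (1 / 3), ← T (1 / 3) (2 / 3), ← T (2 / 3) (3 / 4),
    ← T (3 / 4) (5 / 6), C.symm L.1 L.2.1 (3 / 4) (2 / 3), C.symm L.1 L.2.1 (5 / 6) (3 / 4),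
    c1, c2, c3, c4, c5, c6, d7, md, md, ← l2, sq]
  group

theorem ktilde (hn : (n : ℤ) = 6 * σ + ε) (hε : ε = 1 ∨ ε = -1) (C : Cls (Cn n) o c)
    (S : Sys c σ ε ρ ρ' l μ h) {k : ℝ → ℂ × ℂ × ℂ} (K : KP n k) :
    JoinedIn (Cn n) (pG σ ε 0) (k 0) ∧ IsConj (c k 0 1)
      ((μ ^ (3 * (ε * σ)) * l)⁻¹ * (l * μ)⁻¹ * (μ ^ (3 * (ε * σ)) * l) * (l * μ)) := by
  have ho : Odd n := by
    rw [Nat.odd_iff]
    omega
  obtain ⟨θ, e, he, cθ, -, pθ, A⟩ := kpar ho K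
  obtain ⟨kc, km, kp⟩ := K.lp
  have L : Lp (Cn n) (k ∘ θ) := by
    refine ⟨kc.comp cθ, fun t => km _, fun t => ?_⟩
    simp only [Function.comp, pθ]
    rcases he with rfl | rfl
    · simpa using kp (θ t)
    · simpa [← sub_eq_add_neg] using (kp (θ t - 1)).symm
  obtain ⟨J, W⟩ := pKt_word hn hε ho C S L (fun s => K.real _) A
  refine ⟨J.trans ?_, ?_⟩
  · exact ((isPathConnected_range kc).joinedIn _ ⟨_, rfl⟩ _ ⟨0, rfl⟩).mono
      (range_subset_iff.2 km)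
  rw [C.repar kc km cθ, pθ] at W
  rcases he with rfl | rfl
  · exact (C.shift K.lp _).trans (by simpa using W)
  · have V := C.shift K.lp (θ (1 / 6) + ((-1 : ℤ) : ℝ))
    rw [show θ (1 / 6) + ((-1 : ℤ) : ℝ) + 1 = θ (1 / 6) by simp, C.symm kc km (θ (1 / 6))] at V
    have cm : Commute ((l * μ) ^ 2) (μ ^ (3 * (ε * σ)) * l) := by
      rw [(pass2 hn hε C S).1]
      exact (S.comm.2.zpow_right _).mul_right S.comm.1
    obtain ⟨g, hg⟩ := isConj_iff.1 W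
    refine (V.trans (isConj_iff.2 ⟨g, ?_⟩)).trans (pKt_inv cm).symm
    rw [← hg]
    group

end Pool.Agent.Lib.MP_b2e238_gt
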