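import Pool.Agent.Lib.MP_b2e238_gt.P.Pot

/-! The regular part of the cone: the charts `pI`, `pG` and the system of potentials. -/

open scoped Topology ContDiff
open Set Complex

noncomputable section

namespace Pool.Agent.Lib.MP_b2e238_gt

variable {V : Type} [NormedAddCommGroup V] [NormedSpace ℝ V] {Γ : Type} [Group Γ]

variable {n σ : ℕ} {ε : ℤ} {o : ℂ × ℂ × ℂ} {c : (ℝ → ℂ × ℂ × ℂ) → ℝ → ℝ → Γ} {ρ ρ' : ℂ × ℂ → Γ}
  {l μ h : Γ}

theorem pSys_zz (hε : ε = 1 ∨ ε = -1) (D : ℂ) : (D ^ ε) ^ ε = D := by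
  rcases hε with rfl | rfl <;> simp

theorem pSys_pow (hn : (n : ℤ) = 6 * σ + ε) {z : ℂ} (hz : z ≠ 0) :
    z ^ n = (z ^ σ) ^ 6 * z ^ ε := by
  rw [← zpow_natCast, hn, zpow_add₀ hz, ← pow_mul, mul_comm σ 6, ← zpow_natCast]
  push_cast
  rfl

theorem pSys_re (i : ℤ) : ((i : ℂ) * tpi).re = 0 := by simp [tpi]

theorem pSys_im (i : ℤ) : ((i : ℂ) * tpi).im = i * (2 * Real.pi) := by simp [tpi]

theorem pSys_exp (w : ℂ) (i : ℤ) : exp (w + i * tpi) = exp w := by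
  rw [exp_add, tpi, exp_int_mul_two_pi_mul_I, mul_one]

theorem pSys_ne {u : ℂ × ℂ} (k : 1 + exp u.1 ≠ 0) :
    (exp (3 * u.2) * (-exp u.1 / (1 + exp u.1))) ^ 2 +
      (exp (2 * u.2) * (-exp u.1 / (1 + exp u.1))) ^ 3 ≠ 0 := by
  have a : exp (3 * u.2) = exp u.2 ^ 3 := by rw [← exp_nat_mul]; norm_num
  have b : exp (2 * u.2) = exp u.2 ^ 2 := by rw [← exp_nat_mul]; norm_num
  have : (exp (3 * u.2) * (-exp u.1 / (1 + exp u.1))) ^ 2 +
      (exp (2 * u.2) * (-exp u.1 / (1 + exp u.1))) ^ 3 =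
      exp u.2 ^ 6 * exp u.1 ^ 2 / (1 + exp u.1) ^ 3 := by
    rw [a, b]; field_simp; ring
  rw [this]
  exact div_ne_zero (mul_ne_zero (pow_ne_zero _ (exp_ne_zero _)) (pow_ne_zero _ (exp_ne_zero _)))
    (pow_ne_zero _ k)

theorem pSys_neL {u : ℂ × ℂ} (k : u ∈ pL) : 1 + exp u.1 ≠ 0 := slitPlane_ne_zero (pL_slit k)

theorem pSys_neR {u : ℂ × ℂ} (k : u ∈ pR) : 1 + exp u.1 ≠ 0 := fun e =>
  slitPlane_ne_zero (pR_slit k) (by
    have := exp_ne_zero u.1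
    rw [exp_neg]
    field_simp
    linear_combination e)

/-- A sequence with constant left quotient. -/
theorem pSys_seq {F : ℤ → Γ} {g : Γ} (k : ∀ i, F (i + 1) = g * F i) (i : ℤ) : F i = g ^ i * F 0 := by
  induction i using Int.induction_on with
  | zero => simp
  | succ i ih => rw [k, ih, ← mul_assoc, ← zpow_one_add, add_comm]
  | pred i ih =>
    have := k (-(i : ℤ) - 1)
    rw [sub_add_cancel, ih, ← inv_mul_eq_iff_eq_mul] at this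
    rw [← this, ← mul_assoc, ← zpow_neg_one, ← zpow_add]
    congr 2
    ring

/-- A deck map multiplies a potential by a constant. -/
theorem pSys_deck {c : (ℝ → V) → ℝ → ℝ → Γ} {f : ℂ × ℂ → V} {S T : Set (ℂ × ℂ)}
    {φ : ℂ × ℂ → ℂ × ℂ} (P : Pot c f S ρ) (k : T ⊆ S) {x : ℂ × ℂ} (s : StarConvex ℝ x T)
    (hx : x ∈ T) (kφ : ContinuousOn φ T) (m : MapsTo φ T S) (e : ∀ u ∈ T, f u = f (φ u)) :
    ∃ g : Γ, ∀ u ∈ T, ρ (φ u) = g * ρ u :=
  ⟨_, (P.comp kφ m e).uniq (P.mono k) s hx⟩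

section Sys
theorem pI_mem (hn : (n : ℤ) = 6 * σ + ε) (hε : ε = 1 ∨ ε = -1) {X Y : ℂ} (k : X ^ 2 + Y ^ 3 ≠ 0) :
    pI σ ε X Y ∈ Cn n := by
  have z : (-(X ^ 2 + Y ^ 3)) ^ ε ≠ 0 := zpow_ne_zero _ (neg_ne_zero.2 k)
  refine ⟨?_, fun e => z (congrArg (fun a => a.2.2) e)⟩
  simp only [pI]
  rw [pSys_pow hn z, pSys_zz hε]
  ring

theorem pI_cont (σ : ℕ) (ε : ℤ) :
    ContinuousOn (fun u : ℂ × ℂ => pI σ ε u.1 u.2) {u | u.1 ^ 2 + u.2 ^ 3 ≠ 0} := by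
  have z : ContinuousOn (fun u : ℂ × ℂ => (-(u.1 ^ 2 + u.2 ^ 3)) ^ ε) {u | u.1 ^ 2 + u.2 ^ 3 ≠ 0} :=
    ContinuousOn.zpow₀ (by fun_prop) _ fun u hu => .inl (neg_ne_zero.2 hu)
  exact (continuousOn_fst.mul (z.pow _)).prodMk ((continuousOn_snd.mul (z.pow _)).prodMk z)

/-- The inverse of `pI`. -/
theorem pI_inv (hn : (n : ℤ) = 6 * σ + ε) (hε : ε = 1 ∨ ε = -1) {a : ℂ × ℂ × ℂ} (m : a ∈ Cn n)
    (k : a.2.2 ≠ 0) : (a.1 / a.2.2 ^ (3 * σ)) ^ 2 + (a.2.1 / a.2.2 ^ (2 * σ)) ^ 3 ≠ 0 ∧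
      pI σ ε (a.1 / a.2.2 ^ (3 * σ)) (a.2.1 / a.2.2 ^ (2 * σ)) = a := by
  obtain ⟨x, y, z⟩ := a
  have e : x ^ 2 + y ^ 3 + z ^ n = 0 := m.1
  simp only at k ⊢
  have d : -((x / z ^ (3 * σ)) ^ 2 + (y / z ^ (2 * σ)) ^ 3) = z ^ ε := by
    rw [pSys_pow hn k] at e
    rw [mul_comm 3 σ, mul_comm 2 σ, pow_mul, pow_mul]
    have := pow_ne_zero σ k
    generalize z ^ σ = s at *
    field_simp
    linear_combination -e
  refine ⟨fun e => zpow_ne_zero ε k (by rw [← d, e, neg_zero]), ?_⟩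
  rw [pI, d, pSys_zz hε, div_mul_cancel₀ _ (pow_ne_zero _ k), div_mul_cancel₀ _ (pow_ne_zero _ k)]

theorem pG_mem (hn : (n : ℤ) = 6 * σ + ε) (hε : ε = 1 ∨ ε = -1) {u : ℂ × ℂ} (k : 1 + exp u.1 ≠ 0) :
    pG σ ε u ∈ Cn n := pI_mem hn hε (pSys_ne k)

theorem pG_cont (σ : ℕ) (ε : ℤ) : ContinuousOn (pG σ ε) {u | 1 + exp u.1 ≠ 0} := by
  have t : ContinuousOn (fun u : ℂ × ℂ => -exp u.1 / (1 + exp u.1)) {u | 1 + exp u.1 ≠ 0} :=
    ContinuousOn.div (by fun_prop) (by fun_prop) fun _ hu => hu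
  exact (pI_cont σ ε).comp (f := fun u : ℂ × ℂ => (exp (3 * u.2) * (-exp u.1 / (1 + exp u.1)),
    exp (2 * u.2) * (-exp u.1 / (1 + exp u.1))))
    ((ContinuousOn.mul (by fun_prop) t).prodMk (ContinuousOn.mul (by fun_prop) t))
    fun _ hu => pSys_ne hu

theorem pG_per (σ : ℕ) (ε : ℤ) (w v : ℂ) (j k : ℤ) :
    pG σ ε (w + j * tpi, v + k * tpi) = pG σ ε (w, v) := by
  have a : exp (3 * (v + k * tpi)) = exp (3 * v) := by
    rw [← pSys_exp (3 * v) (3 * k)]; congr 1; push_cast; ring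
  have b : exp (2 * (v + k * tpi)) = exp (2 * v) := by
    rw [← pSys_exp (2 * v) (2 * k)]; congr 1; push_cast; ring
  simp only [pG, a, b, pSys_exp]

/-- How to recognise a point of the regular part. -/
theorem pG_eq (hn : (n : ℤ) = 6 * σ + ε) (hε : ε = 1 ∨ ε = -1) {a : ℂ × ℂ × ℂ} (m : a ∈ Cn n)
    {w v : ℂ} (k : a.2.2 ≠ 0) (hw : exp w = a.2.1 ^ 3 / a.2.2 ^ n)
    (hv : exp v = a.1 / (a.2.1 * a.2.2 ^ σ)) : 1 + exp w ≠ 0 ∧ a = pG σ ε (w, v) := by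
  have i := (pI_inv hn hε m k).2
  obtain ⟨x, y, z⟩ := a
  have e : x ^ 2 + y ^ 3 + z ^ n = 0 := m.1
  simp only at k hw hv i
  have x0 : x ≠ 0 := fun e => exp_ne_zero v (by rw [hv, e, zero_div])
  have y0 : y ≠ 0 := fun e => exp_ne_zero v (by rw [hv, e, zero_mul, div_zero])
  have zn := pow_ne_zero n k
  have d : 1 + exp w = -x ^ 2 / z ^ n := by
    rw [hw]; field_simp; linear_combination e
  have t : -exp w / (1 + exp w) = y ^ 3 / x ^ 2 := by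
    rw [d, hw]; field_simp
  have a : exp (3 * v) = exp v ^ 3 := by rw [← exp_nat_mul]; norm_num
  have b : exp (2 * v) = exp v ^ 2 := by rw [← exp_nat_mul]; norm_num
  have zs := pow_ne_zero σ k
  refine ⟨d ▸ div_ne_zero (neg_ne_zero.2 (pow_ne_zero _ x0)) zn, ?_⟩
  rw [← i, pG]
  simp only [t, a, b, hv, mul_comm 3 σ, mul_comm 2 σ, pow_mul]
  generalize z ^ σ = s at *
  congr 1 <;> field_simp

theorem pG_joined (hn : (n : ℤ) = 6 * σ + ε) (hε : ε = 1 ∨ ε = -1) {u : ℂ × ℂ}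
    (k : 1 + exp u.1 ≠ 0) : JoinedIn (Cn n) (pG σ ε 0) (pG σ ε u) := by
  have a : IsPathConnected (exp ⁻¹' {-1})ᶜ :=
    (countable_preimage_exp.2 (countable_singleton _)).isPathConnected_compl_of_one_lt_rank
      (by simp)
  have e : {u : ℂ × ℂ | 1 + exp u.1 ≠ 0} = (exp ⁻¹' {-1})ᶜ ×ˢ univ := by
    ext u
    simp only [mem_ofPred_eq, mem_prod, mem_compl_iff, mem_preimage, mem_singleton_iff, mem_univ,
      and_true, ne_eq, add_comm (1 : ℂ), add_eq_zero_iff_eq_neg]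
  have b : IsPathConnected {u : ℂ × ℂ | 1 + exp u.1 ≠ 0} := e ▸ a.prod isPathConnected_univ
  refine ((b.image' (pG_cont σ ε)).joinedIn _ ⟨0, ?_, rfl⟩ _ ⟨u, k, rfl⟩).mono ?_
  · simp only [mem_ofPred_eq, Prod.fst_zero, exp_zero]; norm_num
  · rintro _ ⟨u, k, rfl⟩
    exact pG_mem hn hε k

theorem exists_sys (hn : (n : ℤ) = 6 * σ + ε) (hε : ε = 1 ∨ ε = -1) (C : Cls (Cn n) o c) :
    ∃ (ρ ρ' : ℂ × ℂ → Γ) (l μ h : Γ), Sys c σ ε ρ ρ' l μ h := by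
  have mL : ((-1 : ℂ), (0 : ℂ)) ∈ pL := .inl (by simp)
  have mR : ((1 : ℂ), (0 : ℂ)) ∈ pR := .inl (by simp)
  have z0 : |(0 : ℂ).im| < Real.pi := by simpa using Real.pi_pos
  obtain ⟨ρ, P⟩ := C.pot pL _ (pG σ ε) mL star_pL ((pG_cont σ ε).mono fun _ => pSys_neL)
    fun _ k => pG_mem hn hε (pSys_neL k)
  obtain ⟨ρ₀, P₀⟩ := C.pot pR _ (pG σ ε) mR star_pR ((pG_cont σ ε).mono fun _ => pSys_neR)
    fun _ k => pG_mem hn hε (pSys_neR k)
  have cv {s : Set ℝ} (k : Convex ℝ s) (L : ℂ →ₗ[ℝ] ℝ) : Convex ℝ {u : ℂ × ℂ | L u.1 ∈ s} :=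
    k.linear_preimage (L.comp (LinearMap.fst ℝ ℂ ℂ))
  have cM : Convex ℝ {u : ℂ × ℂ | |u.1.im| < Real.pi} := by
    simp only [abs_lt]
    exact cv (convex_Ioo (-Real.pi) Real.pi) imLm
  have mid := (P.mono (T := {u : ℂ × ℂ | |u.1.im| < Real.pi}) fun _ k => .inr k).uniq
    (P₀.mono fun _ k => .inr k) (cM (x := 0) z0) z0
  have P' := P₀.mul (ρ 0 * (ρ₀ 0)⁻¹)
  generalize hρ : (fun u => ρ 0 * (ρ₀ 0)⁻¹ * ρ₀ u) = ρ' at P'
  replace mid (w v : ℂ) (k : |w.im| < Real.pi) : ρ (w, v) = ρ' (w, v) := hρ ▸ mid (w, v) k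
  have p1 (u : ℂ × ℂ) : pG σ ε u = pG σ ε (u.1 + tpi, u.2) := by
    simpa using (pG_per σ ε u.1 u.2 1 0).symm
  have p2 (u : ℂ × ℂ) : pG σ ε u = pG σ ε (u.1, u.2 + tpi) := by
    simpa using (pG_per σ ε u.1 u.2 0 1).symm
  have r (w : ℂ) : (w + tpi).re = w.re := by simp [tpi]
  obtain ⟨l, hl⟩ := pSys_deck (φ := fun u => (u.1 + tpi, u.2)) (T := {u | u.1.re < 0}) P
    (fun _ k => .inl k) (cv (convex_Iio 0) reLm (x := (-1, 0)) (by simp)) (by simp) (by fun_prop)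
    (fun u k => .inl ((r _).trans_lt k)) fun u _ => p1 u
  obtain ⟨μ, hμ⟩ := pSys_deck (φ := fun u => (u.1 + tpi, u.2)) (T := {u | 0 < u.1.re}) P'
    (fun _ k => .inl k) (cv (convex_Ioi 0) reLm (x := (1, 0)) (by simp)) (by simp) (by fun_prop)
    (fun u k => .inl (LT.lt.trans_eq k (r _).symm)) fun u _ => p1 u
  obtain ⟨h, hh⟩ := pSys_deck (φ := fun u => (u.1, u.2 + tpi)) P Subset.rfl star_pL mL
    (by fun_prop) (fun _ k => k) fun u _ => p2 u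
  obtain ⟨h', hh'⟩ := pSys_deck (φ := fun u => (u.1, u.2 + tpi)) P' Subset.rfl star_pR mR
    (by fun_prop) (fun _ k => k) fun u _ => p2 u
  have e : h' = h := by
    have a := hh (0, 0) (.inr z0)
    have b := hh' (0, 0) (.inr z0)
    rw [← mid _ _ z0, ← mid _ _ z0, a] at b
    exact (mul_right_cancel b).symm
  exact ⟨ρ, ρ', l, μ⁻¹, h, P, P', mid, fun w v k => hl (w, v) k,
    fun w v k => by rw [inv_inv]; exact hμ (w, v) k, fun w v k => hh (w, v) k,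
    fun w v k => e ▸ hh' (w, v) k⟩

theorem Sys.comm (S : Sys c σ ε ρ ρ' l μ h) : Commute h l ∧ Commute h μ := by
  constructor
  · have k : (-1 : ℂ).re < 0 := by simp
    have a := S.hL (-1 + tpi) 0 (.inl (by simp [tpi]))
    rw [S.dL _ _ k, S.dL _ _ k, S.hL _ _ (.inl k), ← mul_assoc, ← mul_assoc] at a
    exact (mul_right_cancel a).symm
  · have k : 0 < (1 : ℂ).re := by simp
    have a := S.hR (1 + tpi) 0 (.inl (by simp [tpi]))
    rw [S.dR _ _ k, S.dR _ _ k, S.hR _ _ (.inl k), ← mul_assoc, ← mul_assoc] at a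
    exact Commute.inv_right_iff.1 (mul_right_cancel a).symm

theorem Sys.shL (S : Sys c σ ε ρ ρ' l μ h) {w : ℂ} (k : w.re < 0) (v : ℂ) (i j : ℤ) :
    ρ (w + i * tpi, v + j * tpi) = l ^ i * h ^ j * ρ (w, v) := by
  have a := pSys_seq (F := fun i : ℤ => ρ (w + i * tpi, v + j * tpi)) (g := l) (fun i => by
    rw [← S.dL _ _ (by rwa [add_re, pSys_re, add_zero])]
    push_cast
    rw [add_mul, one_mul, add_assoc]) i
  have b := pSys_seq (F := fun j : ℤ => ρ (w, v + j * tpi)) (g := h) (fun j => by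
    rw [← S.hL _ _ (.inl k)]
    push_cast
    rw [add_mul, one_mul, add_assoc]) j
  simp only [Int.cast_zero, zero_mul, add_zero] at a b
  rw [a, b, mul_assoc]

theorem Sys.shR (S : Sys c σ ε ρ ρ' l μ h) {w : ℂ} (k : 0 < w.re) (v : ℂ) (i j : ℤ) :
    ρ' (w + i * tpi, v + j * tpi) = μ ^ (-i) * h ^ j * ρ' (w, v) := by
  have a := pSys_seq (F := fun i : ℤ => ρ' (w + i * tpi, v + j * tpi)) (g := μ⁻¹) (fun i => by
    rw [← S.dR _ _ (by rwa [add_re, pSys_re, add_zero])]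
    push_cast
    rw [add_mul, one_mul, add_assoc]) i
  have b := pSys_seq (F := fun j : ℤ => ρ' (w, v + j * tpi)) (g := h) (fun j => by
    rw [← S.hR _ _ (.inl k)]
    push_cast
    rw [add_mul, one_mul, add_assoc]) j
  simp only [Int.cast_zero, zero_mul, add_zero] at a b
  rw [a, b, mul_assoc, inv_zpow']

/-- A path in the strip number `i` from the left to the right half plane. -/
theorem Sys.cross (S : Sys c σ ε ρ ρ' l μ h) {γ : ℝ → ℂ × ℂ × ℂ} {u : ℝ → ℂ × ℂ} {a b : ℝ} (i : ℤ)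
    (k : ContinuousOn u (uIcc a b)) (m : ∀ t ∈ uIcc a b, |(u t).1.im - i * (2 * Real.pi)| < Real.pi)
    (e : ∀ t ∈ uIcc a b, γ t = pG σ ε (u t)) (ha : (u a).1.re < 0) (hb : 0 < (u b).1.re) :
    c γ a b = (ρ (u a))⁻¹ * (l ^ i * μ ^ i) * ρ' (u b) ∧
      c γ b a = (ρ' (u b))⁻¹ * (l ^ i * μ ^ i)⁻¹ * ρ (u a) := by
  have k' : ContinuousOn (fun t => ((u t).1 - i * tpi, (u t).2)) (uIcc a b) :=
    (k.fst.sub continuousOn_const).prodMk k.snd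
  have m' (t) (ht : t ∈ uIcc a b) : |((u t).1 - i * tpi).im| < Real.pi := by
    rw [sub_im, pSys_im]; exact m t ht
  have e' (t) (ht : t ∈ uIcc a b) : γ t = pG σ ε ((u t).1 - i * tpi, (u t).2) := by
    rw [e t ht, ← pG_per σ ε ((u t).1 - i * tpi) (u t).2 i 0]
    simp
  have A := S.shL (w := (u a).1 - i * tpi) (by rwa [sub_re, pSys_re, sub_zero]) (u a).2 i 0
  have B := S.shR (w := (u b).1 - i * tpi) (by rwa [sub_re, pSys_re, sub_zero]) (u b).2 i 0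
  simp only [sub_add_cancel, Int.cast_zero, zero_mul, add_zero, zpow_zero, mul_one] at A B
  have p := S.potL γ _ a b k' (fun t ht => .inr (m' t ht)) e'
  have q := S.potL γ _ b a (uIcc_comm a b ▸ k') (fun t ht => .inr (m' t (uIcc_comm a b ▸ ht)))
    fun t ht => e' t (uIcc_comm a b ▸ ht)
  rw [p, q, S.mid _ _ (m' b right_mem_uIcc), show ρ (u a) = _ from A, show ρ' (u b) = _ from B]
  constructor <;> group
end Sys

end Pool.Agent.Lib.MP_b2e238_gt
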