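import Pool.Agent.Lib.MP_b2e238_gt.P.Win
import Pool.Agent.Lib.MP_b2e238_gt.P.Sys
import Pool.Agent.Lib.MP_b2e238_gt.B.PiD
import Pool.Agent.Lib.MP_b2e238_gt.B.FillI

/-! The loop over `η` in the logarithmic coordinates of the cone. -/

open scoped Topology ContDiff
open Set Complex

noncomputable section

namespace Pool.Agent.Lib.MP_b2e238_gt

variable {Γ : Type} [Group Γ] {i : ℕ} {e b : ℤ} {η η' : ℝ → ℂ}

theorem lift_cc {w : ℂ} (h : w ∈ CC) : w ≠ 0 ∧ 1 + w ≠ 0 :=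
  ⟨fun k => h (.inl k), fun k => h (.inr (eq_neg_of_add_eq_zero_right k))⟩

theorem lift_ph {w c : ℂ} (h : w ∈ CC) (hc : ‖c‖ = 1) : ph (sec w (c * gA w)).2.2 = wz w c := by
  obtain ⟨h0, h1⟩ := lift_cc h
  have n : ‖c * gA w‖ = 1 := by rw [norm_mul, hc, mem_S1.1 (gA_facts.2 h), mul_one]
  have a0 : ((‖w‖ : ℝ) : ℂ) ≠ 0 := by exact_mod_cast norm_ne_zero_iff.2 h0
  have a1 : ((‖1 + w‖ : ℝ) : ℂ) ≠ 0 := by exact_mod_cast norm_ne_zero_iff.2 h1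
  refine (co_ph (Real.exp_pos _) _).trans ?_
  simp only [wz]
  generalize c * gA w = C at n
  simp only [ph, norm_div, norm_mul, norm_neg, norm_pow, n, one_pow, one_mul]
  push_cast
  field_simp

theorem lift_pt (d : JD) (i : ℕ) {w c : ℂ} (h : w ∈ CC) (hc : ‖c‖ = 1) : ∃ r ρ : ℝ, 0 < r ∧ 0 < ρ ∧
    (d.j (PiE i (w, c, 1))).1 =
      (-(r * (wz w c ^ d.i₁ * gB (4 - i) w ^ d.i₂) * (c * gA w)) ^ 3 * w / (1 + w),
        -(r * (wz w c ^ d.i₁ * gB (4 - i) w ^ d.i₂) * (c * gA w)) ^ 2 * w / (1 + w),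
        ρ * (wz w c ^ d.e₁ * gB (4 - i) w ^ d.e₂)) := by
  have z := ((pi_dif i).mF (x := (w, c, 1)) ⟨h, mem_S1.2 hc, mem_S1.2 norm_one⟩).1.2.2
  obtain ⟨s, hs⟩ : ∃ s, sec w (c * gA w) = scl 1 s (-(c * gA w) ^ 3 * w / (1 + w),
    -(c * gA w) ^ 2 * w / (1 + w), -(c * gA w) ^ 6 * w ^ 2 / (1 + w) ^ 3) := ⟨_, rfl⟩
  obtain ⟨s', hs'⟩ : ∃ s', (d.j (PiE i (w, c, 1))).1 = scl d.n s'
    (Jm (1 / d.n) d.i₁ d.i₂ d.e₁ d.e₂ d.k d.l (PiE i (w, c, 1))).1 := ⟨_, rfl⟩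
  refine ⟨Real.exp s' * Real.exp s, Real.exp (6 / d.n * s') * ‖(sec w (c * gA w)).2.2‖ ^ (1 / d.n : ℝ),
    by positivity, mul_pos (Real.exp_pos _) (Real.rpow_pos_of_pos (norm_pos_iff.2 z) _), ?_⟩
  have e3 : ∀ x : ℝ, Real.exp (3 * x) = Real.exp x ^ 3 := fun x => by
    rw [← Real.exp_nat_mul]; rfl
  have e2 : ∀ x : ℝ, Real.exp (2 * x) = Real.exp x ^ 2 := fun x => by
    rw [← Real.exp_nat_mul]; rfl
  rw [hs']
  simp only [scl, Jm, PiE, lift_ph h hc, one_mul, real_smul]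
  refine Prod.ext ?_ (Prod.ext ?_ ?_)
  · simp only [hs, scl, real_smul, e3]
    push_cast
    ring
  · simp only [hs, scl, real_smul, e2]
    push_cast
    ring
  · simp only [ofReal_mul, mul_assoc]

theorem lp_lift {d : JD} {σ : ℕ} {ε : ℤ} (hd : d.OK) (hn : (d.n : ℤ) = 6 * σ + ε)
    (hε : ε = 1 ∨ ε = -1) (h : WL i e b η) : Lp (Bri d.n) (d.lp i η) ∧
    ∃ v : ℝ → ℂ, Continuous v ∧ (∀ t, v (t + 1) = v t + (((d.i₁ - σ * d.e₁) * (2 - i) +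
      (d.i₂ - σ * d.e₂) * ((4 - i) * i - 1 - i) : ℤ) : ℂ) * tpi) ∧
      ∀ t, 1 + exp (log (η t)) ≠ 0 ∧ d.lp i η t = pG σ ε (log (η t), v t) := by
  obtain ⟨c, m, p, -, -⟩ := h.facts
  obtain ⟨wA, wB, wZ⟩ := h.gauge
  obtain ⟨j', hj⟩ := j_dif hd
  have m1 : ∀ t, ((η t, ex t, 1) : C3) ∈ CC ×ˢ S1 ×ˢ S1 := fun t =>
    ⟨m t, mem_S1.2 (norm_ex t), mem_S1.2 norm_one⟩
  have m2 : ∀ t, PiE i (η t, ex t, 1) ∈ YO 1 := fun t => ((pi_dif i).mF (m1 t)).1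
  have m3 : ∀ t, d.lp i η t ∈ Bri d.n := fun t => (hj.mF (m2 t)).1.1
  have cl : Continuous (d.lp i η) := (hj.cF.continuousOn.comp_continuous
    ((pi_dif i).cF.continuousOn.comp_continuous
      (c.prodMk (contDiff_ex.continuous.prodMk continuous_const)) m1) m2).fst
  have pl : ∀ t, d.lp i η (t + 1) = d.lp i η t := fun t => by simp only [JD.lp, p, ex_one]
  have wE : Wn ex 1 := (wn_apxE 1).congr fun t => by simp [ex, apxE]
  have W := (wE.mul wA).mul ((wZ.zpow (d.i₁ - σ * d.e₁)).mul ((wB (4 - i)).zpow (d.i₂ - σ * d.e₂)))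
  have key : ∀ t, (d.lp i η t).2.1 ≠ 0 ∧ (d.lp i η t).2.2 ≠ 0 ∧
      η t = (d.lp i η t).2.1 ^ 3 / (d.lp i η t).2.2 ^ d.n ∧
      (d.lp i η t).1 / ((d.lp i η t).2.1 * (d.lp i η t).2.2 ^ σ) / (ex t * gA (η t) *
        (wz (η t) (ex t) ^ (d.i₁ - σ * d.e₁) * gB (4 - i) (η t) ^ (d.i₂ - σ * d.e₂))) ∈
          slitPlane := fun t => by
    obtain ⟨r, ρ, hr, hρ, k⟩ := lift_pt d i (m t) (norm_ex t)
    obtain ⟨h0, h1⟩ := lift_cc (m t)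
    have q := (m3 t).1
    have nC : ex t * gA (η t) ≠ 0 := (wE.mul wA).ne t
    have nu : wz (η t) (ex t) ≠ 0 := wZ.ne t
    have nT : gB (4 - i) (η t) ≠ 0 := (wB _).ne t
    have r0 : (r : ℂ) ≠ 0 := ofReal_ne_zero.2 hr.ne'
    have ρ0 : (ρ : ℂ) ≠ 0 := ofReal_ne_zero.2 hρ.ne'
    simp only [JD.lp, k] at q ⊢
    generalize ex t * gA (η t) = C at *
    generalize wz (η t) (ex t) = u at *
    generalize gB (4 - i) (η t) = T at *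
    generalize η t = w at *
    have n1 := zpow_ne_zero d.i₁ nu
    have n2 := zpow_ne_zero d.i₂ nT
    have n3 := zpow_ne_zero d.e₁ nu
    have n4 := zpow_ne_zero d.e₂ nT
    refine ⟨by simp [*], by simp [*], ?_, ?_⟩
    · rw [← neg_eq_iff_add_eq_zero.2 q]
      have : -((-(r * (u ^ d.i₁ * T ^ d.i₂) * C) ^ 3 * w / (1 + w)) ^ 2 +
          (-(r * (u ^ d.i₁ * T ^ d.i₂) * C) ^ 2 * w / (1 + w)) ^ 3) =
          -(r * (u ^ d.i₁ * T ^ d.i₂) * C) ^ 6 * w ^ 2 / (1 + w) ^ 3 := by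
        field_simp
        ring
      rw [this]
      field_simp
    · rw [zpow_sub₀ nu, zpow_sub₀ nT, mul_comm (σ : ℤ), mul_comm (σ : ℤ), zpow_mul, zpow_mul,
        zpow_natCast, zpow_natCast]
      convert ofReal_mem_slitPlane.2 (div_pos hr (pow_pos hρ σ)) using 1
      push_cast
      simp only [mul_pow]
      field_simp
  obtain ⟨v, cv, ev, pv⟩ := W.of_slit (b := fun t =>
    (d.lp i η t).1 / ((d.lp i η t).2.1 * (d.lp i η t).2.2 ^ σ))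
    (cl.fst.div (cl.snd.fst.mul (cl.snd.snd.pow σ)) fun t =>
      mul_ne_zero (key t).1 (pow_ne_zero _ (key t).2.1)) (fun t => by simp only [pl])
    fun t => (key t).2.2.2
  refine ⟨⟨cl, m3, pl⟩, v, cv, fun t => ?_, fun t => pG_eq hn hε ⟨(m3 t).1, fun k =>
    (key t).1 (by rw [k]; rfl)⟩ (key t).2.1 ((exp_log (lift_cc (m t)).1).trans (key t).2.2.1) (ev t)⟩
  rw [pv, tpi, add_neg_cancel, zero_add]

end Pool.Agent.Lib.MP_b2e238_gt
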