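import Pool.Agent.Lib.MP_b2e238_gt.P.Word
import Pool.Agent.Lib.MP_b2e238_gt.P.Cls
import Pool.Agent.Lib.MP_b2e238_gt.P.Kt
import Pool.Agent.Lib.MP_b2e238_gt.P.Lift
import Pool.Agent.Lib.MP_b2e238_gt.B.FillI
import Pool.Agent.Lib.MP_b2e238_gt.K.Hl

/-! The free homotopy classes of the loops over words in the Brieskorn spheres. -/

open scoped Topology
open Set Complex

noncomputable section

namespace Pool.Agent.Lib.MP_b2e238_gt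

variable {Γ : Type} [Group Γ] {i : ℕ} {e b : ℤ} {η η' : ℝ → ℂ} {n σ : ℕ} {ε : ℤ} {o : C3}
  {c : (ℝ → C3) → ℝ → ℝ → Γ} {ρ ρ' : ℂ × ℂ → Γ} {l μ h : Γ}

theorem top_sq (h3 : l ^ 3 = h) (h2 : (l * μ) ^ 2 = h) : l * l = μ * l * μ := by
  have : l * (l * l) = l * (μ * l * μ) := by
    calc l * (l * l) = l ^ 3 := by simp only [pow_succ, pow_zero, one_mul, mul_assoc]
      _ = (l * μ) ^ 2 := h3.trans h2.symm
      _ = _ := by simp only [pow_succ, pow_zero, one_mul, mul_assoc]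
  exact mul_left_cancel this

theorem top_key (q : l * l = μ * l * μ) : l⁻¹ * (μ * μ)⁻¹ * l = μ * l⁻¹ * μ * l⁻¹ := by
  have a : l⁻¹ * μ⁻¹ = μ * (l * l)⁻¹ := by rw [q]; group
  have b : μ⁻¹ * l = l * μ * l⁻¹ := by
    calc μ⁻¹ * l = μ⁻¹ * (l * l) * l⁻¹ := by group
      _ = _ := by rw [q]; group
  calc l⁻¹ * (μ * μ)⁻¹ * l = (l⁻¹ * μ⁻¹) * (μ⁻¹ * l) := by group
    _ = _ := by rw [a, b]; group

theorem top_real (h3 : l ^ 3 = h) (h2 : (l * μ) ^ 2 = h) (cμ : Commute h μ) (m : ℤ) :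
    IsConj ((μ ^ m * l)⁻¹ * (l * μ)⁻¹ * (μ ^ m * l) * (l * μ))
      (l ^ (1 : ℤ) * μ ^ (-m) * l * μ ^ (-(-m)) * l ^ (-1 : ℤ) * μ ^ (-((2 : ℕ) : ℤ)) *
        h ^ (0 : ℤ)) := by
  have q := top_sq h3 h2
  have k := top_key q
  have a : (l * μ)⁻¹ = l * μ * h⁻¹ := by rw [← h2]; group
  have b : h⁻¹ * (μ ^ m * l) = μ ^ m * l⁻¹ * l⁻¹ := by
    rw [← mul_assoc, (cμ.zpow_right m).inv_left.eq, ← h3]; group
  have d : μ ^ m * μ⁻¹ = μ⁻¹ * μ ^ m := by group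
  refine isConj_iff.2 ⟨l * l, ?_⟩
  calc l * l * ((μ ^ m * l)⁻¹ * (l * μ)⁻¹ * (μ ^ m * l) * (l * μ)) * (l * l)⁻¹
      = l * l * ((μ ^ m * l)⁻¹ * (l * μ * (h⁻¹ * (μ ^ m * l))) * (l * μ)) * (l * l)⁻¹ := by
        rw [a]; simp only [mul_assoc]
    _ = l * μ ^ (-m) * l * μ ^ m * (μ * l⁻¹ * μ * l⁻¹) * l⁻¹ := by rw [b]; group
    _ = _ := by rw [← k]; group

theorem top_base (h3 : l ^ 3 = h) (h2 : (l * μ) ^ 2 = h) (h5 : μ ^ (-5 : ℤ) = h ^ (-1 : ℤ)) :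
    IsConj (l ^ (0 : ℤ) * μ ^ (0 : ℤ) * l * μ ^ (-0 : ℤ) * l ^ (-0 : ℤ) * μ ^ (-((1 : ℕ) : ℤ)) *
        h ^ (0 : ℤ))
      (l ^ (1 : ℤ) * μ ^ (0 : ℤ) * l * μ ^ (-0 : ℤ) * l ^ (-1 : ℤ) * μ ^ (-((2 : ℕ) : ℤ)) *
        h ^ (0 : ℤ)) := by
  have q := top_sq h3 h2
  have k := top_key q
  have a : μ ^ (-3 : ℤ) = μ * μ * (l * l)⁻¹ * l⁻¹ := by
    calc μ ^ (-3 : ℤ) = μ * μ * μ ^ (-5 : ℤ) := by group
      _ = _ := by rw [h5, ← h3]; group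
  refine isConj_iff.2 ⟨l * l * μ ^ (-3 : ℤ), ?_⟩
  calc l * l * μ ^ (-3 : ℤ) * _ * (l * l * μ ^ (-3 : ℤ))⁻¹
      = l * l * μ ^ (-3 : ℤ) * l * μ ^ (2 : ℤ) * (l * l)⁻¹ := by group
    _ = l * l * (μ * μ * (l * l)⁻¹ * μ * μ) * (l * l)⁻¹ := by
        rw [a, zpow_two]; simp only [mul_assoc, inv_mul_cancel_left]
    _ = l * l * (μ * μ * (μ * l * μ)⁻¹ * μ * μ) * (l * l)⁻¹ := by rw [← q]
    _ = l * l * (μ * l⁻¹ * μ * l⁻¹) * l⁻¹ := by group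
    _ = _ := by rw [← k]; group

theorem top_sub : Bri n ⊆ Cn n := fun a m =>
  ⟨m.1, fun z => by have := m.2; simp [z] at this⟩

theorem top_toB (hn : n ≠ 0) : MapsTo (toB n) (Cn n) (Bri n) := fun a m =>
  ⟨by rw [toB, scl_eq hn, m.1, smul_zero], toB_norm hn m.2⟩

theorem top_lp {γ : ℝ → C3} (L : Lp (Bri n) γ) : Lp (Cn n) γ :=
  ⟨L.1, fun t => top_sub (L.2.1 t), L.2.2⟩

theorem top_free (hn : n ≠ 0) (C : Cls (Cn n) o c) {γ γ' : ℝ → C3} (L : Lp (Bri n) γ)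
    (L' : Lp (Bri n) γ') (J : JoinedIn (Cn n) o (γ 0)) (J' : JoinedIn (Cn n) o (γ' 0))
    (k : IsConj (c γ 0 1) (c γ' 0 1)) : Hl (Bri n) γ γ' := by
  have H := (C.free γ γ' (top_lp L) (top_lp L') J J' k).map
    ((toB_contDiffOn hn).continuousOn.mono fun a m => m.2) (top_toB hn)
  have e : ∀ δ : ℝ → C3, Lp (Bri n) δ → toB n ∘ δ = δ := fun δ M =>
    funext fun t => toB_self hn (M.2.1 t).2
  rwa [e γ L, e γ' L'] at H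

theorem top_word {d : JD} (hd : d.OK) (hn : (d.n : ℤ) = 6 * σ + ε) (hε : ε = 1 ∨ ε = -1)
    (C : Cls (Cn d.n) o c) (S : Sys c σ ε ρ ρ' l μ h) (W : WL i e b η)
    (z : (d.i₁ - σ * d.e₁) * (2 - i) + (d.i₂ - σ * d.e₂) * ((4 - i) * i - 1 - i) = 0) :
    Lp (Bri d.n) (d.lp i η) ∧ JoinedIn (Cn d.n) (pG σ ε 0) (d.lp i η 0) ∧
      IsConj (c (d.lp i η) 0 1)
        (l ^ e * μ ^ b * l * μ ^ (-b) * l ^ (-e) * μ ^ (-(i : ℤ)) * h ^ (0 : ℤ)) := by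
  obtain ⟨L, v, cv, pv, ev⟩ := lp_lift hd hn hε W
  rw [z] at pv
  refine ⟨L, ?_, S.word C W (top_lp L) cv pv fun t => (ev t).2⟩
  rw [(ev 0).2]
  exact pG_joined hn hε (ev 0).1

theorem top_s (s : ℤ) : ∃ (σ : ℕ) (ε : ℤ), (((jS s).n : ℕ) : ℤ) = 6 * σ + ε ∧ (ε = 1 ∨ ε = -1) ∧
    ε * σ = s ∧ ((jS s).i₁ - σ * (jS s).e₁) * (2 - (2 : ℕ)) +
      ((jS s).i₂ - σ * (jS s).e₂) * ((4 - (2 : ℕ)) * (2 : ℕ) - 1 - (2 : ℕ)) = 0 := by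
  rcases le_or_gt 0 s with p | p
  · exact ⟨s.natAbs, 1, by simp only [jS]; omega, Or.inl rfl, by omega, by simp [jS]⟩
  · exact ⟨s.natAbs, -1, by simp only [jS]; omega, Or.inr rfl, by omega, by simp [jS]⟩

theorem top_sys (hn : (n : ℤ) = 6 * σ + ε) (hε : ε = 1 ∨ ε = -1) :
    ∃ (Γ : Type) (_ : Group Γ) (c : (ℝ → C3) → ℝ → ℝ → Γ) (ρ ρ' : ℂ × ℂ → Γ) (l μ h : Γ),
      Cls (Cn n) (pG σ ε 0) c ∧ Sys c σ ε ρ ρ' l μ h := by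
  obtain ⟨Γ, _, c, C⟩ := exists_cls (Cn n) (pG σ ε 0) (pG_mem hn hε (by norm_num))
  obtain ⟨ρ, ρ', l, μ, h, S⟩ := exists_sys hn hε C
  exact ⟨Γ, _, c, ρ, ρ', l, μ, h, C, S⟩

theorem lp_shift (s : ℤ) (h : WL 2 1 b η) (h' : WL 2 1 (b + (6 * s + 1)) η') :
    Hl (Bri (jS s).n) ((jS s).lp 2 η) ((jS s).lp 2 η') := by
  obtain ⟨σ, ε, hn, hε, hs, z⟩ := top_s s
  obtain ⟨Γ, _, c, ρ, ρ', l, μ, g, C, S⟩ := top_sys hn hε
  obtain ⟨L, J, k⟩ := top_word (jS_ok s) hn hε C S h z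
  obtain ⟨L', J', k'⟩ := top_word (jS_ok s) hn hε C S h' z
  refine top_free (jS_ok s).1 C L L' J J' (k.trans (IsConj.symm ?_))
  have p := (passn hn hε C S).1
  rw [hs] at p
  have q : μ ^ (6 * s + 1) * l = l * μ ^ (6 * s + 1) := by
    rw [p]; exact (S.comm.1.zpow_left s).eq
  have r : μ ^ (b + (6 * s + 1)) * l * μ ^ (-(b + (6 * s + 1))) = μ ^ b * l * μ ^ (-b) := by
    rw [zpow_add, mul_assoc (μ ^ b), q]; group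
  convert k' using 1
  simp only [mul_assoc] at r ⊢
  rw [← mul_assoc (μ ^ b), ← mul_assoc (μ ^ b * l), ← mul_assoc (μ ^ (b + _)),
    ← mul_assoc (μ ^ (b + _) * l), mul_assoc (μ ^ b), mul_assoc (μ ^ (b + _)), r]

theorem lp_real (s : ℤ) {k : ℝ → C3} (c : Continuous k) (p : ∀ t, k (t + 1) = k t)
    (j : ∀ t t', k t = k t' → ∃ n : ℤ, t' = t + n)
    (r : range k = {a | a ∈ Bri (jS s).n ∧ star a = a}) : ∃ b : ℤ, ∀ η, WL 2 1 b η →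
      Hl (Bri (jS s).n) ((jS s).lp 2 η) k ∨ Hl (Bri (jS s).n) ((jS s).lp 2 η) fun t => k (-t) := by
  refine ⟨-(3 * s), fun η W => Or.inl ?_⟩
  obtain ⟨σ, ε, hn, hε, hs, z⟩ := top_s s
  obtain ⟨Γ, _, c', ρ, ρ', l, μ, g, C, S⟩ := top_sys hn hε
  obtain ⟨L, J, e⟩ := top_word (jS_ok s) hn hε C S W z
  have n0 := (jS_ok s).1
  have m : ∀ t, k t ∈ Bri (jS s).n ∧ star (k t) = k t := fun t => r.subset (mem_range_self t)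
  have L' : Lp (Bri (jS s).n) k := ⟨c, fun t => (m t).1, p⟩
  have K : KP (jS s).n k := by
    refine ⟨top_lp L', fun t => (m t).2, fun t t' x q => j t t' ?_, fun a ma ra => ?_⟩
    · rw [← toB_self n0 (m t').1.2, q, toB_scl n0 x (top_sub (m t).1).2, toB_self n0 (m t).1.2]
    · obtain ⟨t, ht⟩ := r.superset (⟨top_toB n0 ma, by rw [← toB_star, ra]⟩ :
        toB (jS s).n a ∈ {a | a ∈ Bri (jS s).n ∧ star a = a})
      exact ⟨t, _, ht⟩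
  obtain ⟨J', e'⟩ := ktilde hn hε C S K
  rw [hs] at e'
  exact top_free n0 C L L' J J' (e.trans (e'.trans
    (top_real (pass3 hn hε C S).1 (pass2 hn hε C S).1 S.comm.2 (3 * s))).symm)

theorem lp_base : ∃ b : ℤ, ∀ η η', WL 2 1 b η → WL 1 0 0 η' →
    Hl (Bri 5) (jA.lp 1 η') ((jS (-1)).lp 2 η) ∨
      Hl (Bri 5) (fun t => jA.lp 1 η' (-t)) ((jS (-1)).lp 2 η) := by
  refine ⟨0, fun η η' W W' => Or.inl ?_⟩
  have hn : ((5 : ℕ) : ℤ) = 6 * (1 : ℕ) + (-1) := by norm_num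
  have hε : (-1 : ℤ) = 1 ∨ (-1 : ℤ) = -1 := Or.inr rfl
  obtain ⟨Γ, _, c, ρ, ρ', l, μ, g, C, S⟩ := top_sys hn hε
  obtain ⟨L, J, e⟩ := top_word (d := jS (-1)) (jS_ok (-1)) hn hε C S W (by simp [jS])
  obtain ⟨L', J', e'⟩ := top_word (d := jA) jA_ok hn hε C S W' (by simp [jA])
  exact top_free (n := 5) (by norm_num) C L' L J' J ((e'.trans
    (top_base (pass3 hn hε C S).1 (pass2 hn hε C S).1 (passn hn hε C S).1)).trans e.symm)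

end Pool.Agent.Lib.MP_b2e238_gt
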