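import Pool.Agent.Lib.MP_b2e238_gt.P.WL
import Pool.Agent.Lib.MP_b2e238_gt.B.CO

/-! Winding numbers of the gauge functions along a word loop. -/

open scoped Topology ContDiff
open Set Complex

noncomputable section

namespace Pool.Agent.Lib.MP_b2e238_gt

variable {i : ℕ} {e b : ℤ} {η : ℝ → ℂ}

theorem Wn.ph {a : ℝ → ℂ} {k : ℤ} (h : Wn a k) : Wn (fun t => ph (a t)) k := by
  have hn : ∀ t, ((‖a t‖ : ℝ) : ℂ) ≠ 0 := fun t => ofReal_ne_zero.2 (norm_ne_zero_iff.2 (h.ne t))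
  refine h.of_slit (h.cont.div (continuous_ofReal.comp h.cont.norm) hn)
    (fun t => by simp only [h.per]) fun t => ?_
  have : MP_b2e238_gt.ph (a t) / a t = ((‖a t‖⁻¹ : ℝ) : ℂ) := by
    have := h.ne t
    rw [MP_b2e238_gt.ph, ofReal_inv]
    field_simp
  rw [this]
  exact ofReal_mem_slitPlane.2 (inv_pos.2 (norm_pos_iff.2 (h.ne t)))

theorem win_cut (a b : ℝ) : Continuous (cut a b) :=
  Real.smoothTransition.continuous.comp (by fun_prop)

theorem win_lam {z : ℂ} (h : z ∈ CC) : lam z / (1 + z) ∈ slitPlane := by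
  have h1 : 1 + z ≠ 0 := fun e => h (.inr (eq_neg_of_add_eq_zero_right e))
  by_contra hs
  rw [mem_slitPlane_iff, not_or, not_lt, not_not] at hs
  obtain ⟨r, hr, e⟩ : ∃ r : ℝ, 0 ≤ r ∧ lam z / (1 + z) = -r :=
    ⟨-(lam z / (1 + z)).re, neg_nonneg.2 hs.1, Complex.ext (by simp) (by simpa using hs.2)⟩
  rw [div_eq_iff h1, lam] at e
  have a0 : 0 ≤ cut 4 9 (‖z‖ ^ 2) := Real.smoothTransition.nonneg _
  have a1 : cut 4 9 (‖z‖ ^ 2) ≤ 1 := Real.smoothTransition.le_one _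
  have b0 : 0 ≤ cut (1 / 9) (1 / 4) (‖z‖ ^ 2) := Real.smoothTransition.nonneg _
  have b1 : cut (1 / 9) (1 / 4) (‖z‖ ^ 2) ≤ 1 := Real.smoothTransition.le_one _
  have c0 : ‖z‖ ≤ 1 → cut 4 9 (‖z‖ ^ 2) = 0 := fun hz =>
    Real.smoothTransition.zero_of_nonpos (div_nonpos_of_nonpos_of_nonneg
      (by nlinarith [norm_nonneg z]) (by norm_num))
  have c1 : 1 ≤ ‖z‖ → cut (1 / 9) (1 / 4) (‖z‖ ^ 2) = 1 := fun hz =>
    Real.smoothTransition.one_of_one_le (by rw [le_div_iff₀ (by norm_num)]; nlinarith)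
  generalize cut 4 9 (‖z‖ ^ 2) = α at *
  generalize cut (1 / 9) (1 / 4) (‖z‖ ^ 2) = β at *
  have e1 : ((1 - α + r : ℝ) : ℂ) = -(((β + r : ℝ) : ℂ) * z) := by
    push_cast at e ⊢; linear_combination e
  have e2 : 1 - α + r = (β + r) * ‖z‖ := by
    have := congrArg norm e1
    rwa [norm_neg, norm_mul, norm_real, norm_real, Real.norm_of_nonneg (by linarith),
      Real.norm_of_nonneg (by linarith)] at this
  have e3 : α = 0 ∧ β = 1 := by
    rcases le_total ‖z‖ 1 with hz | hz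
    · exact ⟨c0 hz, by have := c0 hz; nlinarith⟩
    · exact ⟨by have := c1 hz; nlinarith, c1 hz⟩
  rw [e3.1, e3.2, sub_zero] at e1
  have e4 : ((1 + r : ℝ) : ℂ) ≠ 0 := ofReal_ne_zero.2 (by linarith)
  exact mul_ne_zero e4 h1 (by linear_combination e1)

theorem win_re (z : ℂ) : 0 < (1 + (cut 4 9 (‖z‖ ^ 2) : ℝ) / z).re := by
  rcases le_or_gt ‖z‖ 2 with hz | hz
  · have : cut 4 9 (‖z‖ ^ 2) = 0 := Real.smoothTransition.zero_of_nonpos
      (div_nonpos_of_nonpos_of_nonneg (by nlinarith [norm_nonneg z]) (by norm_num))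
    simp [this]
  · refine co_re ?_
    have a0 : 0 ≤ cut 4 9 (‖z‖ ^ 2) := Real.smoothTransition.nonneg _
    have a1 : cut 4 9 (‖z‖ ^ 2) ≤ 1 := Real.smoothTransition.le_one _
    rw [norm_div, norm_real, Real.norm_of_nonneg a0, div_lt_iff₀ (by linarith)]
    linarith

theorem win_sq {a : ℝ → ℂ} (ha : Continuous a) (h : ∀ t, a t ∈ slitPlane)
    (per : ∀ t, a (t + 1) = a t) : Wn (fun t => sq (a t)) 0 :=
  ⟨fun t => log (a t) * 2⁻¹, (ha.clog h).mul continuous_const,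
    fun t => (cpow_def_of_ne_zero (slitPlane_ne_zero (h t)) _).symm, fun t => by simp [per]⟩

theorem WL.gauge (h : WL i e b η) : Wn (fun t => gA (η t)) (-1) ∧
    (∀ k : ℤ, Wn (fun t => gB k (η t)) (k * i - 1 - i)) ∧
    Wn (fun t => wz (η t) (ex t)) (2 - i) := by
  obtain ⟨c, m, p, w, w1⟩ := h.facts
  have cc : ∀ a b, Continuous fun t => cut a b (‖η t‖ ^ 2) := fun a b =>
    (win_cut a b).comp (c.norm.pow 2)
  have wl : Wn (fun t => lam (η t)) i := w1.of_slit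
    ((continuous_ofReal.comp (continuous_const.sub (cc _ _))).add
      ((continuous_ofReal.comp (cc _ _)).mul c)) (fun t => by simp only [p]) fun t => win_lam (m t)
  have ws := win_sq (a := fun t => 1 + (cut 4 9 (‖η t‖ ^ 2) : ℝ) / η t)
    (continuous_const.add ((continuous_ofReal.comp (cc _ _)).div c w.ne))
    (fun t => .inl (win_re _)) fun t => by simp only [p]
  have wa : Wn (fun t => gA (η t)) (-1) := by
    have := (wl.ph.mul ws.ph).div w.ph
    rwa [show (i : ℤ) + 0 - (1 + i) = -1 by ring] at this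
  refine ⟨wa, fun k => ?_, ?_⟩
  · have := (wl.ph.zpow k).div w.ph
    rwa [← sub_sub] at this
  · have we : Wn ex 1 := (wn_apxE 1).congr fun t => by rw [Int.cast_one, one_mul]; rfl
    have := ((((wn_cst (neg_ne_zero.2 one_ne_zero)).mul ((we.mul wa).pow 6)).mul
      (w.ph.pow 2)).div (w1.ph.pow 3))
    rw [show (0 : ℤ) + (6 : ℕ) * (1 + -1) + (2 : ℕ) * (1 + i) - (3 : ℕ) * i = 2 - i by
      push_cast; ring] at this
    exact this.congr fun t => by rw [wz, neg_one_mul]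

end Pool.Agent.Lib.MP_b2e238_gt
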