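import Pool.Agent.Lib.MP_b2e238_gt.K.Defs
import Pool.Agent.Lib.MP_b2e238_gt.B.BriY

/-! Classes of paths, potentials on simply connected charts, the regular part of the cone. -/

open scoped Topology
open Set Complex

noncomputable section

namespace Pool.Agent.Lib.MP_b2e238_gt

variable {V : Type} [NormedAddCommGroup V] [NormedSpace ℝ V] {Γ : Type} [Group Γ]

/-- Loops of period one in `A`. -/
def Lp (A : Set V) (γ : ℝ → V) : Prop :=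
  Continuous γ ∧ (∀ t, γ t ∈ A) ∧ ∀ t, γ (t + 1) = γ t

/-- The class of a path that lifts to the chart `f` depends on the ends of the lift only. -/
def Pot (c : (ℝ → V) → ℝ → ℝ → Γ) (f : ℂ × ℂ → V) (S : Set (ℂ × ℂ)) (ρ : ℂ × ℂ → Γ) : Prop :=
  ∀ (γ : ℝ → V) (u : ℝ → ℂ × ℂ) (a b : ℝ), ContinuousOn u (uIcc a b) → MapsTo u (uIcc a b) S →
    (∀ t ∈ uIcc a b, γ t = f (u t)) → c γ a b = (ρ (u a))⁻¹ * ρ (u b)

/-- `c γ a b` is the class of the path `γ` from the time `a` to the time `b`, closed up by fixed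
paths to the base point `o`. -/
structure Cls (A : Set V) (o : V) (c : (ℝ → V) → ℝ → ℝ → Γ) : Prop where
  pot : ∀ (S : Set (ℂ × ℂ)) (x : ℂ × ℂ) (f : ℂ × ℂ → V), x ∈ S → StarConvex ℝ x S →
    ContinuousOn f S → MapsTo f S A → ∃ ρ, Pot c f S ρ
  free : ∀ γ γ' : ℝ → V, Lp A γ → Lp A γ' → JoinedIn A o (γ 0) → JoinedIn A o (γ' 0) →
    IsConj (c γ 0 1) (c γ' 0 1) → Hl A γ γ'

/-- The punctured cone over the Brieskorn sphere. -/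
def Cn (n : ℕ) : Set (ℂ × ℂ × ℂ) := {a | a.1 ^ 2 + a.2.1 ^ 3 + a.2.2 ^ n = 0 ∧ a ≠ 0}

/-- From the complement of the cusp to the cone, `n = 6 σ + ε`. -/
def pI (σ : ℕ) (ε : ℤ) (X Y : ℂ) : ℂ × ℂ × ℂ :=
  (X * ((-(X ^ 2 + Y ^ 3)) ^ ε) ^ (3 * σ), Y * ((-(X ^ 2 + Y ^ 3)) ^ ε) ^ (2 * σ),
    (-(X ^ 2 + Y ^ 3)) ^ ε)

/-- The point with `y ^ 3 / z ^ n = exp u.1` and `x / (y * z ^ σ) = exp u.2`. -/
def pG (σ : ℕ) (ε : ℤ) (u : ℂ × ℂ) : ℂ × ℂ × ℂ :=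
  pI σ ε (exp (3 * u.2) * (-exp u.1 / (1 + exp u.1))) (exp (2 * u.2) * (-exp u.1 / (1 + exp u.1)))

/-- `2 π i`. -/
def tpi : ℂ := 2 * Real.pi * I

/-- The left half plane with the middle strip. -/
def pL : Set (ℂ × ℂ) := {u | u.1.re < 0 ∨ |u.1.im| < Real.pi}

/-- The right half plane with the middle strip. -/
def pR : Set (ℂ × ℂ) := {u | 0 < u.1.re ∨ |u.1.im| < Real.pi}

/-- The two potentials of the regular part; `l` goes round the orbit `y = 0`, `μ` round `z = 0`,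
`h` is the regular orbit. -/
structure Sys (c : (ℝ → ℂ × ℂ × ℂ) → ℝ → ℝ → Γ) (σ : ℕ) (ε : ℤ) (ρ ρ' : ℂ × ℂ → Γ) (l μ h : Γ) :
    Prop where
  potL : Pot c (pG σ ε) pL ρ
  potR : Pot c (pG σ ε) pR ρ'
  mid : ∀ w v : ℂ, |w.im| < Real.pi → ρ (w, v) = ρ' (w, v)
  dL : ∀ w v : ℂ, w.re < 0 → ρ (w + tpi, v) = l * ρ (w, v)
  dR : ∀ w v : ℂ, 0 < w.re → ρ' (w + tpi, v) = μ⁻¹ * ρ' (w, v)
  hL : ∀ w v : ℂ, (w, v) ∈ pL → ρ (w, v + tpi) = h * ρ (w, v)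
  hR : ∀ w v : ℂ, (w, v) ∈ pR → ρ' (w, v + tpi) = h * ρ' (w, v)

/-- A path of real points of the cone. -/
def RP (n : ℕ) (γ : ℝ → ℂ × ℂ × ℂ) (a b : ℝ) : Prop :=
  ContinuousOn γ (uIcc a b) ∧ ∀ t ∈ uIcc a b, γ t ∈ Cn n ∧ star (γ t) = γ t

/-- The lift `(r + j π i, q + m π i)`. -/
def st (r : ℝ) (j : ℤ) (q : ℝ) (m : ℤ) : ℂ × ℂ :=
  (r + j * Real.pi * I, q + m * Real.pi * I)

/-- `k` runs once through the real rays of the cone. -/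
structure KP (n : ℕ) (k : ℝ → ℂ × ℂ × ℂ) : Prop where
  lp : Lp (Cn n) k
  real : ∀ t, star (k t) = k t
  inj : ∀ t t' r : ℝ, k t' = scl n r (k t) → ∃ j : ℤ, t' = t + j
  surj : ∀ a ∈ Cn n, star a = a → ∃ t r : ℝ, k t = scl n r a

/-- The angle on the real rays. -/
def pA (n : ℕ) (a : ℂ × ℂ × ℂ) : ℂ := (a.2.1 ^ 3 - a.2.2 ^ n) / 2 + I * a.1 * ‖a.1‖

/-- The circle action, period one. -/
def act (n : ℕ) (θ : ℝ) (a : ℂ × ℂ × ℂ) : ℂ × ℂ × ℂ :=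
  (ex (3 * n * θ) * a.1, ex (2 * n * θ) * a.2.1, ex (6 * θ) * a.2.2)

end Pool.Agent.Lib.MP_b2e238_gt
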