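import Pool.Agent.Lib.MP_b2e238_gt.P.Sys

/-! The orbit `y = 0`. -/

open scoped Topology ContDiff
open Set Complex

noncomputable section

namespace Pool.Agent.Lib.MP_b2e238_gt

variable {Γ : Type} [Group Γ]
variable {n σ : ℕ} {ε : ℤ} {o : ℂ × ℂ × ℂ} {c : (ℝ → ℂ × ℂ × ℂ) → ℝ → ℝ → Γ} {ρ ρ' : ℂ × ℂ → Γ}
  {l μ h : Γ}

/-- Real functions without zeros keep their sign. -/
theorem f3_pos {g : ℝ → ℂ} {a b : ℝ} (k : ContinuousOn g (uIcc a b))
    (r : ∀ t ∈ uIcc a b, star (g t) = g t) (z : ∀ t ∈ uIcc a b, g t ≠ 0) (p : 0 < (g a).re) :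
    ∀ t ∈ uIcc a b, 0 < (g t).re ∧ (g t).im = 0 := fun t ht => by
  refine ⟨?_, conj_eq_iff_im.1 (r t ht)⟩
  by_contra q
  have s : uIcc a t ⊆ uIcc a b := uIcc_subset_uIcc left_mem_uIcc ht
  obtain ⟨x, hx, e⟩ := intermediate_value_uIcc (f := fun t => (g t).re)
    (continuous_re.comp_continuousOn (k.mono s))
    (show (0 : ℝ) ∈ uIcc (g a).re (g t).re from mem_uIcc.2 (.inr ⟨not_lt.1 q, p.le⟩))
  exact z x (s hx) (Complex.ext e (conj_eq_iff_im.1 (r x (s hx))))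

theorem f3_pI (σ : ℕ) (ε : ℤ) {X Y : ℂ} (k : X ^ 2 + Y ^ 3 ≠ 0) :
    (pI σ ε X Y).1 / (pI σ ε X Y).2.2 ^ (3 * σ) = X ∧
      (pI σ ε X Y).2.1 / (pI σ ε X Y).2.2 ^ (2 * σ) = Y :=
  have : (-(X ^ 2 + Y ^ 3)) ^ ε ≠ 0 := zpow_ne_zero _ (neg_ne_zero.2 k)
  ⟨mul_div_cancel_right₀ _ (pow_ne_zero _ this), mul_div_cancel_right₀ _ (pow_ne_zero _ this)⟩

/-- The domain of the chart. -/
def f3T : Set (ℂ × ℂ) := {u | 1 + u.1 ^ 3 ∈ slitPlane}

/-- The chart. -/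
def f3C (σ : ℕ) (ε : ℤ) (u : ℂ × ℂ) : ℂ × ℂ × ℂ := pI σ ε (exp u.2) (u.1 * exp (2 * u.2 / 3))

/-- The logarithm of `-exp w / (1 + exp w)`. -/
def f3L (w : ℂ) : ℂ := w + Real.pi * I - log (1 + exp w)

/-- The change of charts. -/
def f3P (u : ℂ × ℂ) : ℂ × ℂ := (exp (f3L u.1 / 3), 3 * u.2 + f3L u.1)

/-- The deck map. -/
def f3D (u : ℂ × ℂ) : ℂ × ℂ := (exp (tpi / 3) * u.1, u.2 + tpi)

theorem f3_tpi : exp tpi = 1 := exp_two_pi_mul_I

theorem f3_cube (z : ℂ) : exp (z / 3) ^ 3 = exp z := by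
  rw [← exp_nat_mul]
  congr 1
  push_cast
  ring

theorem f3_sum (u : ℂ × ℂ) :
    exp u.2 ^ 2 + (u.1 * exp (2 * u.2 / 3)) ^ 3 = exp u.2 ^ 2 * (1 + u.1 ^ 3) := by
  rw [mul_pow, f3_cube, two_mul, exp_add]
  ring

theorem f3_ne {u : ℂ × ℂ} (k : u ∈ f3T) : exp u.2 ^ 2 + (u.1 * exp (2 * u.2 / 3)) ^ 3 ≠ 0 :=
  f3_sum u ▸ mul_ne_zero (pow_ne_zero _ (exp_ne_zero _)) (slitPlane_ne_zero k)

theorem f3_star : StarConvex ℝ 0 f3T := fun y hy a b _ hb hab => by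
  have h3 : b ^ 3 ≤ 1 := pow_le_one₀ hb (by linarith)
  have := starConvex_one_slitPlane hy (sub_nonneg.2 h3) (pow_nonneg hb 3) (sub_add_cancel _ _)
  change _ ∈ slitPlane
  convert this using 1
  simp
  ring

theorem f3_exp {w : ℂ} (k : 1 + exp w ≠ 0) : exp (f3L w) = -exp w / (1 + exp w) := by
  rw [f3L, exp_sub, exp_add, exp_pi_mul_I, exp_log k, mul_neg_one]

theorem f3_one {w : ℂ} (k : 1 + exp w ≠ 0) : 1 + exp (f3L w / 3) ^ 3 = (1 + exp w)⁻¹ := by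
  rw [f3_cube, f3_exp k]
  field_simp
  ring

theorem f3_map : MapsTo f3P pL f3T := fun u k => by
  have := pL_slit k
  change 1 + exp (f3L u.1 / 3) ^ 3 ∈ slitPlane
  rw [f3_one (slitPlane_ne_zero this)]
  rw [mem_slitPlane_iff] at this ⊢
  have p := normSq_pos.2 (slitPlane_ne_zero (pL_slit k))
  rw [inv_re, inv_im]
  exact this.imp (fun a => div_pos a p) fun a => div_ne_zero (neg_ne_zero.2 a) p.ne'

theorem f3_cont : ContinuousOn f3P pL := by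
  have : ContinuousOn (fun u : ℂ × ℂ => f3L u.1) pL :=
    ContinuousOn.sub (by fun_prop) (ContinuousOn.clog (by fun_prop) fun _ k => pL_slit k)
  exact (this.div_const 3).cexp.prodMk (ContinuousOn.add (by fun_prop) this)

theorem f3_eq (σ : ℕ) (ε : ℤ) {u : ℂ × ℂ} (k : u ∈ pL) : pG σ ε u = f3C σ ε (f3P u) := by
  unfold pG f3C f3P
  rw [← f3_exp (slitPlane_ne_zero (pL_slit k)), ← exp_add, ← exp_add, ← exp_add]
  congr 2
  ring

theorem f3_deck (σ : ℕ) (ε : ℤ) (u : ℂ × ℂ) : f3C σ ε u = f3C σ ε (f3D u) := by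
  unfold f3C f3D
  rw [exp_add, f3_tpi, mul_one, mul_comm (exp _) u.1, mul_assoc, ← exp_add,
    show tpi / 3 + 2 * (u.2 + tpi) / 3 = 2 * u.2 / 3 + tpi by ring, exp_add, f3_tpi, mul_one]

theorem f3_dmap : MapsTo f3D f3T f3T := fun u k => by
  change 1 + (exp (tpi / 3) * u.1) ^ 3 ∈ slitPlane
  rwa [mul_pow, f3_cube, f3_tpi, one_mul]

theorem f3_sys (hn : (n : ℤ) = 6 * σ + ε) (hε : ε = 1 ∨ ε = -1) (C : Cls (Cn n) o c)
    (S : Sys c σ ε ρ ρ' l μ h) : ∃ τ : ℂ × ℂ → Γ, Pot c (f3C σ ε) f3T τ ∧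
      (∀ u ∈ pL, ρ u = τ (f3P u)) ∧ (∀ u ∈ f3T, τ (f3D u) = l * τ u) ∧ l ^ 3 = h := by
  have z : (0 : ℂ × ℂ) ∈ f3T := by simp [f3T]
  obtain ⟨τ₀, t₀⟩ := C.pot f3T 0 (f3C σ ε) z f3_star ((pI_cont σ ε).comp
    (f := fun u : ℂ × ℂ => (exp u.2, u.1 * exp (2 * u.2 / 3))) (by fun_prop) fun _ k => f3_ne k)
    fun _ k => pI_mem hn hε (f3_ne k)
  have x : ((-1 : ℂ), (0 : ℂ)) ∈ pL := .inl (by simp)
  have e := S.potL.uniq (t₀.comp f3_cont f3_map fun _ k => f3_eq σ ε k) star_pL x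
  generalize ρ (-1, 0) * (τ₀ (f3P (-1, 0)))⁻¹ = g at e
  have t := t₀.mul g
  have d := (t.comp (show Continuous f3D by unfold f3D; fun_prop).continuousOn f3_dmap
    fun u _ => f3_deck σ ε u).uniq t f3_star z
  generalize g * τ₀ (f3D 0) * (g * τ₀ 0)⁻¹ = d' at d
  have m := f3_map x
  have a : d' = l := by
    have := S.dL (-1) 0 (by simp)
    rw [e _ x, e _ (.inl (by simp [tpi])), show f3P (-1 + tpi, 0) = f3D (f3P (-1, 0)) by
      simp only [f3P, f3D, f3L, exp_add _ tpi, f3_tpi, mul_one, ← exp_add]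
      exact Prod.ext (congrArg exp (by ring)) (by ring), d _ m] at this
    exact mul_right_cancel this
  subst a
  refine ⟨_, t, e, d, ?_⟩
  have := S.hL (-1) 0 x
  rw [e _ x, e (-1, 0 + tpi) x, show f3P (-1, 0 + tpi) = f3D (f3D (f3D (f3P (-1, 0)))) by
    have := f3_cube tpi
    rw [f3_tpi] at this
    refine Prod.ext ?_ ?_ <;> simp only [f3P, f3D]
    · linear_combination -exp (f3L (-1) / 3) * this
    · ring, d _ (f3_dmap (f3_dmap m)), d _ (f3_dmap m), d _ m, ← mul_assoc, ← mul_assoc] at this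
  rw [← mul_right_cancel this, pow_three']

theorem pass3 (hn : (n : ℤ) = 6 * σ + ε) (hε : ε = 1 ∨ ε = -1) (C : Cls (Cn n) o c)
    (S : Sys c σ ε ρ ρ' l μ h) : l ^ 3 = h ∧
    ∀ (γ : ℝ → ℂ × ℂ × ℂ) (a b r q r' q' : ℝ) (m : ℤ), RP n γ a b →
      (∀ t ∈ uIcc a b, (γ t).1 ≠ 0 ∧ (γ t).2.2 ≠ 0) → r < 0 → γ a = pG σ ε (st r 1 q m) →
      γ b = pG σ ε (st r' 0 q' (m + 1)) →
      c γ a b = (ρ (st r 1 q m))⁻¹ * l⁻¹ * ρ (st r' 0 q' (m + 1)) := by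
  obtain ⟨τ, t, e, d, l3⟩ := f3_sys hn hε C S
  refine ⟨l3, fun γ a b r q r' q' m ⟨k, R⟩ z hr ea eb => ?_⟩
  have ma : st r 1 q m ∈ pL := .inl (by simpa [st] using hr)
  have mb : st r' 0 q' (m + 1) ∈ pL := .inr (by simpa [st] using Real.pi_pos)
  have pa : 0 < 1 - Real.exp r := sub_pos.2 (Real.exp_lt_one_iff.2 hr)
  have wa : 1 + exp (st r 1 q m).1 = (1 - Real.exp r : ℝ) := by
    simp [st, exp_add, sub_eq_add_neg]
  have wb : 1 + exp (st r' 0 q' (m + 1)).1 = (1 + Real.exp r' : ℝ) := by simp [st]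
  have im : (f3P (st r' 0 q' (m + 1))).2.im = (f3P (st r 1 q m)).2.im + 2 * Real.pi := by
    simp only [f3P, f3L, wa, wb, add_im, sub_im, log_im, arg_ofReal_of_nonneg pa.le,
      arg_ofReal_of_nonneg (show 0 ≤ 1 + Real.exp r' by positivity)]
    simp [st]
    ring
  have one : 0 < (1 + (f3P (st r 1 q m)).1 ^ 3).re := by
    change 0 < (1 + exp (f3L _ / 3) ^ 3).re
    rw [f3_one (slitPlane_ne_zero (pL_slit ma)), wa, ← ofReal_inv, ofReal_re]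
    exact inv_pos.2 pa
  rw [f3_eq σ ε ma] at ea
  rw [f3_eq σ ε mb] at eb
  rw [e _ ma, e _ mb]
  have na := f3_map ma
  have nb := f3_map mb
  generalize f3P (st r 1 q m) = A at *
  generalize f3P (st r' 0 q' (m + 1)) = B at *
  obtain ⟨X, hX⟩ : ∃ X : ℝ → ℂ, X = fun t => (γ t).1 / (γ t).2.2 ^ (3 * σ) := ⟨_, rfl⟩
  obtain ⟨Y, hY⟩ : ∃ Y : ℝ → ℂ, Y = fun t => (γ t).2.1 / (γ t).2.2 ^ (2 * σ) := ⟨_, rfl⟩
  have cX : ContinuousOn X (uIcc a b) :=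
    hX ▸ k.fst.div (k.snd.snd.pow _) fun t ht => pow_ne_zero _ (z t ht).2
  have cY : ContinuousOn Y (uIcc a b) :=
    hY ▸ k.snd.fst.div (k.snd.snd.pow _) fun t ht => pow_ne_zero _ (z t ht).2
  have zX (t) (ht : t ∈ uIcc a b) : X t ≠ 0 :=
    hX ▸ div_ne_zero (z t ht).1 (pow_ne_zero _ (z t ht).2)
  have rX (t) (ht : t ∈ uIcc a b) : star (X t) = X t ∧ star (Y t) = Y t := by
    have h1 : star (γ t).1 = _ := congrArg (·.1) (R t ht).2
    have h2 : star (γ t).2.1 = _ := congrArg (·.2.1) (R t ht).2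
    have h3 : star (γ t).2.2 = _ := congrArg (·.2.2) (R t ht).2
    simp only [hX, hY, star_div₀, star_pow, h1, h2, h3, and_self]
  have iv (t) (ht : t ∈ uIcc a b) : X t ^ 2 + Y t ^ 3 ≠ 0 ∧ pI σ ε (X t) (Y t) = γ t := by
    rw [hX, hY]
    exact pI_inv hn hε (R t ht).1 (z t ht).2
  have xa : X a = exp A.2 ∧ Y a = A.1 * exp (2 * A.2 / 3) := by
    rw [hX, hY]
    beta_reduce
    rw [ea]
    exact f3_pI σ ε (f3_ne na)
  have xb : X b = exp B.2 ∧ Y b = B.1 * exp (2 * B.2 / 3) := by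
    rw [hX, hY]
    beta_reduce
    rw [eb]
    exact f3_pI σ ε (f3_ne nb)
  clear hX hY
  have za := zX a left_mem_uIcc
  have s := f3_pos (g := fun t => X t / X a) (cX.div_const _)
    (fun t ht => by rw [star_div₀, (rX t ht).1, (rX a left_mem_uIcc).1])
    (fun t ht => div_ne_zero (zX t ht) za) (by simp [div_self za])
  obtain ⟨α, cα, eα, iα, aα⟩ : ∃ α : ℝ → ℂ, ContinuousOn α (uIcc a b) ∧
      (∀ t ∈ uIcc a b, exp (α t) = X t) ∧ (α b).im = A.2.im ∧ α a = A.2 := by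
    refine ⟨fun t => A.2 + log (X t / X a), continuousOn_const.add
      ((cX.div_const _).clog fun t ht => .inl (s t ht).1), fun t ht => ?_, ?_, ?_⟩
    · rw [exp_add, exp_log (div_ne_zero (zX t ht) za), ← xa.1, mul_div_cancel₀ _ za]
    · have := s b right_mem_uIcc
      rw [add_im, log_im, arg_eq_zero_iff.2 ⟨this.1.le, this.2⟩, add_zero]
    · simp [div_self za]
  have cube (t) (ht : t ∈ uIcc a b) :
      1 + (Y t / exp (2 * α t / 3)) ^ 3 = (X t ^ 2 + Y t ^ 3) / X t ^ 2 := by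
    have := zX t ht
    rw [div_pow, f3_cube, two_mul, exp_add, eα t ht]
    field_simp
  have ua : (Y a / exp (2 * α a / 3), α a) = A := by
    rw [aα, xa.2, mul_div_cancel_right₀ _ (exp_ne_zero _)]
  have s' := f3_pos (g := fun t => (X t ^ 2 + Y t ^ 3) / X t ^ 2)
    (((cX.pow 2).add (cY.pow 3)).div (cX.pow 2) fun t ht => pow_ne_zero _ (zX t ht))
    (fun t ht => by simp only [star_div₀, star_add, star_pow, (rX t ht).1, (rX t ht).2])
    (fun t ht => div_ne_zero (iv t ht).1 (pow_ne_zero _ (zX t ht)))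
    (by rw [← cube a left_mem_uIcc]; rwa [← ua] at one)
  have mem (t) (ht : t ∈ uIcc a b) : (Y t / exp (2 * α t / 3), α t) ∈ f3T := by
    change 1 + (Y t / exp (2 * α t / 3)) ^ 3 ∈ slitPlane
    rw [cube t ht]
    exact .inl (s' t ht).1
  have ub : f3D (Y b / exp (2 * α b / 3), α b) = B := by
    have h1 : α b + tpi = B.2 := by
      refine Complex.ext ?_ (by rw [add_im, iα, im]; simp [tpi])
      have := congrArg (‖·‖) ((eα b right_mem_uIcc).trans xb.1)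
      simpa [tpi, norm_exp] using this
    refine Prod.ext ?_ h1
    change exp (tpi / 3) * (Y b / exp (2 * α b / 3)) = B.1
    rw [xb.2, ← h1, show 2 * (α b + tpi) / 3 = 2 * α b / 3 + (tpi - tpi / 3) by ring, exp_add,
      exp_sub, f3_tpi]
    field_simp
  rw [t γ (fun t => (Y t / exp (2 * α t / 3), α t)) a b
    ((cY.div ((cα.const_mul 2).div_const 3).cexp fun _ _ => exp_ne_zero _).prodMk cα) mem
    fun t ht => by
      rw [f3C, eα t ht, div_mul_cancel₀ _ (exp_ne_zero _), (iv t ht).2]]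
  rw [ua, ← ub, d _ (mem b right_mem_uIcc), mul_assoc, inv_mul_cancel_left]

end Pool.Agent.Lib.MP_b2e238_gt
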