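import Pool.Agent.Lib.MP_b2e238_gt.P.Defs

/-! Calculus of potentials, the regular part. -/

open scoped Topology ContDiff
open Set Complex

noncomputable section

namespace Pool.Agent.Lib.MP_b2e238_gt

variable {V : Type} [NormedAddCommGroup V] [NormedSpace ℝ V] {Γ : Type} [Group Γ]

variable {A : Set V} {o : V} {c : (ℝ → V) → ℝ → ℝ → Γ} {f f' : ℂ × ℂ → V} {S S' T : Set (ℂ × ℂ)}
  {ρ ρ' : ℂ × ℂ → Γ} {φ φ' : ℂ × ℂ → ℂ × ℂ}

omit [NormedAddCommGroup V] [NormedSpace ℝ V] in
theorem Pot.mul (h : Pot c f S ρ) (g : Γ) : Pot c f S fun u => g * ρ u := fun γ u a b k m e => by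
  rw [h γ u a b k m e]
  group

omit [NormedAddCommGroup V] [NormedSpace ℝ V] in
theorem Pot.mono (h : Pot c f S ρ) (k : T ⊆ S) : Pot c f T ρ := fun γ u a b l m e =>
  h γ u a b l (m.mono_right k) e

omit [NormedAddCommGroup V] [NormedSpace ℝ V] in
theorem Pot.comp (h : Pot c f S ρ) (k : ContinuousOn φ T) (m : MapsTo φ T S)
    (e : ∀ u ∈ T, f' u = f (φ u)) : Pot c f' T fun u => ρ (φ u) := fun γ u a b l m' e' =>
  h γ (φ ∘ u) a b (k.comp l m') (m.comp m') fun t ht => (e' t ht).trans (e _ (m' ht))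

omit [NormedAddCommGroup V] [NormedSpace ℝ V] in
/-- Two potentials of one chart differ by a constant on the left (use segments to `x`). -/
theorem Pot.uniq (h : Pot c f T ρ) (h' : Pot c f T ρ') {x : ℂ × ℂ} (s : StarConvex ℝ x T)
    (hx : x ∈ T) : ∀ u ∈ T, ρ u = ρ x * (ρ' x)⁻¹ * ρ' u := by
  intro y hy
  let u : ℝ → ℂ × ℂ := fun t => (1 - t) • x + t • y
  have k : ContinuousOn u (uIcc 0 1) := by fun_prop
  have m : MapsTo u (uIcc 0 1) T := fun t ht => by
    rw [uIcc_of_le zero_le_one] at ht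
    exact s hy (sub_nonneg.2 ht.2) ht.1 (sub_add_cancel _ _)
  have a := (h (f ∘ u) u 0 1 k m fun _ _ => rfl).symm.trans (h' (f ∘ u) u 0 1 k m fun _ _ => rfl)
  simp only [u, sub_zero, one_smul, zero_smul, add_zero, sub_self, zero_add] at a
  rw [mul_assoc, ← a, mul_inv_cancel_left]

theorem pot_line (h : Cls A o c) {γ : ℝ → V} (k : Continuous γ) (m : ∀ t, γ t ∈ A) :
    ∃ r : ℝ → Γ, ∀ θ : ℝ → ℝ, Continuous θ → ∀ a b, c (γ ∘ θ) a b = (r (θ a))⁻¹ * r (θ b) := by
  obtain ⟨ρ, p⟩ := h.pot univ 0 (fun u => γ u.1.re) trivial (starConvex_univ _) (by fun_prop)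
    fun _ _ => m _
  exact ⟨fun t => ρ (t, 0), fun θ kθ a b => p _ (fun t => (θ t, 0)) a b (by fun_prop)
    (mapsTo_univ _ _) fun t _ => by simp⟩

/-- `pot` with `f u = γ u.1.re`. -/
theorem Cls.trans (h : Cls A o c) {γ : ℝ → V} (k : Continuous γ) (m : ∀ t, γ t ∈ A) (a b d : ℝ) :
    c γ a b * c γ b d = c γ a d := by
  obtain ⟨r, p⟩ := pot_line h k m
  have q : ∀ a b, c γ a b = (r a)⁻¹ * r b := p id continuous_id
  rw [q, q, q]
  group

theorem Cls.symm (h : Cls A o c) {γ : ℝ → V} (k : Continuous γ) (m : ∀ t, γ t ∈ A) (a b : ℝ) :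
    c γ b a = (c γ a b)⁻¹ := by
  obtain ⟨r, p⟩ := pot_line h k m
  have q : ∀ a b, c γ a b = (r a)⁻¹ * r b := p id continuous_id
  rw [q, q]
  group

/-- Change of the parameter. -/
theorem Cls.repar (h : Cls A o c) {γ : ℝ → V} (k : Continuous γ) (m : ∀ t, γ t ∈ A) {θ : ℝ → ℝ}
    (kθ : Continuous θ) (a b : ℝ) : c (γ ∘ θ) a b = c γ (θ a) (θ b) := by
  obtain ⟨r, p⟩ := pot_line h k m
  exact (p θ kθ a b).trans (p id continuous_id _ _).symm

/-- The class of a loop from another starting time is conjugate. -/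
theorem Cls.shift (h : Cls A o c) {γ : ℝ → V} (k : Lp A γ) (a : ℝ) :
    IsConj (c γ 0 1) (c γ a (a + 1)) := by
  have e := h.repar k.1 k.2.1 (θ := fun t => t + 1) (by fun_prop) 0 a
  rw [show (γ ∘ fun t => t + 1) = γ from funext k.2.2, zero_add] at e
  refine isConj_iff.2 ⟨c γ a 0, ?_⟩
  rw [← h.symm k.1 k.2.1, h.trans k.1 k.2.1, e, h.trans k.1 k.2.1]

theorem star_pL : StarConvex ℝ ((-1 : ℂ), (0 : ℂ)) pL := by
  intro y hy a b ha hb e
  refine hy.imp (fun h => ?_) fun h => ?_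
  · simp only [Prod.fst_add, Prod.smul_fst, add_re, smul_re, neg_re, one_re, smul_eq_mul]
    rcases ha.eq_or_lt with rfl | ha
    · rw [zero_add] at e
      simpa [e] using h
    · nlinarith [mul_nonneg hb (neg_pos.2 h).le]
  · simp only [Prod.fst_add, Prod.smul_fst, add_im, smul_im, neg_im, one_im, smul_eq_mul, neg_zero,
      mul_zero, zero_add, abs_mul, abs_of_nonneg hb]
    nlinarith [mul_nonneg ha (abs_nonneg y.1.im), abs_nonneg y.1.im]

theorem star_pR : StarConvex ℝ ((1 : ℂ), (0 : ℂ)) pR := by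
  intro y hy a b ha hb e
  refine hy.imp (fun h => ?_) fun h => ?_
  · simp only [Prod.fst_add, Prod.smul_fst, add_re, smul_re, one_re, smul_eq_mul]
    rcases ha.eq_or_lt with rfl | ha
    · rw [zero_add] at e
      simpa [e] using h
    · nlinarith [mul_nonneg hb h.le]
  · simp only [Prod.fst_add, Prod.smul_fst, add_im, smul_im, one_im, smul_eq_mul,
      mul_zero, zero_add, abs_mul, abs_of_nonneg hb]
    nlinarith [mul_nonneg ha (abs_nonneg y.1.im), abs_nonneg y.1.im]

theorem pot_slit {w : ℂ} (h : w.re < 0 ∨ |w.im| < Real.pi) : 1 + exp w ∈ slitPlane := by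
  rcases h with h | h
  · exact mem_slitPlane_of_norm_lt_one (by rwa [norm_exp, Real.exp_lt_one_iff])
  · rw [mem_slitPlane_iff, or_iff_not_imp_right, not_not]
    intro k
    simp only [add_im, one_im, zero_add, exp_im, mul_eq_zero, Real.exp_ne_zero, false_or] at k
    have := (Real.sin_eq_zero_iff_of_lt_of_lt (abs_lt.1 h).1 (abs_lt.1 h).2).1 k
    simp only [add_re, one_re, exp_re, this, Real.cos_zero, mul_one]
    positivity

theorem pL_slit {u : ℂ × ℂ} (h : u ∈ pL) : 1 + exp u.1 ∈ slitPlane := pot_slit h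

theorem pR_slit {u : ℂ × ℂ} (h : u ∈ pR) : 1 + exp (-u.1) ∈ slitPlane :=
  pot_slit (h.imp (fun k => by simpa using k) fun k => by simpa using k)

theorem pot_half {w : ℂ} (h : |w.im| < Real.pi) :
    log (1 + exp w) = w / 2 + log (exp (w / 2) + exp (-(w / 2))) := by
  obtain ⟨h1, h2⟩ := abs_lt.1 h
  have i : (w / 2).im = w.im / 2 := by simp
  have r : 0 < (exp (w / 2) + exp (-(w / 2))).re := by
    have := Real.cos_pos_of_mem_Ioo (x := w.im / 2) ⟨by linarith, by linarith⟩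
    simp only [add_re, exp_re, neg_im, Real.cos_neg, i]
    positivity
  have n : exp (w / 2) + exp (-(w / 2)) ≠ 0 := fun k => by simp [k] at r
  obtain ⟨a1, a2⟩ := abs_lt.1 (abs_arg_lt_pi_div_two_iff.2 (Or.inl r))
  rw [← log_exp (x := w / 2 + log _) (by rw [add_im, i, log_im]; linarith)
    (by rw [add_im, i, log_im]; linarith), exp_add, exp_log n, mul_add, ← exp_add, ← exp_add,
    add_halves, add_neg_cancel, exp_zero, add_comm]

/-- The two logarithms of `1 + exp w` agree on the middle strip. -/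
theorem p_log_mid {w : ℂ} (h : |w.im| < Real.pi) :
    log (1 + exp w) = w + log (1 + exp (-w)) := by
  rw [pot_half h, pot_half (w := -w) (by simpa using h), neg_div, neg_neg, add_comm (exp (-_))]
  ring

end Pool.Agent.Lib.MP_b2e238_gt
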