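import Pool.Agent.Lib.MP_b2e238_gt.C.Pi
import Pool.Agent.Lib.MP_b2e238_gt.K.Hl
import Pool.Agent.Lib.MP_b2e238_gt.K.Dif

/-! Loops that read a word: the two winding numbers. -/

open scoped Topology ContDiff
open Set Complex

noncomputable section

namespace Pool.Agent.Lib.MP_b2e238_gt

variable {i : ℕ} {e b : ℤ} {η : ℝ → ℂ}

theorem wl_re {s φ : ℝ} (h : (∃ k : ℤ, φ = k) ∨ s < 0) :
    0 < (1 + (Real.exp s : ℂ) * ex φ).re := by
  rw [add_re, one_re, re_ofReal_mul]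
  rcases h with ⟨k, rfl⟩ | h
  · rw [ex_int, one_re]
    positivity
  · have := (abs_le.1 ((abs_re_le_norm (ex φ)).trans_eq (norm_ex φ))).1
    nlinarith [Real.exp_pos s, Real.exp_lt_one_iff.2 h]

theorem wl_exp (s φ : ℝ) : exp (s + 2 * Real.pi * φ * I) = (Real.exp s : ℂ) * ex φ := by
  rw [exp_add, ofReal_exp, ex]

/-- On a segment where the angle is an integer or the radius is less than one the imaginary part
of a logarithm of `1 + η` comes back. -/
theorem wl_seg {L : ℝ → ℂ} {s φ : ℝ → ℝ} {x y : ℝ} (h : x < y) (cL : Continuous L)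
    (cs : Continuous s) (cφ : Continuous φ) (e : ∀ t, exp (L t) = 1 + Real.exp (s t) * ex (φ t))
    (p : ∀ t ∈ Icc x y, (∃ k : ℤ, φ t = k) ∨ s t < 0) {j k : ℤ} (hx : φ x = j) (hy : φ y = k) :
    (L y).im = (L x).im := by
  have := Subtype.preconnectedSpace (isPreconnected_Icc (a := x) (b := y))
  have q (t : Icc x y) : (1 : ℂ) + Real.exp (s t) * ex (φ t) ∈ slitPlane := Or.inl (wl_re (p t t.2))
  have := congrArg im (wn_const (D := fun t : Icc x y => L t - log (1 + Real.exp (s t) * ex (φ t)))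
    ((cL.comp continuous_subtype_val).sub (Continuous.clog (by unfold ex; fun_prop) q))
    (fun t => by rw [exp_sub, e, exp_log (slitPlane_ne_zero (q t)), div_self (slitPlane_ne_zero (q t))])
    ⟨y, h.le, le_rfl⟩ ⟨x, le_rfl, h.le⟩)
  have z (r : ℝ) : arg (1 + Real.exp r) = 0 := by
    exact_mod_cast arg_ofReal_of_nonneg (x := 1 + Real.exp r) (by positivity)
  simpa only [sub_im, log_im, hx, hy, ex_int, mul_one, z, sub_zero] using this

theorem WL.facts (h : WL i e b η) : Continuous η ∧ (∀ t, η t ∈ CC) ∧ (∀ t, η (t + 1) = η t) ∧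
    Wn η (1 + i) ∧ Wn (fun t => 1 + η t) i := by
  obtain ⟨s, φ, c, t₀, t₁, t₂, t₃, t₄, t₅, cs, cφ, h, o₀, o₁, o₂, o₃, o₄, o₅, e₀, e₁, e₂, e₃, e₄, e₅,
    s₀, s₁, s₂, s₃, s₄, s₅⟩ := h
  have W : Wn η (1 + i) := ⟨fun t => s t + 2 * Real.pi * φ t * I, by fun_prop,
    fun t => (wl_exp _ _).trans (h t).1.symm, fun t => by
      simp only [(h t).2.1, (h t).2.2]
      push_cast
      ring⟩
  have v (t : ℝ) : 1 + η t = η t * (1 + Real.exp (-s t) * ex (-φ t)) := by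
    rw [mul_add, mul_one, (h t).1, mul_mul_mul_comm, ← ex_add, ← ofReal_mul, ← Real.exp_add,
      add_neg_cancel, add_neg_cancel, Real.exp_zero, ← Int.cast_zero (R := ℝ), ex_int, add_comm]
    simp
  have m (x y : ℝ) (k : Seg s φ x y (-1)) : ∀ t ∈ Icc x y, (∃ k : ℤ, φ t = k) ∨ s t < 0 :=
    fun t ht => (k t ht).imp id fun k => by linarith
  have p (x y : ℝ) (k : Seg s φ x y 1) : ∀ t ∈ Icc x y, (∃ k : ℤ, -φ t = k) ∨ -s t < 0 :=
    fun t ht => (k t ht).imp (fun ⟨k, a⟩ => ⟨-k, by rw [a, Int.cast_neg]⟩) fun k => by linarith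
  have n (t : ℝ) : 1 + η t ≠ 0 := by
    have a := Int.fract_nonneg (t - t₀)
    have a' := Int.fract_lt_one (t - t₀)
    have : η t = η (t₀ + Int.fract (t - t₀)) := by
      rw [← per_int W.per (t₀ + _) ⌊t - t₀⌋, add_assoc, Int.fract_add_floor, add_sub_cancel]
    rw [this]
    generalize Int.fract (t - t₀) = u at *
    have m' (x y : ℝ) (k : Seg s φ x y (-1)) (r : t₀ + u ∈ Icc x y) : 1 + η (t₀ + u) ≠ 0 :=
      (h _).1 ▸ slitPlane_ne_zero (Or.inl (wl_re (m x y k _ r)))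
    have p' (x y : ℝ) (k : Seg s φ x y 1) (r : t₀ + u ∈ Icc x y) : 1 + η (t₀ + u) ≠ 0 :=
      v _ ▸ mul_ne_zero (W.ne _) (slitPlane_ne_zero (Or.inl (wl_re (p x y k _ r))))
    rcases le_total (t₀ + u) t₁ with k₁ | k₁
    · exact m' _ _ s₀ ⟨by linarith, k₁⟩
    rcases le_total (t₀ + u) t₂ with k₂ | k₂
    · exact p' _ _ s₁ ⟨k₁, k₂⟩
    rcases le_total (t₀ + u) t₃ with k₃ | k₃
    · exact m' _ _ s₂ ⟨k₂, k₃⟩
    rcases le_total (t₀ + u) t₄ with k₄ | k₄
    · exact p' _ _ s₃ ⟨k₃, k₄⟩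
    rcases le_total (t₀ + u) t₅ with k₅ | k₅
    · exact m' _ _ s₄ ⟨k₄, k₅⟩
    · exact p' _ _ s₅ ⟨k₅, by linarith⟩
  refine ⟨W.cont, fun t k => ?_, W.per, W, ?_⟩
  · rcases k with k | k
    exacts [W.ne t k, n t (by rw [mem_singleton_iff.1 k, add_neg_cancel])]
  obtain ⟨k, L, cL, eL, pL⟩ := exists_wn (a := fun t => 1 + η t) (continuous_const.add W.cont) n
    fun t => by simp only [W.per]
  have M (x y : ℝ) (o : x < y) (g : Seg s φ x y (-1)) (j k : ℤ) (a : φ x = j) (a' : φ y = k) :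
      (L y).im = (L x).im := wl_seg o cL cs cφ (fun t => (h t).1 ▸ eL t) (m x y g) a a'
  have P (x y : ℝ) (o : x < y) (g : Seg s φ x y 1) (j k : ℤ) (a : φ x = j) (a' : φ y = k) :
      (L y).im - 2 * Real.pi * φ y = (L x).im - 2 * Real.pi * φ x := by
    have := wl_seg (L := fun t => L t - (s t + 2 * Real.pi * φ t * I)) (s := fun t => -s t)
      (φ := fun t => -φ t) (j := -j) (k := -k) o (by fun_prop) cs.neg cφ.neg
      (fun t => by rw [exp_sub, (eL t).trans (v t), wl_exp, ← (h t).1, mul_div_cancel_left₀ _ (W.ne t)])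
      (p x y g) (by rw [a, Int.cast_neg]) (by rw [a', Int.cast_neg])
    simpa using this
  have e₆ : φ (t₀ + 1) = c + (1 + i) := by rw [(h _).2.2, e₀]
  have a₀ := M _ _ o₀ s₀ c (c + e) e₀ (by exact_mod_cast e₁)
  have a₁ := P _ _ o₁ s₁ (c + e) (c + e - b) (by exact_mod_cast e₁) (by exact_mod_cast e₂)
  have a₂ := M _ _ o₂ s₂ (c + e - b) (c + e - b + 1) (by exact_mod_cast e₂) (by exact_mod_cast e₃)
  have a₃ := P _ _ o₃ s₃ (c + e - b + 1) (c + e + 1) (by exact_mod_cast e₃) (by exact_mod_cast e₄)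
  have a₄ := M _ _ o₄ s₄ (c + e + 1) (c + 1) (by exact_mod_cast e₄) (by exact_mod_cast e₅)
  have a₅ := P _ _ o₅ s₅ (c + 1) (c + (1 + i)) (by exact_mod_cast e₅) (by exact_mod_cast e₆)
  have a₆ : (L (t₀ + 1)).im = (L t₀).im + 2 * Real.pi * k := by
    rw [pL]
    simp [mul_comm]
  rw [e₁, e₂] at a₁
  rw [e₃, e₄] at a₃
  rw [e₅, e₆] at a₅
  obtain rfl : k = i := by
    exact_mod_cast mul_left_cancel₀ Real.two_pi_pos.ne' (show _ * (k : ℝ) = _ * (i : ℝ) by linarith)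
  exact ⟨L, cL, eL, pL⟩

end Pool.Agent.Lib.MP_b2e238_gt
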