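import Pool.Agent.Lib.MP_b2e238_gt.P.Sys
import Pool.Agent.Lib.MP_b2e238_gt.C.Pi

/-! The class of a loop that reads a word in the turns inside and outside the unit circle. -/

open scoped Topology
open Set Complex

noncomputable section

namespace Pool.Agent.Lib.MP_b2e238_gt

variable {Γ : Type} [Group Γ] {A : Set C3} {σ : ℕ} {ε : ℤ} {o : C3}
  {c : (ℝ → C3) → ℝ → ℝ → Γ} {ρ ρ' : ℂ × ℂ → Γ} {l μ h : Γ}

theorem word_re (x y : ℝ) : ((x : ℂ) + y * tpi).re = x := by simp [tpi]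

theorem word_im (x y : ℝ) : ((x : ℂ) + y * tpi).im = y * (2 * Real.pi) := by simp [tpi]

theorem word_abs (y : ℝ) : |y * (2 * Real.pi)| < Real.pi ↔ |y| < 1 / 2 := by
  have := Real.pi_pos
  rw [abs_mul, abs_of_pos (by positivity : 0 < 2 * Real.pi)]
  constructor <;> intro k <;> nlinarith

theorem word_seg {r : ℂ × ℂ → Γ} {g : Γ} {sg : ℝ} (C : Cls A o c)
    (pot : Pot c (pG σ ε) {u | 0 < sg * u.1.re ∨ |u.1.im| < Real.pi} r)
    (sh : ∀ (w v : ℂ) (k : ℤ), 0 < sg * w.re → r (w + k * tpi, v) = g ^ k * r (w, v))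
    {γ : ℝ → C3} (kγ : Continuous γ) (mγ : ∀ t, γ t ∈ A) {s φ : ℝ → ℝ} {v : ℝ → ℂ}
    (cs : Continuous s) (cφ : Continuous φ) (cv : Continuous v)
    (eγ : ∀ t, γ t = pG σ ε (s t + φ t * tpi, v t)) {a b : ℝ} (hab : a ≤ b) (hS : Seg s φ a b sg)
    {j j' : ℤ} (ha : φ a = j) (hb : φ b = j') :
    c γ a b = (r (s a, v a))⁻¹ * g ^ (j' - j) * r (s b, v b) := by
  let u : ℤ → ℝ → ℂ × ℂ := fun k t => (s t + (φ t - k : ℝ) * tpi, v t)
  let ad : ℤ → ℝ → Prop := fun k t => 0 < sg * s t ∨ |φ t - k| < 1 / 2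
  have cu : ∀ k, Continuous (u k) := fun k => by fun_prop
  have mu : ∀ k t, ad k t → u k t ∈ {u : ℂ × ℂ | 0 < sg * u.1.re ∨ |u.1.im| < Real.pi} := by
    intro k t q
    simp only [u, mem_ofPred_eq, word_re, word_im, word_abs]
    exact q
  have eu : ∀ k t, γ t = pG σ ε (u k t) := by
    intro k t
    rw [eγ, ← pG_per σ ε _ _ (-k) 0]
    simp only [u]
    congr 2
    · push_cast; ring
    · simp
  have key : ∀ k k' t, ad k t → ad k' t → g ^ k * r (u k t) = g ^ k' * r (u k' t) := by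
    intro k k' t q q'
    by_cases p : 0 < sg * s t
    · have e : u k t = ((u k' t).1 + (k' - k : ℤ) * tpi, v t) := by
        simp only [u]; congr 1; push_cast; ring
      rw [e, sh _ _ _ (by simpa only [u, word_re] using p), ← mul_assoc, ← zpow_add]
      simp [u]
    · have q1 := abs_lt.1 (q.resolve_left p)
      have q2 := abs_lt.1 (q'.resolve_left p)
      have e1 : (k : ℝ) < k' + 1 := by linarith
      have e2 : (k' : ℝ) < k + 1 := by linarith
      have e3 : k < k' + 1 := by exact_mod_cast e1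
      have e4 : k' < k + 1 := by exact_mod_cast e2
      obtain rfl : k = k' := by omega
      rfl
  have adr : ∀ t ∈ Icc a b, ad (round (φ t)) t := by
    intro t ht
    rcases hS t ht with ⟨k, e⟩ | p
    · right; rw [e]; simp
    · exact Or.inl p
  let R : ℝ → Γ := fun t => g ^ round (φ t) * r (u (round (φ t)) t)
  have main : c γ a b = (R a)⁻¹ * R b := by
    refine isPreconnected_Icc.induction₂' (fun x y => c γ x y = (R x)⁻¹ * R y) ?_ ?_
      (left_mem_Icc.2 hab) (right_mem_Icc.2 hab)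
    · intro x hx
      have op : IsOpen {t | ad (round (φ x)) t} :=
        (isOpen_lt (f := fun _ => (0 : ℝ)) (g := fun t => sg * s t) continuous_const
          (by fun_prop)).union (isOpen_lt (f := fun t => |φ t - (round (φ x) : ℤ)|)
            (g := fun _ => (1 / 2 : ℝ)) (by fun_prop) continuous_const)
      obtain ⟨δ, hδ, hb⟩ := Metric.isOpen_iff.1 op x (adr x hx)
      filter_upwards [nhdsWithin_le_nhds (Metric.ball_mem_nhds x hδ), self_mem_nhdsWithin]
        with y hy hy'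
      have sub : uIcc x y ⊆ Metric.ball x δ :=
        (convex_ball x δ).ordConnected.uIcc_subset (Metric.mem_ball_self hδ) hy
      have e : R y = g ^ round (φ x) * r (u (round (φ x)) y) := key _ _ _ (adr y hy') (hb hy)
      constructor
      · rw [pot γ (u (round (φ x))) x y (cu _).continuousOn (fun t ht => mu _ _ (hb (sub ht)))
          fun t _ => eu _ t, e]
        simp only [R]; group
      · rw [pot γ (u (round (φ x))) y x (cu _).continuousOn
          (fun t ht => mu _ _ (hb (sub (uIcc_comm x y ▸ ht)))) fun t _ => eu _ t, e]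
        simp only [R]; group
    · intro x y z _ _ _ p q
      rw [← C.trans kγ mγ x y z, p, q]; group
  rw [main]
  simp only [R, u, ha, hb, round_intCast, sub_self, ofReal_zero, zero_mul, add_zero]
  group

theorem Sys.word {i : ℕ} {e b : ℤ} {η : ℝ → ℂ} (C : Cls A o c) (S : Sys c σ ε ρ ρ' l μ h)
    (W : WL i e b η) {γ : ℝ → C3}
    (L : Lp A γ) {v : ℝ → ℂ} (cv : Continuous v) {m : ℤ} (pv : ∀ t, v (t + 1) = v t + m * tpi)
    (eγ : ∀ t, γ t = pG σ ε (log (η t), v t)) : IsConj (c γ 0 1)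
      (l ^ e * μ ^ b * l * μ ^ (-b) * l ^ (-e) * μ ^ (-(i : ℤ)) * h ^ m) := by
  obtain ⟨s, φ, k, t₀, t₁, t₂, t₃, t₄, t₅, cs, cφ, hη, h01, h12, h23, h34, h45, h50, f0, f1, f2,
    f3, f4, f5, s0, s1, s2, s3, s4, s5⟩ := W
  have eγ' : ∀ t, γ t = pG σ ε (s t + φ t * tpi, v t) := by
    intro t
    have e1 : exp (s t + φ t * tpi) = η t := by
      rw [(hη t).1, exp_add, ex, ofReal_exp, tpi]; congr 2; ring
    have e2 : η t ≠ 0 := e1 ▸ exp_ne_zero _
    rw [eγ]; simp only [pG, e1, exp_log e2]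
  have pL' : Pot c (pG σ ε) {u | 0 < (-1 : ℝ) * u.1.re ∨ |u.1.im| < Real.pi} ρ :=
    S.potL.mono fun u q => q.imp_left fun q => by linarith
  have pR' : Pot c (pG σ ε) {u | 0 < (1 : ℝ) * u.1.re ∨ |u.1.im| < Real.pi} ρ' :=
    S.potR.mono fun u q => q.imp_left fun q => by linarith
  have shL : ∀ (w v : ℂ) (k : ℤ), 0 < (-1 : ℝ) * w.re → ρ (w + k * tpi, v) = l ^ k * ρ (w, v) :=
    fun w v k q => by simpa using S.shL (w := w) (by linarith) v k 0
  have shR : ∀ (w v : ℂ) (k : ℤ), 0 < (1 : ℝ) * w.re →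
      ρ' (w + k * tpi, v) = μ⁻¹ ^ k * ρ' (w, v) :=
    fun w v k q => by simpa using S.shR (w := w) (by linarith) v k 0
  have mid : ∀ t, ρ' (s t, v t) = ρ (s t, v t) := fun t =>
    (S.mid _ _ (by simpa using Real.pi_pos)).symm
  have sL := fun {a b : ℝ} {j j' : ℤ} hab hS ha hb =>
    word_seg (a := a) (b := b) (j := j) (j' := j') C pL' shL L.1 L.2.1 cs cφ cv eγ' hab hS ha hb
  have sR := fun {a b : ℝ} {j j' : ℤ} hab hS ha hb =>
    word_seg (a := a) (b := b) (j := j) (j' := j') C pR' shR L.1 L.2.1 cs cφ cv eγ' hab hS ha hb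
  have g1 : φ t₁ = (k + e : ℤ) := by push_cast; exact f1
  have g2 : φ t₂ = (k + e - b : ℤ) := by push_cast; exact f2
  have g3 : φ t₃ = (k + e - b + 1 : ℤ) := by push_cast; exact f3
  have g4 : φ t₄ = (k + e + 1 : ℤ) := by push_cast; exact f4
  have g5 : φ t₅ = (k + 1 : ℤ) := by push_cast; exact f5
  have g6 : φ (t₀ + 1) = (k + 1 + i : ℤ) := by rw [(hη t₀).2.2, f0]; push_cast; ring
  have hm : ρ (s (t₀ + 1), v (t₀ + 1)) = h ^ m * ρ (s t₀, v t₀) := by
    rw [(hη t₀).2.1, pv]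
    refine (pSys_seq (F := fun j : ℤ => ρ (s t₀, v t₀ + j * tpi)) (g := h) (fun j => ?_) m).trans
      (by simp)
    rw [← S.hL _ _ (Or.inr (by simpa using Real.pi_pos))]
    congr 2; push_cast; ring
  refine (C.shift L t₀).trans (IsConj.symm (isConj_iff.2 ⟨(ρ (s t₀, v t₀))⁻¹, ?_⟩))
  rw [← C.trans L.1 L.2.1 t₀ t₅, ← C.trans L.1 L.2.1 t₀ t₄, ← C.trans L.1 L.2.1 t₀ t₃,
    ← C.trans L.1 L.2.1 t₀ t₂, ← C.trans L.1 L.2.1 t₀ t₁, sL h01.le s0 f0 g1, sR h12.le s1 g1 g2,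
    sL h23.le s2 g2 g3, sR h34.le s3 g3 g4, sL h45.le s4 g4 g5, sR h50.le s5 g5 g6]
  simp only [mid, hm]
  group

end Pool.Agent.Lib.MP_b2e238_gt
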